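import Mathlib

set_option autoImplicit false

namespace Pool.Agent.H28

/-- `a` is a product of conjugates of `g 0, ..., g (n - 1)`, in this order. -/
def Dependent {G : Type*} [Group G] {n : ℕ} (a : G) (g : Fin n → G) : Prop :=
  ∃ c : Fin n → G, a = (List.ofFn (fun i => c i * g i * (c i)⁻¹)).prod

theorem Dependent.map {G H : Type*} [Group G] [Group H] {n : ℕ} {a : G} {g : Fin n → G}
    (φ : G →* H) (h : Dependent a g) : Dependent (φ a) (fun i => φ (g i)) := by
  obtain ⟨c, hc⟩ := h
  refine ⟨fun i => φ (c i), ?_⟩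
  rw [hc, map_list_prod, List.map_ofFn]
  congr 2
  funext i
  simp

theorem conj_prod {G : Type*} [Group G] {n : ℕ} (s : G) (f : Fin n → G) :
    s * (List.ofFn f).prod * s⁻¹ = (List.ofFn (fun i => s * f i * s⁻¹)).prod := by
  have h := map_list_prod (MulAut.conj s) (List.ofFn f)
  rw [List.map_ofFn] at h
  exact h

/-- replacing all elements by conjugates does not change dependence. -/
theorem Dependent.conj {G : Type*} [Group G] {n : ℕ} {a a' : G} {g g' : Fin n → G}
    (s : G) (t : Fin n → G) (ha : a' = s * a * s⁻¹) (hg : ∀ i, g' i = t i * g i * (t i)⁻¹)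
    (h : Dependent a g) : Dependent a' g' := by
  obtain ⟨c, hc⟩ := h
  refine ⟨fun i => s * c i * (t i)⁻¹, ?_⟩
  rw [ha, hc, conj_prod]
  congr 2
  funext i
  rw [hg]
  group

/-- every homomorphism from `S` to the group of order `p` extends to the whole group. -/
def ExtP (p : ℕ) {G : Type*} [Group G] (S : Subgroup G) : Prop :=
  ∀ ψ : S →* Multiplicative (ZMod p), ∃ Ψ : G →* Multiplicative (ZMod p), ∀ s : S, Ψ s = ψ s

/-- only the trivial homomorphism to the group of order `p` is trivial on `S`. -/
def UniqP (p : ℕ) {G : Type*} [Group G] (S : Subgroup G) : Prop :=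
  ∀ Ψ : G →* Multiplicative (ZMod p), (∀ s : S, Ψ s = 1) → Ψ = 1

end Pool.Agent.H28
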