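import Mathlib

set_option autoImplicit false

namespace Pool.Agent.H28

/-! ### free groups of finite rank are Hopfian -/

section Hopf

variable {α : Type*}

open Classical in
/-- restricted left multiplication on a finite set extends to a permutation. -/
theorem exists_perm_extend (V : Finset (FreeGroup α)) (x : FreeGroup α) :
    ∃ e : Equiv.Perm V, ∀ v : V, x * v.1 ∈ V → ((e v : V) : FreeGroup α) = x * v.1 := by
  let P : V → Prop := fun v => x * v.1 ∈ V
  let Q : V → Prop := fun v => x⁻¹ * v.1 ∈ V
  let e0 : {v // P v} ≃ {v // Q v} :=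
    { toFun := fun v => ⟨⟨x * v.1.1, v.2⟩, by
        show x⁻¹ * (x * v.1.1) ∈ V
        rw [inv_mul_cancel_left]; exact v.1.2⟩
      invFun := fun v => ⟨⟨x⁻¹ * v.1.1, v.2⟩, by
        show x * (x⁻¹ * v.1.1) ∈ V
        rw [mul_inv_cancel_left]; exact v.1.2⟩
      left_inv := fun v => by ext; simp
      right_inv := fun v => by ext; simp }
  refine ⟨e0.extendSubtype, fun v h => ?_⟩
  rw [Equiv.extendSubtype_apply_of_mem e0 v h]
  rfl

/-- every nontrivial element of a free group is detected by a finite permutation group. -/
theorem exists_finite_detect (w : FreeGroup α) (hw : w ≠ 1) :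
    ∃ (V : Finset (FreeGroup α)) (f : FreeGroup α →* Equiv.Perm V), f w ≠ 1 := by
  classical
  let L := w.toWord
  let V : Finset (FreeGroup α) := (L.tails.map FreeGroup.mk).toFinset
  have hVmem : ∀ M : List (α × Bool), M <:+ L → FreeGroup.mk M ∈ V := by
    intro M hM
    simp only [V, List.mem_toFinset, List.mem_map, List.mem_tails]
    exact ⟨M, hM, rfl⟩
  choose e he using exists_perm_extend V
  let f : FreeGroup α →* Equiv.Perm V := FreeGroup.lift (fun a => e (FreeGroup.of a))
  have hf : ∀ x, f (FreeGroup.of x) = e (FreeGroup.of x) := fun x => by simp [f]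
  have h1 : (1 : FreeGroup α) ∈ V := by
    have := hVmem [] (List.nil_suffix)
    simpa [FreeGroup.one_eq_mk] using this
  have key : ∀ M : List (α × Bool), M <:+ L →
      ((f (FreeGroup.mk M) ⟨1, h1⟩ : V) : FreeGroup α) = FreeGroup.mk M := by
    intro M
    induction M with
    | nil =>
      intro hM
      have : (FreeGroup.mk ([] : List (α × Bool))) = 1 := rfl
      simp [this]
    | cons a M ih =>
      intro hM
      have hM' : M <:+ L := (List.suffix_cons a M).trans hM
      have hsplit : FreeGroup.mk (a :: M) = FreeGroup.mk [a] * FreeGroup.mk M := by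
        rw [FreeGroup.mul_mk]; rfl
      have ihM := ih hM'
      rw [hsplit, map_mul, Equiv.Perm.mul_apply]
      obtain ⟨x, b⟩ := a
      cases b with
      | true =>
        have hx : FreeGroup.mk [(x, true)] = FreeGroup.of x := rfl
        have hmem : FreeGroup.of x * FreeGroup.mk M ∈ V := by
          rw [← hx, ← hsplit]; exact hVmem _ hM
        rw [hx, hf, he, ihM]
        rw [ihM]; exact hmem
      | false =>
        have hx : FreeGroup.mk [(x, false)] = (FreeGroup.of x)⁻¹ := rfl
        have hmem : (FreeGroup.of x)⁻¹ * FreeGroup.mk M ∈ V := by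
          rw [← hx, ← hsplit]; exact hVmem _ hM
        rw [hx, map_inv, hf]
        have h2 : e (FreeGroup.of x) ⟨(FreeGroup.of x)⁻¹ * FreeGroup.mk M, hmem⟩ =
            f (FreeGroup.mk M) ⟨1, h1⟩ := by
          apply Subtype.ext
          rw [he, ihM]
          · simp
          · simp only [mul_inv_cancel_left]
            exact hVmem _ hM'
        rw [← h2]
        simp
  refine ⟨V, f, fun h => hw ?_⟩
  have h2 := key L (List.suffix_refl L)
  have h3 : FreeGroup.mk L = w := FreeGroup.mk_toWord
  rw [h3, h] at h2
  simpa using h2.symm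

/-- free groups of finite rank are Hopfian. -/
theorem hopf [Finite α] (f : FreeGroup α →* FreeGroup α) (hf : Function.Surjective f) :
    Function.Injective f := by
  rw [injective_iff_map_eq_one]
  intro w hw
  by_contra hne
  obtain ⟨V, φ, hφ⟩ := exists_finite_detect w hne
  have : Finite (FreeGroup α →* Equiv.Perm V) := by
    exact Finite.of_injective (fun (g : FreeGroup α →* Equiv.Perm V) (a : α) => g (FreeGroup.of a))
      (fun g h hgh => FreeGroup.ext_hom _ _ (fun a => congrFun hgh a))
  let T : (FreeGroup α →* Equiv.Perm V) → (FreeGroup α →* Equiv.Perm V) := fun g => g.comp f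
  have hT : Function.Injective T := by
    intro g h hgh
    ext x : 1
    obtain ⟨y, hy⟩ := hf (FreeGroup.of x)
    rw [← hy]
    exact DFunLike.congr_fun hgh y
  have hTs : Function.Surjective T := Finite.surjective_of_injective hT
  obtain ⟨ψ, hψ⟩ := hTs φ
  apply hφ
  rw [← hψ]
  show ψ (f w) = 1
  rw [hw, map_one]

end Hopf

end Pool.Agent.H28
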