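import Mathlib

set_option autoImplicit false

namespace Pool.Agent.H28

open MulAction

/-! ### cocycles on a `G`-set with values in an abelian group -/

section Cocycle

variable {G ι W A : Type*} [Group G] [MulAction G W] [AddCommGroup A]

/-- `δ v g` is the value along the path starting at `v` and following `g`. -/
def IsCoc (δ : W → G → A) : Prop :=
  ∀ v s t, δ v (s * t) = δ v t + δ (t • v) s

theorem IsCoc.one {δ : W → G → A} (h : IsCoc δ) (v : W) : δ v 1 = 0 := by
  have := h v 1 1
  simpa using this

theorem IsCoc.inv {δ : W → G → A} (h : IsCoc δ) (v : W) (s : G) :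
    δ v s⁻¹ = - δ (s⁻¹ • v) s := by
  have := h v s s⁻¹
  rw [mul_inv_cancel, h.one] at this
  exact eq_neg_of_add_eq_zero_left this.symm

/-- the permutation of `W × A` attached to a cocycle. -/
def cocPerm (δ : W → G → A) (h : IsCoc δ) (g : G) : Equiv.Perm (W × A) where
  toFun x := (g • x.1, x.2 + δ x.1 g)
  invFun x := (g⁻¹ • x.1, x.2 + δ x.1 g⁻¹)
  left_inv x := by
    have h1 := h x.1 g⁻¹ g
    rw [inv_mul_cancel, h.one] at h1
    ext
    · simp
    · simp only [add_assoc, ← h1, add_zero]
  right_inv x := by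
    have h1 := h x.1 g g⁻¹
    rw [mul_inv_cancel, h.one] at h1
    ext
    · simp
    · simp only [add_assoc, ← h1, add_zero]

/-- the homomorphism to permutations of `W × A` attached to a cocycle. -/
def cocHom (δ : W → G → A) (h : IsCoc δ) : G →* Equiv.Perm (W × A) where
  toFun := cocPerm δ h
  map_one' := by
    ext x
    · simp [cocPerm]
    · simp [cocPerm, h.one]
  map_mul' s t := by
    ext x
    · simp [cocPerm, mul_smul]
    · simp [cocPerm, h x.1 s t, add_assoc]

theorem cocHom_apply (δ : W → G → A) (h : IsCoc δ) (g : G) (v : W) (a : A) :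
    cocHom δ h g (v, a) = (g • v, a + δ v g) := rfl

theorem coc_ext (b : FreeGroupBasis ι G) {δ₁ δ₂ : W → G → A} (h₁ : IsCoc δ₁) (h₂ : IsCoc δ₂)
    (h : ∀ v i, δ₁ v (b i) = δ₂ v (b i)) (v : W) (g : G) : δ₁ v g = δ₂ v g := by
  have key : cocHom δ₁ h₁ = cocHom δ₂ h₂ := by
    apply b.ext_hom
    intro i
    ext x
    · simp [cocHom, cocPerm]
    · obtain ⟨w, a⟩ := x
      rw [cocHom_apply, cocHom_apply, h]
  have := congrArg (fun f => (f g (v, 0)).2) key
  simpa [cocHom_apply] using this

/-- the generator permutation of a labelling. -/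
def skewGen (b : FreeGroupBasis ι G) (l : W → ι → A) (i : ι) : Equiv.Perm (W × A) where
  toFun x := (b i • x.1, x.2 + l x.1 i)
  invFun x := ((b i)⁻¹ • x.1, x.2 - l ((b i)⁻¹ • x.1) i)
  left_inv x := by
    ext
    · simp
    · simp
  right_inv x := by
    ext
    · simp
    · simp

theorem closure_basis (b : FreeGroupBasis ι G) : Subgroup.closure (Set.range b) = ⊤ := by
  have h1 : Set.range b = b.repr.symm.toMonoidHom '' (Set.range FreeGroup.of) := by
    rw [← Set.range_comp]
    congr 1
  rw [h1, ← MonoidHom.map_closure, FreeGroup.closure_range_of]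
  rw [← MonoidHom.range_eq_map, MonoidHom.range_eq_top]
  exact b.repr.symm.surjective

theorem skew_form (b : FreeGroupBasis ι G) (l : W → ι → A) (g : G) :
    ∃ d : W → A, ∀ v a, b.lift (skewGen b l) g (v, a) = (g • v, a + d v) := by
  have hg : g ∈ Subgroup.closure (Set.range b) := by rw [closure_basis]; trivial
  induction hg using Subgroup.closure_induction with
  | mem x hx =>
    obtain ⟨i, rfl⟩ := hx
    refine ⟨fun v => l v i, fun v a => ?_⟩
    rw [FreeGroupBasis.lift_apply_apply]
    simp [skewGen]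
  | one => exact ⟨fun _ => 0, fun v a => by simp⟩
  | mul x y _ _ hx hy =>
    obtain ⟨d, hd⟩ := hx
    obtain ⟨e, he⟩ := hy
    refine ⟨fun v => e v + d (y • v), fun v a => ?_⟩
    rw [map_mul, Equiv.Perm.mul_apply, he, hd]
    simp [mul_smul, add_assoc]
  | inv x _ hx =>
    obtain ⟨d, hd⟩ := hx
    refine ⟨fun v => - d (x⁻¹ • v), fun v a => ?_⟩
    rw [map_inv, Equiv.Perm.inv_eq_iff_eq, hd]
    simp

/-- the cocycle determined by its values on a basis. -/
noncomputable def coc (b : FreeGroupBasis ι G) (l : W → ι → A) (v : W) (g : G) : A :=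
  (b.lift (skewGen b l) g (v, 0)).2

theorem skew_apply (b : FreeGroupBasis ι G) (l : W → ι → A) (g : G) (v : W) (a : A) :
    b.lift (skewGen b l) g (v, a) = (g • v, a + coc b l v g) := by
  obtain ⟨d, hd⟩ := skew_form b l g
  have h0 : coc b l v g = d v := by
    unfold coc
    rw [hd]
    simp
  rw [hd, h0]

theorem isCoc_coc (b : FreeGroupBasis ι G) (l : W → ι → A) : IsCoc (coc b l) := by
  intro v s t
  have h1 := skew_apply b l (s * t) v 0
  rw [map_mul, Equiv.Perm.mul_apply, skew_apply b l t, skew_apply b l s] at h1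
  have h2 := congrArg Prod.snd h1
  simpa using h2.symm

theorem coc_basis (b : FreeGroupBasis ι G) (l : W → ι → A) (v : W) (i : ι) :
    coc b l v (b i) = l v i := by
  unfold coc
  rw [FreeGroupBasis.lift_apply_apply]
  simp [skewGen]

end Cocycle

end Pool.Agent.H28
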