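import Mathlib
import Pool.Agent.H28.Cocycle

set_option autoImplicit false

namespace Pool.Agent.H28

open MulAction

section Fin

/-- coefficient formula for `mapDomain`. -/
theorem mapDomain_eq_finsum {X Y K R : Type*} [AddCommMonoid R] (f : X → Y) (c : X →₀ R) (y : Y)
    (g : K → X) (hg : Function.Injective g) (hr : ∀ x, f x = y ↔ ∃ k, g k = x) :
    Finsupp.mapDomain f c y = ∑ᶠ k, c (g k) := by
  classical
  induction c using Finsupp.induction_linear with
  | zero => simp
  | add c d hc hd =>
    rw [Finsupp.mapDomain_add, Finsupp.add_apply, hc, hd]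
    rw [← finsum_add_distrib]
    · simp
    · exact (c.hasFiniteSupport.preimage hg.injOn)
    · exact (d.hasFiniteSupport.preimage hg.injOn)
  | single x r =>
    rw [Finsupp.mapDomain_single]
    by_cases h : f x = y
    · obtain ⟨k, hk⟩ := (hr x).1 h
      rw [h, Finsupp.single_eq_same, finsum_eq_single _ k]
      · rw [hk, Finsupp.single_eq_same]
      · intro k' hk'
        rw [Finsupp.single_eq_of_ne]
        intro h'
        apply hk'
        apply hg
        rw [hk, h']
    · rw [Finsupp.single_eq_of_ne (by tauto), finsum_eq_zero_of_forall_eq_zero]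
      intro k
      rw [Finsupp.single_eq_of_ne]
      intro h'
      apply h
      exact (hr x).2 ⟨k, h'⟩

end Fin

section Bd

variable {G ι W W' R A : Type*} [Group G] [MulAction G W] [MulAction G W'] [CommRing R]
  [AddCommGroup A] [Module R A]

/-- the boundary map of the graph with vertex set `W` and an edge from `w` to `b i • w` for
each `i`. -/
noncomputable def bd (R : Type*) [CommRing R] (b : FreeGroupBasis ι G) :
    ((W × ι) →₀ R) →ₗ[R] (W →₀ R) :=
  Finsupp.lmapDomain R R (fun x : W × ι => b x.2 • x.1) - Finsupp.lmapDomain R R Prod.fst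

theorem bd_single (b : FreeGroupBasis ι G) (w : W) (i : ι) (r : R) :
    bd R b (Finsupp.single (w, i) r) = Finsupp.single (b i • w) r - Finsupp.single w r := by
  simp [bd]

theorem bd_apply (b : FreeGroupBasis ι G) (c : (W × ι) →₀ R) (w : W) :
    bd R b c w = (∑ᶠ i, c ((b i)⁻¹ • w, i)) - ∑ᶠ i, c (w, i) := by
  unfold bd
  rw [LinearMap.sub_apply, Finsupp.sub_apply]
  congr 1
  · apply mapDomain_eq_finsum _ _ _ (fun i => ((b i)⁻¹ • w, i))
    · intro i j h
      exact (Prod.ext_iff.1 h).2
    · rintro ⟨v, i⟩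
      constructor
      · intro h
        refine ⟨i, ?_⟩
        simp only [← h]
        simp
      · rintro ⟨j, hj⟩
        simp only [Prod.mk.injEq] at hj
        obtain ⟨h1, rfl⟩ := hj
        simp [← h1]
  · apply mapDomain_eq_finsum _ _ _ (fun i => (w, i))
    · intro i j h
      exact (Prod.ext_iff.1 h).2
    · rintro ⟨v, i⟩
      constructor
      · intro h
        exact ⟨i, by simp only at h; rw [h]⟩
      · rintro ⟨j, hj⟩
        simp only [Prod.mk.injEq] at hj
        exact hj.1.symm

theorem bd_mapDomain (b : FreeGroupBasis ι G) (π : W → W')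
    (hπ : ∀ (g : G) (w : W), π (g • w) = g • π w) (c : (W × ι) →₀ R) :
    bd R b (c.mapDomain (Prod.map π id)) = (bd R b c).mapDomain π := by
  have : (bd R b).comp (Finsupp.lmapDomain R R (Prod.map π id)) =
      (Finsupp.lmapDomain R R π).comp (bd (W := W) R b) := by
    ext ⟨w, i⟩ : 2
    ext
    simp [bd_single, hπ, Finsupp.mapDomain_single, Finsupp.mapDomain_sub]
  exact LinearMap.congr_fun this c

/-- the universal path chain. -/
noncomputable def pth (R : Type*) [CommRing R] (b : FreeGroupBasis ι G) :
    W → G → ((W × ι) →₀ R) :=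
  coc b (fun w i => Finsupp.single (w, i) 1)

theorem isCoc_pth (b : FreeGroupBasis ι G) : IsCoc (pth (W := W) R b) := isCoc_coc b _

theorem pth_basis (b : FreeGroupBasis ι G) (w : W) (i : ι) :
    pth R b w (b i) = Finsupp.single (w, i) 1 := coc_basis b _ w i

theorem bd_pth (b : FreeGroupBasis ι G) (v : W) (g : G) :
    bd R b (pth R b v g) = Finsupp.single (g • v) 1 - Finsupp.single v 1 := by
  apply coc_ext b (δ₁ := fun v g => bd R b (pth R b v g))
    (δ₂ := fun v g => Finsupp.single (g • v) 1 - Finsupp.single v 1)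
  · intro v s t
    simp only
    rw [isCoc_pth b v s t, map_add]
  · intro v s t
    simp only
    rw [mul_smul]
    abel
  · intro v i
    rw [pth_basis, bd_single]

theorem pth_map (b : FreeGroupBasis ι G) (π : W → W')
    (hπ : ∀ (g : G) (w : W), π (g • w) = g • π w) (v : W) (g : G) :
    (pth R b v g).mapDomain (Prod.map π id) = pth R b (π v) g := by
  apply coc_ext b (δ₁ := fun v g => (pth R b v g).mapDomain (Prod.map π id))
    (δ₂ := fun v g => pth R b (π v) g)
  · intro v s t
    simp only
    rw [isCoc_pth b v s t, Finsupp.mapDomain_add]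
  · intro v s t
    simp only
    rw [isCoc_pth b (π v) s t, hπ]
  · intro v i
    rw [pth_basis, pth_basis, Finsupp.mapDomain_single]
    rfl

theorem lc_pth (b : FreeGroupBasis ι G) (l : W → ι → A) (v : W) (g : G) :
    Finsupp.linearCombination R (fun x : W × ι => l x.1 x.2) (pth R b v g) = coc b l v g := by
  apply coc_ext b (δ₁ := fun v g =>
      Finsupp.linearCombination R (fun x : W × ι => l x.1 x.2) (pth R b v g))
    (δ₂ := coc b l)
  · intro v s t
    simp only
    rw [isCoc_pth b v s t, map_add]
  · exact isCoc_coc b l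
  · intro v i
    rw [pth_basis, coc_basis]
    simp

end Bd

section InjDef

variable {G ι : Type*} [Group G]

/-- no nonzero cycle of the graph `Ω × G ⧸ E` is killed by the projection to `G ⧸ E`. -/
def Inj (R : Type*) [CommRing R] (b : FreeGroupBasis ι G) (Ω : Type*) [MulAction G Ω]
    (E : Subgroup G) : Prop :=
  ∀ c : ((Ω × G ⧸ E) × ι) →₀ R, bd R b c = 0 →
    c.mapDomain (Prod.map Prod.snd id) = 0 → c = 0

end InjDef

section Top

variable {G ι Ω R : Type*} [Group G] [MulAction G Ω] [CommRing R]

/-- a hom defined by a cocycle on the stabilizer of a point. -/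
def cocStab {A W : Type*} [AddCommGroup A] [MulAction G W] (δ : W → G → A) (h : IsCoc δ) (o : W) :
    stabilizer G o →* Multiplicative A where
  toFun s := Multiplicative.ofAdd (δ o s.1)
  map_one' := by simp [h.one]
  map_mul' s t := by
    have ht : (t : G) • o = o := t.2
    rw [Subgroup.coe_mul, h o s.1 t.1, ht, add_comm]
    rfl

theorem cycle_zero_of_ext [IsPretransitive G Ω] (b : FreeGroupBasis ι G) (o : Ω)
    (hext : ∀ ψ : stabilizer G o →* Multiplicative R, ∃ Ψ : G →* Multiplicative R,
      ∀ s : stabilizer G o, Ψ s = ψ s)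
    (c : (Ω × ι) →₀ R) (hc : bd R b c = 0)
    (hp : c.mapDomain Prod.snd = 0) : c = 0 := by
  classical
  choose τ hτ using fun w : Ω => exists_smul_eq G o w
  let q : Ω × ι → G := fun x => (τ (b x.2 • x.1))⁻¹ * b x.2 * τ x.1
  have hq : ∀ x, q x ∈ stabilizer G o := by
    rintro ⟨w, i⟩
    rw [mem_stabilizer_iff]
    simp only [q]
    rw [mul_smul, mul_smul, hτ, inv_smul_eq_iff, hτ]
  let T : ((Ω × ι) →₀ R) →ₗ[R] ((Ω × ι) →₀ R) :=
    Finsupp.linearCombination R (fun x => pth R b o (q x))
  let Γ : (Ω →₀ R) →ₗ[R] ((Ω × ι) →₀ R) :=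
    Finsupp.linearCombination R (fun w => pth R b o (τ w))
  have hT : ∀ c, T c = c - Γ (bd R b c) := by
    have : T = LinearMap.id - Γ.comp (bd R b) := by
      ext ⟨w, i⟩ : 2
      simp only [T, Γ, LinearMap.comp_apply, Finsupp.lsingle_apply, LinearMap.sub_apply,
        LinearMap.id_apply, bd_single, map_sub, Finsupp.linearCombination_single]
      have h1 : pth R b o (q (w, i)) = pth R b o (τ w) + Finsupp.single (w, i) 1
          - pth R b o (τ (b i • w)) := by
        simp only [q]
        rw [isCoc_pth b o _ (τ w), hτ, isCoc_pth b w _ (b i), pth_basis, (isCoc_pth b).inv]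
        have h2 : (τ (b i • w))⁻¹ • (b i • w) = o := by
          rw [inv_smul_eq_iff, hτ]
        rw [h2]
        abel
      rw [h1, smul_sub, smul_add, Finsupp.smul_single, smul_eq_mul, mul_one]
      abel
    intro c
    rw [this]
    rfl
  have hTc : T c = c := by rw [hT, hc, map_zero, sub_zero]
  ext ⟨w0, i0⟩
  obtain ⟨Ψ, hΨ⟩ := hext (cocStab (fun v g => (pth R b v g) (w0, i0))
    (by intro v s t; simp only; rw [isCoc_pth b v s t, Finsupp.add_apply]) o)
  let L : (ι →₀ R) →ₗ[R] R := Finsupp.linearCombination R (fun i => (Ψ (b i)).toAdd)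
  have hL : ∀ g, L ((pth R b o g).mapDomain Prod.snd) = (Ψ g).toAdd := by
    intro g
    apply coc_ext b (δ₁ := fun (v : Ω) g => L ((pth R b v g).mapDomain Prod.snd))
      (δ₂ := fun v g => (Ψ g).toAdd)
    · intro v s t
      simp only
      rw [isCoc_pth b v s t, Finsupp.mapDomain_add, map_add]
    · intro v s t
      simp only
      rw [map_mul, toAdd_mul, add_comm]
    · intro v i
      rw [pth_basis, Finsupp.mapDomain_single]
      simp [L]
  have hev : ∀ c, (T c) (w0, i0) = L ((T c).mapDomain Prod.snd) := by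
    have : (Finsupp.lapply (w0, i0)).comp T =
        (L.comp (Finsupp.lmapDomain R R Prod.snd)).comp T := by
      ext ⟨w, i⟩ : 2
      simp only [LinearMap.comp_apply, Finsupp.lsingle_apply, T,
        Finsupp.linearCombination_single, map_smul]
      congr 1
      have h1 := hL (q (w, i))
      have h2 := hΨ ⟨q (w, i), hq (w, i)⟩
      rw [Finsupp.lmapDomain_apply, h1]
      simp only at h2
      rw [h2]
      rfl
    intro c
    exact LinearMap.congr_fun this c
  have := hev c
  rw [hTc, hp, map_zero] at this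
  rw [this]
  rfl

theorem inj_top [IsPretransitive G Ω] (b : FreeGroupBasis ι G) (o : Ω)
    (hext : ∀ ψ : stabilizer G o →* Multiplicative R, ∃ Ψ : G →* Multiplicative R,
      ∀ s : stabilizer G o, Ψ s = ψ s) : Inj R b Ω (⊤ : Subgroup G) := by
  intro c hc hp
  have hsub : Subsingleton (G ⧸ (⊤ : Subgroup G)) := QuotientGroup.subsingleton_quotient_top
  have h1 : c.mapDomain (Prod.map Prod.fst id) = 0 := by
    apply cycle_zero_of_ext b o hext
    · rw [bd_mapDomain b Prod.fst (fun g w => rfl), hc, Finsupp.mapDomain_zero]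
    · rw [← Finsupp.mapDomain_comp]
      have h2 : (Prod.snd ∘ Prod.map Prod.fst id : (Ω × G ⧸ (⊤ : Subgroup G)) × ι → ι) =
        Prod.snd ∘ (Prod.map Prod.snd id) := rfl
      rw [h2, Finsupp.mapDomain_comp, hp, Finsupp.mapDomain_zero]
  have hinj : Function.Injective
      (Prod.map Prod.fst id : (Ω × G ⧸ (⊤ : Subgroup G)) × ι → Ω × ι) := by
    rintro ⟨⟨w, u⟩, i⟩ ⟨⟨w', u'⟩, i'⟩ h
    simp only [Prod.map_apply, id_eq, Prod.mk.injEq] at h
    obtain ⟨rfl, rfl⟩ := h
    rw [Subsingleton.elim u u']
  exact Finsupp.mapDomain_injective hinj (by rw [h1, Finsupp.mapDomain_zero])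

end Top

end Pool.Agent.H28
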