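import Mathlib
import Pool.Agent.H28.Chain

set_option autoImplicit false

namespace Pool.Agent.H28

open MulAction

section Step

variable {G ι Ω : Type*} [Group G] [MulAction G Ω] {p : ℕ}

/-- in characteristic `p`, an operator `N` with `N = S - 1` and `S ^ p = 1` is nilpotent. -/
theorem sub_one_pow_prime (hp : p.Prime) {M : Type*} [AddCommGroup M] [Module (ZMod p) M]
    (S : Module.End (ZMod p) M) (hS : S ^ p = 1) : (S - 1) ^ p = 0 := by
  have : Fact p.Prime := ⟨hp⟩
  rcases subsingleton_or_nontrivial M with h | h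
  · ext x
    exact Subsingleton.elim _ _
  · have : CharP (Module.End (ZMod p) M) p := by
      exact charP_of_injective_algebraMap
        (FaithfulSMul.algebraMap_injective (ZMod p) (Module.End (ZMod p) M)) p
    rw [sub_pow_char_of_commute p (Commute.one_right S), hS, one_pow, sub_self]

/-- a unipotent operator leaving a nonzero subspace invariant fixes a nonzero vector of it. -/
theorem exists_fixed (hp : p.Prime) {M : Type*} [AddCommGroup M] [Module (ZMod p) M]
    (S : Module.End (ZMod p) M) (hS : S ^ p = 1) (P : M → Prop) (hPsub : ∀ x, P x → P (S x - x))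
    (c : M) (hc : P c) (hc0 : c ≠ 0) : ∃ d, P d ∧ d ≠ 0 ∧ S d = d := by
  obtain ⟨N, hNdef⟩ : ∃ N : Module.End (ZMod p) M, N = S - 1 := ⟨_, rfl⟩
  have hN : N ^ p = 0 := by rw [hNdef]; exact sub_one_pow_prime hp S hS
  have hNx : ∀ x, N x = S x - x := by intro x; rw [hNdef]; rfl
  have hex : ∃ j : ℕ, (N ^ j) c = 0 := ⟨p, by rw [hN]; rfl⟩
  classical
  obtain ⟨j, hj, hmin⟩ : ∃ j : ℕ, (N ^ j) c = 0 ∧ ∀ m < j, (N ^ m) c ≠ 0 :=
    ⟨Nat.find hex, Nat.find_spec hex, fun m hm => Nat.find_min hex hm⟩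
  have hP : ∀ m : ℕ, P ((N ^ m) c) := by
    intro m
    induction m with
    | zero => simpa using hc
    | succ m ih =>
      rw [pow_succ']
      have := hPsub _ ih
      rw [← hNx] at this
      exact this
  cases j with
  | zero => exact absurd (by simpa using hj) hc0
  | succ j =>
    refine ⟨(N ^ j) c, hP j, hmin j (Nat.lt_succ_self j), ?_⟩
    rw [pow_succ'] at hj
    have h3 : N ((N ^ j) c) = 0 := hj
    rw [hNx, sub_eq_zero] at h3
    exact h3

/-- passage to the kernel of a homomorphism onto the group of order `p`. -/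
theorem inj_step (hp : p.Prime) (b : FreeGroupBasis ι G) (E E' : Subgroup G)
    (hE : Inj (ZMod p) b Ω E) (ψ : E →* Multiplicative (ZMod p)) (hψ : ψ ≠ 1)
    (hE' : ∀ x, x ∈ E' ↔ ∃ h : x ∈ E, ψ ⟨x, h⟩ = 1) : Inj (ZMod p) b Ω E' := by
  classical
  have : Fact p.Prime := ⟨hp⟩
  -- an element on which the homomorphism takes the value `1`
  obtain ⟨e, he⟩ : ∃ e : E, ψ e = Multiplicative.ofAdd 1 := by
    obtain ⟨x, hx⟩ : ∃ x, ψ x ≠ 1 := by
      by_contra hcon
      push Not at hcon
      exact hψ (MonoidHom.ext hcon)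
    have hx' : (ψ x).toAdd ≠ 0 := fun h => hx (by
      rw [← ofAdd_toAdd (ψ x), h]; rfl)
    refine ⟨x ^ ((ψ x).toAdd⁻¹).val, ?_⟩
    rw [map_pow]
    apply Multiplicative.toAdd.injective
    rw [toAdd_pow, toAdd_ofAdd, nsmul_eq_mul, ZMod.natCast_zmod_val, inv_mul_cancel₀ hx']
  have hmemE : ∀ x, x ∈ E' → x ∈ E := fun x hx => ((hE' x).1 hx).1
  have hle : E' ≤ E := hmemE
  -- conjugation by elements of `E` preserves `E'`
  have hnorm : ∀ x y : G, y ∈ E → x ∈ E' → y⁻¹ * x * y ∈ E' := by
    intro x y hy hx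
    obtain ⟨hx1, hx2⟩ := (hE' x).1 hx
    rw [hE']
    refine ⟨E.mul_mem (E.mul_mem (E.inv_mem hy) hx1) hy, ?_⟩
    have : (⟨y⁻¹ * x * y, E.mul_mem (E.mul_mem (E.inv_mem hy) hx1) hy⟩ : E) =
      ⟨y, hy⟩⁻¹ * ⟨x, hx1⟩ * ⟨y, hy⟩ := rfl
    rw [this, map_mul, map_mul, hx2, mul_one, map_inv, inv_mul_cancel]
  -- right translation by `e`
  let σ : G ⧸ E' → G ⧸ E' := Quotient.map' (fun x => x * (e : G)) (by
    intro x y hxy
    rw [QuotientGroup.leftRel_apply] at hxy ⊢
    have : (x * (e : G))⁻¹ * (y * (e : G)) = (e : G)⁻¹ * (x⁻¹ * y) * (e : G) := by group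
    rw [this]
    exact hnorm _ _ e.2 hxy)
  have hσ : ∀ x : G, σ (x : G ⧸ E') = ((x * e : G) : G ⧸ E') := fun x => rfl
  have hσeq : ∀ (g : G) (u : G ⧸ E'), σ (g • u) = g • σ u := by
    intro g u
    induction u using QuotientGroup.induction_on with
    | H x =>
      rw [hσ]
      show σ ((g * x : G) : G ⧸ E') = ((g * (x * e) : G) : G ⧸ E')
      rw [hσ, mul_assoc]
  have hσpow : ∀ (k : ℕ) (x : G), σ^[k] (x : G ⧸ E') = ((x * (e : G) ^ k : G) : G ⧸ E') := by
    intro k
    induction k with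
    | zero => intro x; simp
    | succ k ih =>
      intro x
      rw [Function.iterate_succ_apply, hσ, ih, pow_succ', mul_assoc]
  have hep : (e : G) ^ p ∈ E' := by
    rw [hE']
    refine ⟨E.pow_mem e.2 p, ?_⟩
    have : (⟨(e : G) ^ p, E.pow_mem e.2 p⟩ : E) = e ^ p := rfl
    rw [this, map_pow, he]
    apply Multiplicative.toAdd.injective
    simp
  have hσp : ∀ u, σ^[p] u = u := by
    intro u
    induction u using QuotientGroup.induction_on with
    | H x =>
      rw [hσpow, QuotientGroup.eq]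
      have : (x * (e : G) ^ p)⁻¹ * x = ((e : G) ^ p)⁻¹ := by group
      rw [this]
      exact E'.inv_mem hep
  -- the projection to `G ⧸ E`
  let q : G ⧸ E' → G ⧸ E := Subgroup.quotientMapOfLE hle
  have hq : ∀ x : G, q (x : G ⧸ E') = (x : G ⧸ E) := fun x => rfl
  have hqeq : ∀ (g : G) (u : G ⧸ E'), q (g • u) = g • q u := by
    intro g u
    induction u using QuotientGroup.induction_on with
    | H x => rfl
  have hqσ : ∀ u, q (σ u) = q u := by
    intro u
    induction u using QuotientGroup.induction_on with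
    | H x =>
      rw [hσ, hq, hq, QuotientGroup.eq]
      have : (x * (e : G))⁻¹ * x = (e : G)⁻¹ := by group
      rw [this]
      exact E.inv_mem e.2
  have hfib : ∀ u u' : G ⧸ E', q u = q u' → ∃ k : ℕ, u' = σ^[k] u := by
    intro u u'
    induction u using QuotientGroup.induction_on with
    | H x =>
      induction u' using QuotientGroup.induction_on with
      | H y =>
        intro h
        rw [hq, hq, QuotientGroup.eq] at h
        refine ⟨((ψ ⟨x⁻¹ * y, h⟩).toAdd).val, ?_⟩
        rw [hσpow, eq_comm, QuotientGroup.eq, hE']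
        set k := ((ψ ⟨x⁻¹ * y, h⟩).toAdd).val with hk
        have hmem : (x * (e : G) ^ k)⁻¹ * y ∈ E := by
          have : (x * (e : G) ^ k)⁻¹ * y = ((e : G) ^ k)⁻¹ * (x⁻¹ * y) := by group
          rw [this]
          exact E.mul_mem (E.inv_mem (E.pow_mem e.2 k)) h
        refine ⟨hmem, ?_⟩
        have : (⟨(x * (e : G) ^ k)⁻¹ * y, hmem⟩ : E) = (e ^ k)⁻¹ * ⟨x⁻¹ * y, h⟩ := by
          ext
          simp only [Subgroup.coe_mul, Subgroup.coe_inv, Subgroup.coe_pow]
          group
        rw [this, map_mul, map_inv, map_pow, he]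
        apply Multiplicative.toAdd.injective
        rw [toAdd_mul, toAdd_inv, toAdd_pow, toAdd_ofAdd, toAdd_one, nsmul_eq_mul, mul_one, hk,
          ZMod.natCast_zmod_val]
        ring
  -- the operator
  let f : (Ω × G ⧸ E') × ι → (Ω × G ⧸ E') × ι := Prod.map (Prod.map id σ) id
  have hfpow : ∀ (k : ℕ) (x : (Ω × G ⧸ E') × ι), f^[k] x = ((x.1.1, σ^[k] x.1.2), x.2) := by
    intro k
    induction k with
    | zero => intro x; rfl
    | succ k ih =>
      intro x
      rw [Function.iterate_succ_apply, ih, Function.iterate_succ_apply]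
      rfl
  have hfp : f^[p] = id := by
    funext x
    rw [hfpow, hσp]
    rfl
  have hfinj : Function.Injective f := by
    have hp1 : p = (p - 1) + 1 := (Nat.succ_pred_eq_of_pos hp.pos).symm
    have : Function.Injective (f^[p]) := by rw [hfp]; exact Function.injective_id
    rw [hp1, Function.iterate_succ] at this
    exact this.of_comp
  let S : Module.End (ZMod p) (((Ω × G ⧸ E') × ι) →₀ ZMod p) :=
    Finsupp.lmapDomain (ZMod p) (ZMod p) f
  have hSpow : ∀ k : ℕ, S ^ k = Finsupp.lmapDomain (ZMod p) (ZMod p) (f^[k]) := by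
    intro k
    induction k with
    | zero =>
      rw [pow_zero, Function.iterate_zero, Finsupp.lmapDomain_id]
      rfl
    | succ k ih =>
      rw [pow_succ, ih, Function.iterate_succ]
      rw [Finsupp.lmapDomain_comp]
      rfl
  have hSp : S ^ p = 1 := by
    rw [hSpow, hfp, Finsupp.lmapDomain_id]
    rfl
  intro c hc hcp
  by_contra hc0
  obtain ⟨d, ⟨hd, hdp⟩, hd0, hdS⟩ := exists_fixed hp S hSp
    (fun c => bd (ZMod p) b c = 0 ∧ c.mapDomain (Prod.map Prod.snd id) = 0) (by
      rintro x ⟨hx1, hx2⟩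
      constructor
      · rw [map_sub, hx1, sub_zero]
        show bd (ZMod p) b (x.mapDomain (Prod.map (Prod.map id σ) id)) = 0
        rw [bd_mapDomain b (Prod.map id σ) (fun g w => by
          obtain ⟨w, u⟩ := w
          show (g • w, σ (g • u)) = (g • w, g • σ u)
          rw [hσeq]), hx1, Finsupp.mapDomain_zero]
      · rw [Finsupp.mapDomain_sub, hx2, sub_zero]
        show (x.mapDomain f).mapDomain (Prod.map Prod.snd id) = 0
        rw [← Finsupp.mapDomain_comp]
        have : (Prod.map Prod.snd id ∘ f : (Ω × G ⧸ E') × ι → (G ⧸ E') × ι) =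
          (Prod.map σ id) ∘ (Prod.map Prod.snd id) := rfl
        rw [this, Finsupp.mapDomain_comp, hx2, Finsupp.mapDomain_zero]) c ⟨hc, hcp⟩ hc0
  -- `d` is constant along the fibres
  have hdσ : ∀ (w : Ω) (u : G ⧸ E') (i : ι), d ((w, σ u), i) = d ((w, u), i) := by
    intro w u i
    have h1 : (d.mapDomain f) (f ((w, u), i)) = d ((w, u), i) := Finsupp.mapDomain_apply hfinj _ _
    have h2 : d.mapDomain f = d := hdS
    rw [h2] at h1
    exact h1
  have hdσk : ∀ (k : ℕ) (w : Ω) (u : G ⧸ E') (i : ι), d ((w, σ^[k] u), i) = d ((w, u), i) := by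
    intro k
    induction k with
    | zero => intro w u i; rfl
    | succ k ih =>
      intro w u i
      rw [Function.iterate_succ_apply, ih, hdσ]
  have hconst : ∀ (w : Ω) (u u' : G ⧸ E') (i : ι), q u = q u' → d ((w, u), i) = d ((w, u'), i) := by
    intro w u u' i h
    obtain ⟨k, rfl⟩ := hfib u u' h
    exact (hdσk k w u i).symm
  -- a section
  let s : G ⧸ E → G ⧸ E' := fun u => (Quotient.out u : G)
  have hqs : ∀ u, q (s u) = u := by
    intro u
    show ((Quotient.out u : G) : G ⧸ E) = u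
    exact QuotientGroup.out_eq' u
  let t : (Ω × G ⧸ E) × ι → (Ω × G ⧸ E') × ι := Prod.map (Prod.map id s) id
  have htinj : Function.Injective t := by
    rintro ⟨⟨w, u⟩, i⟩ ⟨⟨w', u'⟩, i'⟩ h
    simp only [t, Prod.map_apply, id_eq, Prod.mk.injEq] at h
    obtain ⟨⟨rfl, h⟩, rfl⟩ := h
    have : u = u' := by rw [← hqs u, h, hqs]
    rw [this]
  let d' : ((Ω × G ⧸ E) × ι) →₀ ZMod p := Finsupp.comapDomain t d htinj.injOn
  have hd' : ∀ w u i, d' ((w, u), i) = d ((w, s u), i) := fun w u i => rfl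
  have hz : d' = 0 := by
    apply hE
    · ext ⟨w, u⟩
      rw [bd_apply]
      have h1 : ∀ i, d' ((b i)⁻¹ • (w, u), i) = d ((b i)⁻¹ • (w, s u), i) := by
        intro i
        show d' (((b i)⁻¹ • w, (b i)⁻¹ • u), i) = d (((b i)⁻¹ • w, (b i)⁻¹ • s u), i)
        rw [hd']
        apply hconst
        rw [hqs, hqeq, hqs]
      have h2 := bd_apply b d (w, s u)
      rw [hd] at h2
      rw [finsum_congr h1]
      exact h2.symm
    · ext ⟨u, i⟩
      have h1 := mapDomain_eq_finsum (Prod.map Prod.snd id : (Ω × G ⧸ E) × ι → (G ⧸ E) × ι) d'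
        (u, i) (fun w : Ω => ((w, u), i)) (by
          intro w w' h
          simp only [Prod.mk.injEq] at h
          exact h.1.1) (by
          rintro ⟨⟨w, u'⟩, i'⟩
          simp only [Prod.map_apply, id_eq, Prod.mk.injEq]
          constructor
          · rintro ⟨rfl, rfl⟩
            exact ⟨w, ⟨rfl, rfl⟩, rfl⟩
          · rintro ⟨w', ⟨_, rfl⟩, rfl⟩
            exact ⟨rfl, rfl⟩)
      have h2 := mapDomain_eq_finsum (Prod.map Prod.snd id : (Ω × G ⧸ E') × ι → (G ⧸ E') × ι) d
        (s u, i) (fun w : Ω => ((w, s u), i)) (by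
          intro w w' h
          simp only [Prod.mk.injEq] at h
          exact h.1.1) (by
          rintro ⟨⟨w, u'⟩, i'⟩
          simp only [Prod.map_apply, id_eq, Prod.mk.injEq]
          constructor
          · rintro ⟨rfl, rfl⟩
            exact ⟨w, ⟨rfl, rfl⟩, rfl⟩
          · rintro ⟨w', ⟨_, rfl⟩, rfl⟩
            exact ⟨rfl, rfl⟩)
      rw [h1]
      rw [hdp] at h2
      exact h2.symm
  apply hd0
  ext ⟨⟨w, u⟩, i⟩
  have h1 : d ((w, u), i) = d ((w, s (q u)), i) := by
    apply hconst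
    rw [hqs]
  rw [h1, ← hd', hz]
  rfl

end Step

end Pool.Agent.H28
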