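import Mathlib
import Pool.Agent.H28.Step

set_option autoImplicit false

namespace Pool.Agent.H28

open MulAction

section Inter

variable {G ι Ω R : Type*} [Group G] [MulAction G Ω] [CommRing R]

theorem exists_separating (𝓔 : Set (Subgroup G)) (hne : 𝓔.Nonempty)
    (hchain : IsChain (· ≤ ·) 𝓔) (Z : Set G) (hZ : Z.Finite) (h : ∀ z ∈ Z, z ∉ sInf 𝓔) :
    ∃ E ∈ 𝓔, ∀ z ∈ Z, z ∉ E := by
  induction Z, hZ using Set.Finite.induction_on with
  | empty =>
    obtain ⟨E, hE⟩ := hne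
    exact ⟨E, hE, fun z hz => absurd hz (Set.notMem_empty z)⟩
  | @insert z Z hzZ hZ ih =>
    obtain ⟨E₁, hE₁, h₁⟩ := ih (fun y hy => h y (Set.mem_insert_of_mem _ hy))
    have hz := h z (Set.mem_insert _ _)
    rw [Subgroup.mem_sInf] at hz
    push Not at hz
    obtain ⟨E₂, hE₂, h₂⟩ := hz
    rcases hchain.total hE₁ hE₂ with h12 | h21
    · refine ⟨E₁, hE₁, fun y hy => ?_⟩
      rcases Set.mem_insert_iff.1 hy with rfl | hy
      · exact fun hcon => h₂ (h12 hcon)
      · exact h₁ y hy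
    · refine ⟨E₂, hE₂, fun y hy => ?_⟩
      rcases Set.mem_insert_iff.1 hy with rfl | hy
      · exact h₂
      · exact fun hcon => h₁ y hy (h21 hcon)

theorem inj_sInf (b : FreeGroupBasis ι G) (𝓔 : Set (Subgroup G)) (hne : 𝓔.Nonempty)
    (hchain : IsChain (· ≤ ·) 𝓔) (h : ∀ E ∈ 𝓔, Inj R b Ω E) : Inj R b Ω (sInf 𝓔) := by
  classical
  intro c hc hcp
  let U : Finset (G ⧸ sInf 𝓔) := c.support.image (fun x => x.1.2)
  let Z : Finset G := ((U ×ˢ U).filter (fun x => x.1 ≠ x.2)).image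
    (fun x => (Quotient.out x.1)⁻¹ * Quotient.out x.2)
  obtain ⟨E, hE, hsep⟩ := exists_separating 𝓔 hne hchain (Z : Set G) Z.finite_toSet (by
    intro z hz hcon
    simp only [Z, Finset.coe_image, Set.mem_image, Finset.mem_coe, Finset.mem_filter,
      Finset.mem_product] at hz
    obtain ⟨⟨u, u'⟩, ⟨_, hne'⟩, rfl⟩ := hz
    apply hne'
    simp only at hcon ⊢
    rw [← QuotientGroup.eq, QuotientGroup.out_eq', QuotientGroup.out_eq'] at hcon
    exact hcon)
  have hle : sInf 𝓔 ≤ E := sInf_le hE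
  let q : G ⧸ sInf 𝓔 → G ⧸ E := Subgroup.quotientMapOfLE hle
  have hqeq : ∀ (g : G) (u : G ⧸ sInf 𝓔), q (g • u) = g • q u := by
    intro g u
    induction u using QuotientGroup.induction_on with
    | H x => rfl
  have hqinj : ∀ u ∈ U, ∀ u' ∈ U, q u = q u' → u = u' := by
    intro u hu u' hu' huu
    by_contra hne'
    apply hsep ((Quotient.out u)⁻¹ * Quotient.out u')
    · simp only [Z, Finset.coe_image, Set.mem_image, Finset.mem_coe, Finset.mem_filter,
        Finset.mem_product]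
      exact ⟨(u, u'), ⟨⟨hu, hu'⟩, hne'⟩, rfl⟩
    · have h1 : q ((Quotient.out u : G) : G ⧸ sInf 𝓔) = q ((Quotient.out u' : G) : G ⧸ sInf 𝓔) := by
        rw [QuotientGroup.out_eq', QuotientGroup.out_eq']
        exact huu
      have h2 : ((Quotient.out u : G) : G ⧸ E) = ((Quotient.out u' : G) : G ⧸ E) := h1
      rwa [QuotientGroup.eq] at h2
  let f : (Ω × G ⧸ sInf 𝓔) × ι → (Ω × G ⧸ E) × ι := Prod.map (Prod.map id q) id
  have hz : c.mapDomain f = 0 := by
    apply h E hE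
    · show bd R b (c.mapDomain (Prod.map (Prod.map id q) id)) = 0
      rw [bd_mapDomain b (Prod.map id q) (fun g w => by
        obtain ⟨w, u⟩ := w
        show (g • w, q (g • u)) = (g • w, g • q u)
        rw [hqeq]), hc, Finsupp.mapDomain_zero]
    · rw [← Finsupp.mapDomain_comp]
      have : (Prod.map Prod.snd id ∘ f : (Ω × G ⧸ sInf 𝓔) × ι → (G ⧸ E) × ι) =
        (Prod.map q id) ∘ (Prod.map Prod.snd id) := rfl
      rw [this, Finsupp.mapDomain_comp, hcp, Finsupp.mapDomain_zero]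
  ext x
  by_cases hx : x ∈ c.support
  · have hinj : Set.InjOn f (c.support : Set _) := by
      rintro ⟨⟨w, u⟩, i⟩ hx ⟨⟨w', u'⟩, i'⟩ hx' hff
      simp only [f, Prod.map_apply, id_eq, Prod.mk.injEq] at hff
      obtain ⟨⟨rfl, hu⟩, rfl⟩ := hff
      have : u = u' := hqinj u (Finset.mem_image_of_mem (fun x => x.1.2) hx) u'
        (Finset.mem_image_of_mem (fun x => x.1.2) hx') hu
      rw [this]
    have := Finsupp.mapDomain_apply' (c.support : Set _) c (le_refl _) hinj hx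
    rw [hz] at this
    exact this.symm
  · rw [Finsupp.notMem_support_iff] at hx
    rw [hx]
    rfl

theorem exists_minimal (b : FreeGroupBasis ι G) (P : Subgroup G) (htop : Inj R b Ω ⊤) :
    ∃ E : Subgroup G, P ≤ E ∧ Inj R b Ω E ∧
      ∀ E' : Subgroup G, P ≤ E' → Inj R b Ω E' → E' ≤ E → E' = E := by
  let T : Set (Subgroup G)ᵒᵈ :=
    {E | P ≤ OrderDual.ofDual E ∧ Inj R b Ω (OrderDual.ofDual E)}
  have hT : ∀ c ⊆ T, IsChain (· ≤ ·) c → ∀ y ∈ c, ∃ ub ∈ T, ∀ z ∈ c, z ≤ ub := by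
    intro c hcT hch y hy
    let 𝓔 : Set (Subgroup G) := {E | OrderDual.toDual E ∈ c}
    refine ⟨OrderDual.toDual (sInf 𝓔), ⟨?_, ?_⟩, ?_⟩
    · apply le_sInf
      intro E hE
      exact (hcT hE).1
    · apply inj_sInf b 𝓔 ⟨OrderDual.ofDual y, hy⟩
      · intro E hE E' hE' hne
        have := hch (x := OrderDual.toDual E) hE (y := OrderDual.toDual E') hE'
          (fun h => hne (OrderDual.toDual.injective h))
        rcases this with h | h
        · exact Or.inr h
        · exact Or.inl h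
      · intro E hE
        exact (hcT hE).2
    · intro z hz
      show sInf 𝓔 ≤ OrderDual.ofDual z
      exact sInf_le hz
  obtain ⟨m, hm1, hm2⟩ := zorn_le_nonempty₀ T hT (OrderDual.toDual ⊤) ⟨le_top, htop⟩
  refine ⟨OrderDual.ofDual m, hm2.prop.1, hm2.prop.2, ?_⟩
  intro E' h1 h2 h3
  have h4 : OrderDual.toDual E' ≤ m := hm2.le_of_ge (y := OrderDual.toDual E') ⟨h1, h2⟩ h3
  exact le_antisymm h3 h4

end Inter

section Dense

variable {G ι Ω : Type*} [Group G] [MulAction G Ω] {p : ℕ}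

/-- in a minimal `E`, the subgroup `P` is dense: no nonzero homomorphism to the group of order `p`
kills it. -/
theorem dense_of_minimal (hp : p.Prime) (b : FreeGroupBasis ι G) (P E : Subgroup G) (hPE : P ≤ E)
    (hE : Inj (ZMod p) b Ω E)
    (hmin : ∀ E' : Subgroup G, P ≤ E' → Inj (ZMod p) b Ω E' → E' ≤ E → E' = E)
    (ψ : E →* Multiplicative (ZMod p)) (hψ : ∀ x (h : x ∈ P), ψ ⟨x, hPE h⟩ = 1) : ψ = 1 := by
  by_contra hne
  have hmem : ∀ x, x ∈ ψ.ker.map E.subtype ↔ ∃ h : x ∈ E, ψ ⟨x, h⟩ = 1 := by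
    intro x
    constructor
    · rintro ⟨y, hy, rfl⟩
      exact ⟨y.2, hy⟩
    · rintro ⟨h, hx⟩
      exact ⟨⟨x, h⟩, hx, rfl⟩
  have h1 := inj_step hp b E (ψ.ker.map E.subtype) hE ψ hne hmem
  have h2 := hmin _ (fun x hx => (hmem x).2 ⟨hPE hx, hψ x hx⟩) h1
    (fun x hx => ((hmem x).1 hx).1)
  apply hne
  ext x : 1
  have : (x : G) ∈ ψ.ker.map E.subtype := by rw [h2]; exact x.2
  obtain ⟨h, hx⟩ := (hmem x).1 this
  exact hx

end Dense

end Pool.Agent.H28
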