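import Mathlib
import Pool.Agent.H28.Minimal

set_option autoImplicit false

namespace Pool.Agent.H28

open MulAction

section Shapiro

variable {G ι W A : Type*} [Group G] [MulAction G W] [AddCommGroup A]

/-- a homomorphism on the stabilizer of `v` extends to a cocycle supported on the orbit of `v`. -/
theorem exists_coc_of_hom (v : W) (χ : stabilizer G v →* Multiplicative A) :
    ∃ δ : W → G → A, IsCoc δ ∧ (∀ q : stabilizer G v, δ v q = (χ q).toAdd) ∧
      (∀ u, u ∉ orbit G v → ∀ g, δ u g = 0) := by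
  classical
  let χ' : G → A := fun g => if h : g ∈ stabilizer G v then (χ ⟨g, h⟩).toAdd else 0
  have hχ' : ∀ x (h : x ∈ stabilizer G v), χ' x = (χ ⟨x, h⟩).toAdd := by
    intro x h
    simp only [χ', dif_pos h]
  have hmul : ∀ x y, x ∈ stabilizer G v → y ∈ stabilizer G v → χ' (x * y) = χ' x + χ' y := by
    intro x y hx hy
    rw [hχ' x hx, hχ' y hy, hχ' (x * y) ((stabilizer G v).mul_mem hx hy), ← toAdd_mul,
      ← map_mul]
    rfl
  have hτex : ∀ w : W, ∃ t : G, w ∈ orbit G v → t • v = w := by
    intro w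
    by_cases h : w ∈ orbit G v
    · obtain ⟨t, ht⟩ := h
      exact ⟨t, fun _ => ht⟩
    · exact ⟨1, fun h' => absurd h' h⟩
  choose τ hτ using hτex
  have horb : ∀ (g : G) (w : W), w ∈ orbit G v → g • w ∈ orbit G v := by
    rintro g w ⟨t, rfl⟩
    exact ⟨g * t, by simp [mul_smul]⟩
  have horb' : ∀ (g : G) (w : W), g • w ∈ orbit G v → w ∈ orbit G v := by
    intro g w h
    have := horb g⁻¹ _ h
    rwa [inv_smul_smul] at this
  have hq : ∀ (g : G) (w : W), w ∈ orbit G v → (τ (g • w))⁻¹ * g * τ w ∈ stabilizer G v := by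
    intro g w h
    rw [mem_stabilizer_iff, mul_smul, mul_smul, hτ w h, inv_smul_eq_iff, hτ _ (horb g w h)]
  refine ⟨fun w g => if w ∈ orbit G v then χ' ((τ (g • w))⁻¹ * g * τ w) else 0, ?_, ?_, ?_⟩
  · intro w s t
    by_cases hw : w ∈ orbit G v
    · have htw := horb t w hw
      simp only [if_pos hw, if_pos htw]
      have : (τ ((s * t) • w))⁻¹ * (s * t) * τ w =
        ((τ (s • t • w))⁻¹ * s * τ (t • w)) * ((τ (t • w))⁻¹ * t * τ w) := by
        rw [mul_smul]
        group
      rw [this, hmul _ _ (hq s _ htw) (hq t w hw), add_comm]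
    · have htw : t • w ∉ orbit G v := fun h => hw (horb' t w h)
      simp only [if_neg hw, if_neg htw, add_zero]
  · intro q
    have hv : v ∈ orbit G v := mem_orbit_self v
    simp only [if_pos hv]
    have hqv : (q : G) • v = v := q.2
    rw [hqv]
    have hτv : τ v ∈ stabilizer G v := hτ v hv
    rw [hmul _ _ ((stabilizer G v).mul_mem ((stabilizer G v).inv_mem hτv) q.2) hτv,
      hmul _ _ ((stabilizer G v).inv_mem hτv) q.2]
    have h0 : χ' (τ v)⁻¹ + χ' (τ v) = 0 := by
      rw [← hmul _ _ ((stabilizer G v).inv_mem hτv) hτv, inv_mul_cancel,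
        hχ' 1 (stabilizer G v).one_mem]
      have : (⟨1, (stabilizer G v).one_mem⟩ : stabilizer G v) = 1 := rfl
      rw [this, map_one]
      rfl
    rw [hχ' q.1 q.2]
    have : χ' (τ v)⁻¹ + Multiplicative.toAdd (χ ⟨q.1, q.2⟩) + χ' (τ v) =
      (χ' (τ v)⁻¹ + χ' (τ v)) + Multiplicative.toAdd (χ ⟨q.1, q.2⟩) := by abel
    rw [this, h0, zero_add]
  · intro u hu g
    simp only [if_neg hu]

end Shapiro

section LinInd

variable {G ι κ Ω R O : Type*} [Group G] [MulAction G Ω] [CommRing R]

theorem mem_stab_pair (E : Subgroup G) (w : Ω) (g : G) :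
    g ∈ stabilizer G (w, ((1 : G) : G ⧸ E)) ↔ g • w = w ∧ g ∈ E := by
  rw [mem_stabilizer_iff, Prod.smul_mk, Prod.mk.injEq]
  constructor
  · rintro ⟨h1, h2⟩
    refine ⟨h1, ?_⟩
    have h3 : ((g * 1 : G) : G ⧸ E) = ((1 : G) : G ⧸ E) := h2
    rw [QuotientGroup.eq, mul_one, mul_one] at h3
    exact inv_inv g ▸ E.inv_mem h3
  · rintro ⟨h1, h2⟩
    refine ⟨h1, ?_⟩
    show ((g * 1 : G) : G ⧸ E) = ((1 : G) : G ⧸ E)
    rw [QuotientGroup.eq, mul_one, mul_one]
    exact E.inv_mem h2

/-- the class of an element in the free module on a basis. -/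
noncomputable def cls (R : Type*) [CommRing R] {K : Type*} [Group K] (bK : FreeGroupBasis κ K) :
    K →* Multiplicative (κ →₀ R) :=
  bK.lift (fun k => Multiplicative.ofAdd (Finsupp.single k 1))

theorem hom_eq_cls {K A : Type*} [Group K] [AddCommGroup A] [Module R A]
    (bK : FreeGroupBasis κ K) (φ : K →* Multiplicative A) (x : K) :
    (φ x).toAdd = Finsupp.linearCombination R (fun k => (φ (bK k)).toAdd)
      ((cls R bK x).toAdd) := by
  have : φ = (AddMonoidHom.toMultiplicative
      (Finsupp.linearCombination R (fun k => (φ (bK k)).toAdd)).toAddMonoidHom).comp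
        (cls R bK) := by
    apply bK.ext_hom
    intro k
    simp only [MonoidHom.comp_apply, cls, FreeGroupBasis.lift_apply_apply,
      FreeGroupBasis.repr_apply_coe, FreeGroup.lift_apply_of]
    apply Multiplicative.toAdd.injective
    simp
  conv_lhs => rw [this]
  rfl

theorem linInd (b : FreeGroupBasis ι G) (E : Subgroup G) (hE : Inj R b Ω E)
    (bE : FreeGroupBasis κ E) (ω : O → Ω)
    (hω : ∀ j j' : O, ∀ e ∈ E, e • ω j = ω j' → j = j')
    (B : O → Type*) (bQ : ∀ j, FreeGroupBasis (B j) (stabilizer G (ω j, ((1 : G) : G ⧸ E)))) :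
    LinearIndependent R (fun y : Σ j, B j =>
      ((cls R bE ⟨(bQ y.1 y.2 : G), ((mem_stab_pair E (ω y.1) _).1 (bQ y.1 y.2).2).2⟩).toAdd :
        κ →₀ R)) := by
  classical
  rw [linearIndependent_iff]
  intro lam hlam
  let e0 : G ⧸ E := ((1 : G) : G ⧸ E)
  have hfix : ∀ e ∈ E, e • e0 = e0 := by
    intro e he
    show ((e * 1 : G) : G ⧸ E) = ((1 : G) : G ⧸ E)
    rw [QuotientGroup.eq, mul_one, mul_one]
    exact E.inv_mem he
  -- path chains of elements of `E` in the graph `G ⧸ E`
  let φE : E →* Multiplicative (((G ⧸ E) × ι) →₀ R) :=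
    { toFun := fun e => Multiplicative.ofAdd (pth R b e0 (e : G))
      map_one' := by simp [(isCoc_pth b).one]
      map_mul' := by
        intro s t
        rw [Subgroup.coe_mul, isCoc_pth b, hfix _ t.2, add_comm]
        rfl }
  have hφE : ∀ e (he : e ∈ E), pth R b e0 e = (φE ⟨e, he⟩).toAdd := fun e he => rfl
  let lift : (Σ j, B j) → ((Ω × G ⧸ E) × ι →₀ R) := fun y =>
    pth R b (ω y.1, e0) (bQ y.1 y.2 : G)
  have hyE : ∀ y : Σ j, B j, (bQ y.1 y.2 : G) ∈ E := fun y =>
    ((mem_stab_pair E (ω y.1) _).1 (bQ y.1 y.2).2).2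
  have hystab : ∀ y : Σ j, B j, (bQ y.1 y.2 : G) • (ω y.1, e0) = (ω y.1, e0) := fun y =>
    (bQ y.1 y.2).2
  let c := Finsupp.linearCombination R lift lam
  have hc1 : bd R b c = 0 := by
    have : (bd R b).comp (Finsupp.linearCombination R lift) = 0 := by
      ext y : 2
      simp only [LinearMap.comp_apply, Finsupp.lsingle_apply, Finsupp.linearCombination_single,
        lift, one_smul, LinearMap.zero_apply]
      rw [bd_pth, hystab, sub_self]
    exact LinearMap.congr_fun this lam
  have hc2 : c.mapDomain (Prod.map Prod.snd id) = 0 := by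
    have : (Finsupp.lmapDomain R R (Prod.map Prod.snd id)).comp
        (Finsupp.linearCombination R lift) =
        (Finsupp.linearCombination R (fun k => (φE (bE k)).toAdd)).comp
          (Finsupp.linearCombination R (fun y : Σ j, B j =>
            ((cls R bE ⟨(bQ y.1 y.2 : G), hyE y⟩).toAdd : κ →₀ R))) := by
      ext y : 2
      simp only [LinearMap.comp_apply, Finsupp.lsingle_apply, Finsupp.linearCombination_single,
        lift, one_smul, Finsupp.lmapDomain_apply]
      rw [pth_map b Prod.snd (fun g w => rfl), ← hom_eq_cls]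
      exact hφE _ (hyE y)
    have h2 := LinearMap.congr_fun this lam
    rw [LinearMap.comp_apply, LinearMap.comp_apply, hlam, map_zero] at h2
    exact h2
  have hc : c = 0 := hE c hc1 hc2
  ext ⟨j0, b0⟩
  let χ : stabilizer G (ω j0, e0) →* Multiplicative R :=
    (bQ j0).lift (fun k => if k = b0 then Multiplicative.ofAdd 1 else 1)
  obtain ⟨δ, hδ, hδ1, hδ2⟩ := exists_coc_of_hom (ω j0, e0) χ
  let φ := Finsupp.linearCombination R (fun x : (Ω × G ⧸ E) × ι => δ x.1 (b x.2))
  have hφ : ∀ v g, φ (pth R b v g) = δ v g := by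
    intro v g
    have h1 := lc_pth (R := R) b (fun v i => δ v (b i)) v g
    have h2 := coc_ext b (isCoc_coc b (fun v i => δ v (b i))) hδ
      (fun v i => coc_basis b _ v i) v g
    rw [h2] at h1
    exact h1
  have hφc : φ c = lam ⟨j0, b0⟩ := by
    have : φ.comp (Finsupp.linearCombination R lift) = Finsupp.lapply ⟨j0, b0⟩ := by
      ext ⟨j, k⟩ : 2
      simp only [LinearMap.comp_apply, Finsupp.lsingle_apply, Finsupp.linearCombination_single,
        lift, one_smul, Finsupp.lapply_apply]
      rw [hφ]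
      by_cases hj : j = j0
      · subst hj
        rw [hδ1 (bQ j k)]
        simp only [χ, FreeGroupBasis.lift_apply_apply, FreeGroupBasis.repr_apply_coe,
          FreeGroup.lift_apply_of]
        by_cases hk : k = b0
        · subst hk
          simp
        · rw [if_neg hk, Finsupp.single_eq_of_ne]
          · rfl
          · intro h
            apply hk
            rw [Sigma.mk.injEq] at h
            exact (eq_of_heq h.2).symm
      · rw [hδ2, Finsupp.single_eq_of_ne]
        · intro h
          apply hj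
          rw [Sigma.mk.injEq] at h
          exact h.1.symm
        · rintro ⟨g, hg⟩
          apply hj
          have hg' : g • (ω j0, e0) = (ω j, e0) := hg
          rw [Prod.smul_mk, Prod.mk.injEq] at hg'
          have hgE : g ∈ E := by
            have h3 : ((g * 1 : G) : G ⧸ E) = ((1 : G) : G ⧸ E) := hg'.2
            rw [QuotientGroup.eq, mul_one, mul_one] at h3
            exact inv_inv g ▸ E.inv_mem h3
          exact (hω j0 j g hgE hg'.1).symm
    exact LinearMap.congr_fun this lam
  rw [hc, map_zero] at hφc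
  rw [← hφc]
  rfl

end LinInd

end Pool.Agent.H28
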