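import Mathlib
import Pool.Agent.H28.Dep
import Pool.Agent.H28.Hopf
import Pool.Agent.H28.Shapiro

set_option autoImplicit false

namespace Pool.Agent.H28

open MulAction

universe u

/-- the restricted dual form of the conjecture for the group `E`. -/
def RestrB (p n : ℕ) (E : Type*) [Group E] : Prop :=
  ∀ S : Subgroup E, ExtP p S → UniqP p S → ∀ (a : S) (g : Fin n → S),
    (∀ ψ : E →* Multiplicative (ZMod p), (∀ i, ψ (g i : E) = 1) → ψ = 1) →
    Dependent (a : E) (fun i => (g i : E)) → Dependent a g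

theorem RestrB.of_equiv {p n : ℕ} {E E' : Type*} [Group E] [Group E'] (θ : E ≃* E')
    (h : RestrB p n E') : RestrB p n E := by
  intro S hext huniq a g hgen hdep
  let S' : Subgroup E' := S.map θ.toMonoidHom
  let η : S ≃* S' := θ.subgroupMap S
  have hη : ∀ s : S, ((η s : S') : E') = θ (s : E) := fun s => rfl
  have hηs : ∀ s : S', ((η.symm s : S) : E) = θ.symm (s : E') := by
    intro s
    apply θ.injective
    rw [← hη, MulEquiv.apply_symm_apply, MulEquiv.apply_symm_apply]
  have h1 : ExtP p S' := by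
    intro ψ
    obtain ⟨Ψ, hΨ⟩ := hext (ψ.comp η.toMonoidHom)
    refine ⟨Ψ.comp θ.symm.toMonoidHom, fun s => ?_⟩
    have := hΨ (η.symm s)
    rw [hηs] at this
    simpa using this
  have h2 : UniqP p S' := by
    intro Ψ hΨ
    have := huniq (Ψ.comp θ.toMonoidHom) (fun s => hΨ (η s))
    ext x : 1
    have h3 := DFunLike.congr_fun this (θ.symm x)
    simpa using h3
  have h3 := h S' h1 h2 (η a) (fun i => η (g i)) (by
    intro ψ hψ
    have := hgen (ψ.comp θ.toMonoidHom) (fun i => hψ i)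
    ext x : 1
    have h3 := DFunLike.congr_fun this (θ.symm x)
    simpa using h3) (hdep.map θ.toMonoidHom)
  have h4 := h3.map η.symm.toMonoidHom
  simpa using h4

/-- the heart of the reduction. -/
theorem core {G : Type u} [Group G] [IsFreeGroup G] {p n : ℕ} (hp : p.Prime)
    (HB : ∀ k ≤ n, RestrB p n (FreeGroup (Fin k)))
    (S : Subgroup G) (hS : ExtP p S) (a : S) (g : Fin n → S)
    (hdep : Dependent (a : G) (fun i => (g i : G))) : Dependent a g := by
  classical
  have : Fact p.Prime := ⟨hp⟩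
  obtain ⟨c, hc⟩ := hdep
  let b : FreeGroupBasis (IsFreeGroup.Generators G) G := IsFreeGroup.basis G
  let Ω := G ⧸ S
  let o : Ω := ((1 : G) : G ⧸ S)
  have hstab : stabilizer G o = S := MulAction.stabilizer_quotient S
  have htop : Inj (ZMod p) b Ω (⊤ : Subgroup G) := by
    apply inj_top b o
    intro ψ
    obtain ⟨Ψ, hΨ⟩ := hS (ψ.comp (Subgroup.inclusion (le_of_eq hstab.symm)))
    refine ⟨Ψ, fun s => ?_⟩
    have hs : (s : G) ∈ S := (le_of_eq hstab) s.2
    exact hΨ ⟨s, hs⟩
  let X : Fin n → G := fun i => c i * (g i : G) * (c i)⁻¹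
  let P : Subgroup G := Subgroup.closure (Set.range X)
  have hXP : ∀ i, X i ∈ P := fun i => Subgroup.subset_closure ⟨i, rfl⟩
  have haP : (a : G) ∈ P := by
    rw [hc]
    apply Subgroup.list_prod_mem
    intro x hx
    rw [List.mem_ofFn] at hx
    obtain ⟨i, rfl⟩ := hx
    exact hXP i
  obtain ⟨E, hPE, hE, hmin⟩ := exists_minimal b P htop
  have hXE : ∀ i, X i ∈ E := fun i => hPE (hXP i)
  have haE : (a : G) ∈ E := hPE haP
  have hdense : ∀ ψ : E →* Multiplicative (ZMod p), (∀ i, ψ ⟨X i, hXE i⟩ = 1) → ψ = 1 := by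
    intro ψ hψ
    apply dense_of_minimal hp b P E hPE hE hmin
    intro x hx
    have hle : P ≤ (ψ.ker.map E.subtype) := by
      rw [Subgroup.closure_le]
      rintro _ ⟨i, rfl⟩
      exact ⟨⟨X i, hXE i⟩, hψ i, rfl⟩
    obtain ⟨y, hy, hyx⟩ := hle hx
    have : (⟨x, hPE hx⟩ : E) = y := Subtype.ext hyx.symm
    rw [this]
    exact hy
  -- `E` is free of rank at most `n`
  let κ := IsFreeGroup.Generators E
  let bE : FreeGroupBasis κ E := IsFreeGroup.basis E
  have hinjκ : Function.Injective (fun (f : κ → Multiplicative (ZMod p)) (i : Fin n) =>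
      bE.lift f ⟨X i, hXE i⟩) := by
    intro f f' hff
    have h1 : (bE.lift f) * (bE.lift f')⁻¹ = 1 := by
      apply hdense
      intro i
      have := congrFun hff i
      simp only at this
      rw [MonoidHom.mul_apply, this, MonoidHom.inv_apply, mul_inv_cancel]
    have h2 : bE.lift f = bE.lift f' := by
      rwa [mul_inv_eq_one] at h1
    exact bE.lift.injective h2
  have hMfin : Finite (Multiplicative (ZMod p)) := by
    have : NeZero p := ⟨hp.ne_zero⟩
    exact inferInstanceAs (Finite (ZMod p))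
  have hMcard : Nat.card (Multiplicative (ZMod p)) = p := by
    rw [Nat.card_congr Multiplicative.toAdd, Nat.card_zmod]
  have hMnt : Nontrivial (Multiplicative (ZMod p)) :=
    inferInstanceAs (Nontrivial (ZMod p))
  have hκfin : Finite κ := by
    have h1 : Finite (κ → Multiplicative (ZMod p)) := Finite.of_injective _ hinjκ
    by_contra hinf
    rw [not_finite_iff_infinite] at hinf
    exact not_finite (κ → Multiplicative (ZMod p))
  have hκcard : Nat.card κ ≤ n := by
    have h1 := Nat.card_le_card_of_injective _ hinjκ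
    rw [Nat.card_fun, Nat.card_fun, hMcard, Nat.card_fin] at h1
    exact (Nat.pow_le_pow_iff_right hp.one_lt).1 h1
  -- orbit representatives
  let O := MulAction.orbitRel.Quotient E Ω
  let ω : O → Ω := Quotient.out
  have hω : ∀ j j' : O, ∀ e ∈ E, e • ω j = ω j' → j = j' := by
    intro j j' e he h
    rw [← Quotient.out_eq j, ← Quotient.out_eq j']
    apply Quotient.sound
    show ω j ∈ orbit E (ω j')
    refine ⟨(⟨e, he⟩ : E)⁻¹, ?_⟩
    show (⟨e, he⟩ : E)⁻¹ • ω j' = ω j
    rw [inv_smul_eq_iff]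
    exact h.symm
  have hrep : ∀ w : Ω, ∃ e : E, (e : G) • w = ω (Quotient.mk _ w) := by
    intro w
    have h1 : (Quotient.mk (orbitRel E Ω) (ω (Quotient.mk _ w))) = Quotient.mk _ w :=
      Quotient.out_eq _
    have h2 : ω (Quotient.mk _ w) ∈ orbit E w := Quotient.exact h1
    obtain ⟨e, he⟩ := h2
    exact ⟨e, he⟩
  let Q : O → Subgroup G := fun j => stabilizer G (ω j, ((1 : G) : G ⧸ E))
  have hQ : ∀ j x, x ∈ Q j ↔ x • ω j = ω j ∧ x ∈ E := fun j x => mem_stab_pair E (ω j) x
  let B : O → Type u := fun j => IsFreeGroup.Generators (Q j)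
  let bQ : ∀ j, FreeGroupBasis (B j) (Q j) := fun j => IsFreeGroup.basis (Q j)
  have hli := linInd b E hE bE ω hω B bQ
  let Y := Σ j, B j
  have hYfin : Finite Y := by
    exact hli.finite
  have hYcard : Nat.card Y ≤ Nat.card κ := by
    have : Fintype Y := Fintype.ofFinite Y
    have : Fintype κ := Fintype.ofFinite κ
    have h1 := hli.fintype_card_le_finrank
    rw [Module.finrank_finsupp_self] at h1
    rw [Nat.card_eq_fintype_card, Nat.card_eq_fintype_card]
    exact h1
  let yE : Y → E := fun y => ⟨(bQ y.1 y.2 : G), ((hQ _ _).1 (bQ y.1 y.2).2).2⟩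
  let f : FreeGroup Y →* E := FreeGroup.lift yE
  let SE : Subgroup E := f.range
  have hQSE : ∀ j (x : Q j), ∃ w : FreeGroup (B j),
      x = (bQ j).repr.symm w ∧ f (FreeGroup.map (Sigma.mk j) w) =
        ⟨(x : G), ((hQ j x).1 x.2).2⟩ := by
    intro j x
    refine ⟨(bQ j).repr x, by simp, ?_⟩
    let h1 : Q j →* E := Subgroup.inclusion (fun x hx => ((hQ j x).1 hx).2)
    let h2 : Q j →* E := (f.comp (FreeGroup.map (Sigma.mk j))).comp (bQ j).repr.toMonoidHom
    have h12 : h1 = h2 := by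
      apply (bQ j).ext_hom
      intro i
      simp only [h2, MonoidHom.comp_apply, MulEquiv.coe_toMonoidHom,
        FreeGroupBasis.repr_apply_coe, FreeGroup.map.of, f, FreeGroup.lift_apply_of]
      rfl
    exact (DFunLike.congr_fun h12 x).symm
  -- the conjugated elements
  choose e he using hrep
  let wt : Fin n → Ω := fun i => ((c i : G) : G ⧸ S)
  let X' : Fin n → E := fun i => e (wt i) * ⟨X i, hXE i⟩ * (e (wt i))⁻¹
  let a' : E := e o * ⟨(a : G), haE⟩ * (e o)⁻¹
  have hSfix : ∀ (x y : G) , y ∈ S → (x * y * x⁻¹) • ((x : G) : G ⧸ S) = ((x : G) : G ⧸ S) := by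
    intro x y hy
    show ((x * y * x⁻¹ * x : G) : G ⧸ S) = ((x : G) : G ⧸ S)
    rw [QuotientGroup.eq]
    have : (x * y * x⁻¹ * x)⁻¹ * x = y⁻¹ := by group
    rw [this]
    exact S.inv_mem hy
  have hX'Q : ∀ i, ((X' i : E) : G) ∈ Q (Quotient.mk _ (wt i)) := by
    intro i
    rw [hQ]
    refine ⟨?_, (X' i).2⟩
    rw [← he (wt i)]
    show ((e (wt i) : G) * X i * (e (wt i) : G)⁻¹) • (e (wt i) : G) • wt i = _
    rw [← mul_smul, inv_mul_cancel_right, mul_smul]
    congr 1
    exact hSfix (c i) (g i) (g i).2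
  have ha'Q : ((a' : E) : G) ∈ Q (Quotient.mk _ o) := by
    rw [hQ]
    refine ⟨?_, a'.2⟩
    rw [← he o]
    show ((e o : G) * (a : G) * (e o : G)⁻¹) • (e o : G) • o = _
    rw [← mul_smul, inv_mul_cancel_right, mul_smul]
    congr 1
    have h1 : (a : G) ∈ stabilizer G o := hstab.symm ▸ a.2
    exact h1
  have hQleSE : ∀ j (x : E), (x : G) ∈ Q j → x ∈ SE := by
    intro j x hx
    obtain ⟨w, _, hw⟩ := hQSE j ⟨(x : G), hx⟩
    exact ⟨_, hw⟩
  have hX'SE : ∀ i, X' i ∈ SE := fun i => hQleSE _ _ (hX'Q i)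
  have ha'SE : a' ∈ SE := hQleSE _ _ ha'Q
  have hψX' : ∀ (ψ : E →* Multiplicative (ZMod p)) i, ψ (X' i) = ψ ⟨X i, hXE i⟩ := by
    intro ψ i
    simp only [X', map_mul, map_inv]
    rw [mul_comm, inv_mul_cancel_left]
  have hgen : ∀ ψ : E →* Multiplicative (ZMod p), (∀ i, ψ (X' i) = 1) → ψ = 1 := by
    intro ψ hψ
    apply hdense
    intro i
    rw [← hψX', hψ]
  have huniq : UniqP p SE := by
    intro Ψ hΨ
    apply hgen
    intro i
    exact hΨ ⟨X' i, hX'SE i⟩
  -- `SE` is free on `Y`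
  let κ' := IsFreeGroup.Generators SE
  let bS : FreeGroupBasis κ' SE := IsFreeGroup.basis SE
  have hrestr_inj : Function.Injective (fun (Ψ : E →* Multiplicative (ZMod p)) =>
      Ψ.comp SE.subtype) := by
    intro Ψ Ψ' h
    have h1 : Ψ * Ψ'⁻¹ = 1 := by
      apply huniq
      intro s
      have := DFunLike.congr_fun h s
      simp only [MonoidHom.comp_apply] at this
      have h2 : Ψ (s : E) = Ψ' (s : E) := this
      rw [MonoidHom.mul_apply, h2, MonoidHom.inv_apply, mul_inv_cancel]
    rwa [mul_inv_eq_one] at h1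
  have hemb : Nonempty (Y ↪ κ') := by
    rcases finite_or_infinite κ' with hfin | hinf
    · have h1 := Nat.card_le_card_of_injective
        (fun (u : κ → Multiplicative (ZMod p)) => bS.lift.symm ((bE.lift u).comp SE.subtype))
        (by
          intro u u' huu
          apply bE.lift.injective
          apply hrestr_inj
          exact bS.lift.symm.injective huu)
      rw [Nat.card_fun, Nat.card_fun, hMcard] at h1
      have h2 := (Nat.pow_le_pow_iff_right hp.one_lt).1 h1
      have h3 : Nat.card Y ≤ Nat.card κ' := hYcard.trans h2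
      have : Fintype Y := Fintype.ofFinite Y
      have : Fintype κ' := Fintype.ofFinite κ'
      rw [Nat.card_eq_fintype_card, Nat.card_eq_fintype_card] at h3
      exact Function.Embedding.nonempty_of_card_le h3
    · have : Fintype Y := Fintype.ofFinite Y
      obtain ⟨s, hs⟩ := Infinite.exists_subset_card_eq κ' (Fintype.card Y)
      have h3 : Fintype.card Y = Fintype.card s := by rw [Fintype.card_coe, hs]
      exact ⟨(Fintype.equivOfCardEq h3).toEmbedding.trans (Function.Embedding.subtype _)⟩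
  have hfinj : Function.Injective f := by
    obtain ⟨m⟩ := hemb
    rcases isEmpty_or_nonempty Y with hY | hY
    · intro x y _
      exact Subsingleton.elim x y
    let ρ : SE →* FreeGroup Y := bS.lift (fun k =>
      if h : ∃ y, m y = k then FreeGroup.of h.choose else 1)
    have hρ : Function.Surjective ρ := by
      rw [← MonoidHom.range_eq_top, eq_top_iff, ← FreeGroup.closure_range_of,
        Subgroup.closure_le]
      rintro _ ⟨y, rfl⟩
      refine ⟨bS (m y), ?_⟩
      simp only [ρ, FreeGroupBasis.lift_apply_apply, FreeGroupBasis.repr_apply_coe,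
        FreeGroup.lift_apply_of]
      have h : ∃ y', m y' = m y := ⟨y, rfl⟩
      rw [dif_pos h]
      congr 1
      exact m.injective h.choose_spec
    have h1 : Function.Surjective (ρ.comp f.rangeRestrict) := by
      rw [MonoidHom.coe_comp]
      exact hρ.comp f.rangeRestrict_surjective
    have h2 := hopf _ h1
    intro x y hxy
    apply h2
    rw [MonoidHom.comp_apply, MonoidHom.comp_apply]
    congr 1
    exact Subtype.ext hxy
  let fe : FreeGroup Y ≃* SE := MonoidHom.ofInjective hfinj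
  have hfe : ∀ w, ((fe w : SE) : E) = f w := fun w => rfl
  have hext : ExtP p SE := by
    have hcard : Nat.card (SE →* Multiplicative (ZMod p)) ≤
        Nat.card (E →* Multiplicative (ZMod p)) := by
      rw [Nat.card_congr bE.lift.symm]
      have h1 : Nat.card (SE →* Multiplicative (ZMod p)) =
          Nat.card (Y → Multiplicative (ZMod p)) := by
        apply Nat.card_congr
        exact (FreeGroupBasis.ofRepr fe.symm).lift.symm
      rw [h1, Nat.card_fun, Nat.card_fun, hMcard]
      exact Nat.pow_le_pow_right hp.pos hYcard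
    have hfin : Finite (SE →* Multiplicative (ZMod p)) :=
      Finite.of_equiv _ (FreeGroupBasis.ofRepr fe.symm).lift
    have h2 := hrestr_inj.bijective_of_nat_card_le hcard
    intro ψ
    obtain ⟨Ψ, hΨ⟩ := h2.2 ψ
    exact ⟨Ψ, fun s => DFunLike.congr_fun hΨ s⟩
  -- the map back to `S`
  let fo : O → G := fun j => Quotient.out (ω j)
  have hfo : ∀ j, ((fo j : G) : G ⧸ S) = ω j := fun j => QuotientGroup.out_eq' (ω j)
  have hconjS : ∀ j x, x ∈ Q j → (fo j)⁻¹ * x * fo j ∈ S := by
    intro j x hx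
    have h1 := ((hQ j x).1 hx).1
    rw [← hfo j] at h1
    have h2 : ((x * fo j : G) : G ⧸ S) = ((fo j : G) : G ⧸ S) := h1
    rw [QuotientGroup.eq] at h2
    have h3 : (fo j)⁻¹ * x * fo j = ((x * fo j)⁻¹ * fo j)⁻¹ := by group
    rw [h3]
    exact S.inv_mem h2
  let ΦY : FreeGroup Y →* S := FreeGroup.lift (fun y =>
    ⟨(fo y.1)⁻¹ * (bQ y.1 y.2 : G) * fo y.1, hconjS y.1 _ (bQ y.1 y.2).2⟩)
  let Φ : SE →* S := ΦY.comp fe.symm.toMonoidHom
  have hΦ : ∀ j (x : SE), ((x : E) : G) ∈ Q j →
      ((Φ x : S) : G) = (fo j)⁻¹ * ((x : E) : G) * fo j := by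
    intro j x hx
    obtain ⟨w, hw1, hw2⟩ := hQSE j ⟨((x : E) : G), hx⟩
    have h1 : fe.symm x = FreeGroup.map (Sigma.mk j) w := by
      rw [MulEquiv.symm_apply_eq]
      apply Subtype.ext
      rw [hfe, hw2]
    have h2 : Φ x = ΦY (FreeGroup.map (Sigma.mk j) w) := by
      show ΦY (fe.symm x) = _
      rw [h1]
    rw [h2]
    -- compare two homomorphisms on the basis of `Q j`
    let h3 : FreeGroup (B j) →* G := S.subtype.comp (ΦY.comp (FreeGroup.map (Sigma.mk j)))
    let h4 : FreeGroup (B j) →* G := (MulAut.conj (fo j)⁻¹).toMonoidHom.comp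
      ((Q j).subtype.comp (bQ j).repr.symm.toMonoidHom)
    have h34 : h3 = h4 := by
      apply FreeGroup.ext_hom
      intro i
      simp only [h3, h4, MonoidHom.comp_apply, FreeGroup.map.of, ΦY, FreeGroup.lift_apply_of,
        Subgroup.subtype_apply, MulEquiv.coe_toMonoidHom, MulAut.conj_apply]
      rw [inv_inv]
      rfl
    have h5 := DFunLike.congr_fun h34 w
    have h6 : h4 w = (fo j)⁻¹ * ((x : E) : G) * fo j := by
      have h7 : (((bQ j).repr.symm w : Q j) : G) = ((x : E) : G) := by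
        rw [← hw1]
      show (MulAut.conj (fo j)⁻¹) (((bQ j).repr.symm w : Q j) : G) = _
      rw [h7, MulAut.conj_apply, inv_inv]
    rw [← h6, ← h5]
    rfl
  -- apply the restricted statement to `SE ≤ E`
  have hRE : RestrB p n E := by
    have : Fintype κ := Fintype.ofFinite κ
    have hk : Nat.card κ = Fintype.card κ := Nat.card_eq_fintype_card
    have eκ : κ ≃ Fin (Nat.card κ) := Finite.equivFin κ
    exact (HB (Nat.card κ) hκcard).of_equiv (bE.repr.trans (FreeGroup.freeGroupCongr eκ))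
  have hdepE : Dependent (a' : E) (fun i => X' i) := by
    refine ⟨fun i => e o * (e (wt i))⁻¹, ?_⟩
    have h1 : (⟨(a : G), haE⟩ : E) = (List.ofFn (fun i => (⟨X i, hXE i⟩ : E))).prod := by
      apply Subtype.ext
      show (a : G) = E.subtype _
      rw [map_list_prod, List.map_ofFn, hc]
      rfl
    show e o * ⟨(a : G), haE⟩ * (e o)⁻¹ = _
    rw [h1, conj_prod]
    congr 2
    funext i
    simp only [X']
    group
  have hdepSE := hRE SE hext huniq ⟨a', ha'SE⟩ (fun i => ⟨X' i, hX'SE i⟩) hgen hdepE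
  have hdepS := hdepSE.map Φ
  -- identify the images
  have himg : ∀ (x : G) (s : S) (hx : x * (s : G) * x⁻¹ ∈ E)
      (hmem : (e ((x : G) : G ⧸ S) * ⟨x * (s : G) * x⁻¹, hx⟩ * (e ((x : G) : G ⧸ S))⁻¹) ∈ SE)
      (hQx : ((e ((x : G) : G ⧸ S) * ⟨x * (s : G) * x⁻¹, hx⟩ *
        (e ((x : G) : G ⧸ S))⁻¹ : E) : G) ∈ Q (Quotient.mk _ ((x : G) : G ⧸ S))),
      ∃ t : S, s = t * Φ ⟨_, hmem⟩ * t⁻¹ := by
    intro x s hx hmem hQx
    let j : O := Quotient.mk _ ((x : G) : G ⧸ S)
    have h1 := hΦ j ⟨_, hmem⟩ hQx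
    have h2 : (e ((x : G) : G ⧸ S) : G) • ((x : G) : G ⧸ S) = ω j := he _
    rw [← hfo j] at h2
    have h3 : (((e ((x : G) : G ⧸ S) : G) * x : G) : G ⧸ S) = ((fo j : G) : G ⧸ S) := h2
    rw [QuotientGroup.eq] at h3
    refine ⟨⟨_, h3⟩, ?_⟩
    apply Subtype.ext
    rw [Subgroup.coe_mul, Subgroup.coe_mul, Subgroup.coe_inv, h1]
    simp only [Subgroup.coe_mul, Subgroup.coe_inv]
    group
  have h1 : ∀ i, ∃ t : S, g i = t * Φ ⟨X' i, hX'SE i⟩ * t⁻¹ := fun i =>
    himg (c i) (g i) (hXE i) (hX'SE i) (hX'Q i)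
  choose t ht using h1
  have ha1 : (1 : G) * (a : G) * (1 : G)⁻¹ = (a : G) := by group
  have ha2 : (⟨(1 : G) * (a : G) * (1 : G)⁻¹, by rw [ha1]; exact haE⟩ : E) =
      ⟨(a : G), haE⟩ := Subtype.ext ha1
  obtain ⟨s, hs⟩ := himg 1 a (by rw [ha1]; exact haE) (by rw [ha2]; exact ha'SE)
    (by rw [ha2]; exact ha'Q)
  have hs' : a = s * Φ ⟨a', ha'SE⟩ * s⁻¹ := by
    rw [hs]
    congr 3
    apply Subtype.ext
    show e o * _ * (e o)⁻¹ = e o * _ * (e o)⁻¹
    rw [ha2]
  exact hdepS.conj s t hs' ht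

end Pool.Agent.H28
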