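import Mathlib

set_option autoImplicit false

/-!
Dependence of `1` on elements of a group, and homomorphisms reflecting it.
-/

namespace Pool.Agent.H28

universe u v

/-- `1 ∈ ∏ g_i^G`: the identity is a product, in this order, of `G`-conjugates of the `g i`. -/
def OneDependent {G : Type*} [Group G] {r : ℕ} (g : Fin r → G) : Prop :=
  ∃ c : Fin r → G, (List.ofFn fun i => c i * g i * (c i)⁻¹).prod = 1

/-- A homomorphism reflects dependence of `1`. -/
def Reflects {G : Type*} {H : Type*} [Group G] [Group H] (φ : G →* H) : Prop :=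
  ∀ (r : ℕ) (g : Fin r → G), OneDependent (fun i => φ (g i)) → OneDependent g

theorem reflects_id (G : Type*) [Group G] : Reflects (MonoidHom.id G) := fun _ _ h => h

theorem Reflects.comp {G H K : Type*} [Group G] [Group H] [Group K] {φ : G →* H} {ψ : H →* K}
    (hψ : Reflects ψ) (hφ : Reflects φ) : Reflects (ψ.comp φ) :=
  fun r g h => hφ r g (hψ r (fun i => φ (g i)) h)

theorem OneDependent.map {G H : Type*} [Group G] [Group H] (φ : G →* H) {r : ℕ} {g : Fin r → G}
    (h : OneDependent g) : OneDependent (fun i => φ (g i)) := by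
  obtain ⟨c, hc⟩ := h
  refine ⟨fun i => φ (c i), ?_⟩
  have := congrArg φ hc
  rw [map_list_prod, map_one, List.map_ofFn] at this
  rw [← this]
  congr 2
  funext i
  simp

theorem Reflects.of_comp {G H K : Type*} [Group G] [Group H] [Group K] {φ : G →* H}
    {ψ : H →* K} (h : Reflects (ψ.comp φ)) : Reflects φ :=
  fun r g hg => h r g (hg.map ψ)

/-! ### Monomial permutations -/

/-- Permutations of `ι × K` commuting with right multiplication by `K`. -/
def Mono (ι : Type*) (K : Type*) [Group K] : Subgroup (Equiv.Perm (ι × K)) where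
  carrier := {π | ∀ i x k, π (i, x * k) = ((π (i, x)).1, (π (i, x)).2 * k)}
  mul_mem' := by
    intro π ρ hπ hρ i x k
    simp only [Equiv.Perm.coe_mul, Function.comp_apply]
    rw [hρ, hπ]
  one_mem' := by intro i x k; rfl
  inv_mem' := by
    intro π hπ i x k
    have h := hπ ((π⁻¹ (i, x)).1) ((π⁻¹ (i, x)).2) k
    have e : π ((π⁻¹ (i, x)).1, (π⁻¹ (i, x)).2) = (i, x) := by
      show π (π⁻¹ (i, x)) = (i, x)
      simp
    rw [e] at h
    rw [Equiv.Perm.inv_eq_iff_eq]
    exact h.symm

/-- The diagonal embedding. -/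
def Mono.diag (ι : Type*) (K : Type*) [Group K] : K →* Mono ι K where
  toFun g := ⟨⟨fun p => (p.1, g * p.2), fun p => (p.1, g⁻¹ * p.2), by
      intro p; simp, by intro p; simp⟩, by
      intro i x k; simp [mul_assoc]⟩
  map_one' := by ext p <;> simp
  map_mul' := by intro g h; ext p <;> simp [mul_assoc]

@[simp] theorem Mono.diag_apply {ι K : Type*} [Group K] (g : K) (i : ι) (x : K) :
    ((Mono.diag ι K g : Mono ι K) : Equiv.Perm (ι × K)) (i, x) = (i, g * x) := rfl

theorem Mono.conj_apply {ι K : Type*} [Group K] (c : Mono ι K) (g : K) (i : ι) :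
    ∃ d : K, ∀ x : K, ((c * Mono.diag ι K g * c⁻¹ : Mono ι K) : Equiv.Perm (ι × K)) (i, x) =
      (i, d * g * d⁻¹ * x) := by
  obtain ⟨c, hc⟩ := c
  -- `c⁻¹ (i, x) = (i', d⁻¹ x)`
  set y := c⁻¹ (i, 1) with hy
  refine ⟨y.2⁻¹, fun x => ?_⟩
  have h1 : c⁻¹ (i, x) = (y.1, y.2 * x) := by
    have := (Mono ι K).inv_mem hc i 1 x
    rw [one_mul] at this
    exact this
  have h2 : c (y.1, g * (y.2 * x)) = (i, y.2⁻¹ * (g * (y.2 * x))) := by
    have h3 := hc y.1 y.2 (y.2⁻¹ * (g * (y.2 * x)))
    have h4 : c (y.1, y.2) = (i, 1) := by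
      show c y = (i, 1)
      rw [hy]; simp
    rw [h4] at h3
    simpa using h3
  show c ((Mono.diag ι K g : Mono ι K).1 (c⁻¹ (i, x))) = _
  rw [h1, Mono.diag_apply, h2]
  simp [mul_assoc]

theorem Mono.reflects_diag (ι K : Type*) [Group K] (i : ι) : Reflects (Mono.diag ι K) := by
  intro r g ⟨c, hc⟩
  choose d hd using fun j => Mono.conj_apply (c j) (g j) i
  refine ⟨d, ?_⟩
  have key : ∀ (n : ℕ) (c' : Fin n → Mono ι K) (g' : Fin n → K) (d' : Fin n → K)
      (_ : ∀ j x, ((c' j * Mono.diag ι K (g' j) * (c' j)⁻¹ : Mono ι K) :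
        Equiv.Perm (ι × K)) (i, x) = (i, d' j * g' j * (d' j)⁻¹ * x)) (x : K),
      (((List.ofFn fun j => c' j * Mono.diag ι K (g' j) * (c' j)⁻¹).prod : Mono ι K) :
        Equiv.Perm (ι × K)) (i, x) =
        (i, (List.ofFn fun j => d' j * g' j * (d' j)⁻¹).prod * x) := by
    intro n
    induction n with
    | zero => intro c' g' d' _ x; simp
    | succ n ih =>
      intro c' g' d' h x
      rw [List.ofFn_succ, List.ofFn_succ, List.prod_cons, List.prod_cons]
      have := ih (fun j => c' j.succ) (fun j => g' j.succ) (fun j => d' j.succ)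
        (fun j x => h j.succ x) x
      rw [Subgroup.coe_mul, Equiv.Perm.mul_apply, this, h 0]
      simp [mul_assoc]
  have h1 := key r c g d hd 1
  rw [hc] at h1
  have h2 := congrArg Prod.snd h1
  simp at h2
  exact h2.symm

/-! ### Levin's shift -/

theorem palindrome {K : Type*} [Group K] (f : ℤ → K) : ∀ (n : ℕ) (s : ℤ),
    ((List.range n).map fun j : ℕ => f (s + j) * (f (s + n - 1 - j))⁻¹).prod = 1 := by
  intro n
  induction n using Nat.twoStepInduction with
  | zero => intro s; simp
  | one => intro s; simp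
  | more n ih _ =>
    intro s
    rw [List.range_succ, List.range_succ_eq_map]
    simp only [List.map_append, List.map_cons, List.map_map, List.prod_append, List.prod_cons,
      List.map_nil, List.prod_nil, mul_one]
    have := ih (s + 1)
    have e : ((fun j : ℕ => f (s + j) * (f (s + ((n + 2 : ℕ) : ℤ) - 1 - j))⁻¹) ∘ Nat.succ) =
        fun j : ℕ => f (s + 1 + j) * (f (s + 1 + n - 1 - j))⁻¹ := by
      funext j
      simp only [Function.comp_apply, Nat.succ_eq_add_one]
      congr 2
      · push_cast; ring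
      · congr 1; push_cast; ring
    rw [e, this]
    have e1 : (s + ((n + 2 : ℕ) : ℤ) - 1 - ((0 : ℕ) : ℤ)) = s + ((n + 1 : ℕ) : ℤ) := by
      push_cast; ring
    have e2 : (s + ((n + 2 : ℕ) : ℤ) - 1 - ((n + 1 : ℕ) : ℤ)) = s + ((0 : ℕ) : ℤ) := by
      push_cast; ring
    rw [e1, e2]
    simp

/-- Levin's permutation `(i, x) ↦ (i + 1, a_i⁻¹ x)`. -/
def Mono.shift {K : Type*} [Group K] {m : ℕ} (a : ZMod m → K) : Mono (ZMod m) K :=
  ⟨⟨fun p => (p.1 + 1, (a p.1)⁻¹ * p.2), fun p => (p.1 - 1, a (p.1 - 1) * p.2), by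
      intro p; simp, by intro p; simp⟩, by
      intro i x k; simp [mul_assoc]⟩

@[simp] theorem Mono.shift_apply {K : Type*} [Group K] {m : ℕ} (a : ZMod m → K) (i : ZMod m)
    (x : K) : ((Mono.shift a : Mono (ZMod m) K) : Equiv.Perm (ZMod m × K)) (i, x) =
      (i + 1, (a i)⁻¹ * x) := rfl

theorem Mono.word_apply {K : Type*} [Group K] {m : ℕ} (a : ZMod m → K) (n : ℕ) : ∀ (i : ZMod m)
    (x : K), ((((List.range n).map fun j : ℕ => Mono.diag (ZMod m) K (a j) * Mono.shift a).prod :
      Mono (ZMod m) K) : Equiv.Perm (ZMod m × K)) (i, x) =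
      (i + n, ((List.range n).map fun j : ℕ => a j * (a (i + n - 1 - j))⁻¹).prod * x) := by
  induction n with
  | zero => intro i x; simp
  | succ n ih =>
    intro i x
    rw [List.range_succ, List.map_append, List.prod_append, Subgroup.coe_mul,
      Equiv.Perm.mul_apply]
    simp only [List.map_cons, List.map_nil, List.prod_cons, List.prod_nil, mul_one,
      Subgroup.coe_mul, Equiv.Perm.mul_apply, Mono.shift_apply, Mono.diag_apply]
    rw [ih]
    rw [List.map_append, List.prod_append]
    simp only [List.map_cons, List.map_nil, List.prod_cons, List.prod_nil, mul_one]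
    refine Prod.ext ?_ ?_
    · simp only; push_cast; ring
    · simp only
      have e : (fun j : ℕ => a j * (a (i + 1 + n - 1 - j))⁻¹) =
          fun j : ℕ => a j * (a (i + ((n + 1 : ℕ) : ZMod m) - 1 - j))⁻¹ := by
        funext j
        congr 3
        push_cast; ring
      have e2 : i + ((n + 1 : ℕ) : ZMod m) - 1 - (n : ZMod m) = i := by push_cast; ring
      rw [e, e2]
      simp [mul_assoc]

theorem Mono.word_eq_one {K : Type*} [Group K] {m : ℕ} [NeZero m] (a : ZMod m → K) :
    ((List.range m).map fun j : ℕ => Mono.diag (ZMod m) K (a j) * Mono.shift a).prod = 1 := by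
  apply Subtype.ext
  apply Equiv.ext
  rintro ⟨i, x⟩
  rw [Mono.word_apply]
  have hlt : i.val < m := ZMod.val_lt i
  have hi : ((i.val : ℕ) : ZMod m) = i := ZMod.natCast_zmod_val i
  set s := i.val with hs
  obtain ⟨d, hd⟩ : ∃ d, m = s + d := ⟨m - s, by omega⟩
  have hm0 : ((m : ℕ) : ZMod m) = 0 := ZMod.natCast_self m
  have hsplit : ((List.range m).map fun j : ℕ => a j * (a (i + m - 1 - j))⁻¹).prod = 1 := by
    have hr : List.range m = List.range s ++ (List.range d).map (s + ·) := by
      rw [← List.range_add, ← hd]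
    rw [hr, List.map_append, List.prod_append, List.map_map]
    have h1 := palindrome (fun z : ℤ => a (z : ZMod m)) s 0
    have h2 := palindrome (fun z : ℤ => a (z : ZMod m)) d s
    have e1 : (fun j : ℕ => a j * (a (i + m - 1 - j))⁻¹) =
        fun j : ℕ => a (((0 + (j : ℤ) : ℤ)) : ZMod m) *
          (a (((0 + (s : ℤ) - 1 - (j : ℤ) : ℤ)) : ZMod m))⁻¹ := by
      funext j
      congr 2
      · push_cast; ring
      · congr 1; push_cast; rw [hi, hm0]; ring
    have e2 : ((fun j : ℕ => a j * (a (i + m - 1 - j))⁻¹) ∘ (s + ·)) =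
        fun j : ℕ => a ((((s : ℤ) + (j : ℤ) : ℤ)) : ZMod m) *
          (a ((((s : ℤ) + (d : ℤ) - 1 - (j : ℤ) : ℤ)) : ZMod m))⁻¹ := by
      funext j
      simp only [Function.comp_apply]
      congr 2
      · push_cast; ring
      · congr 1
        have : (s : ZMod m) + (d : ZMod m) = 0 := by
          rw [← Nat.cast_add, ← hd]; exact hm0
        push_cast
        rw [hm0, this, hi]; ring
    rw [e2, h2, e1, h1, mul_one]
  rw [hsplit, hm0]
  simp

end Pool.Agent.H28
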