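import Mathlib
import Pool.Agent.H28.Reflect

set_option autoImplicit false

/-!
A normal complement of `S` in its normal closure that contains the other conjugates of `S` makes
every pushout `G → G *_S F` reflect dependence of `1`.
-/

namespace Pool.Agent.H28

open Monoid

universe u v

/-! ### Products of conjugates along lists -/

section LProd

variable {G : Type*} [Group G]

/-- The set of products of conjugates of the entries of a list. -/
def LProd : List G → Set G
  | [] => {1}
  | g :: L => {x | ∃ c : G, ∃ y ∈ LProd L, x = c * g * c⁻¹ * y}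

theorem LProd_append (A B : List G) {y z : G} (hy : y ∈ LProd A) (hz : z ∈ LProd B) :
    y * z ∈ LProd (A ++ B) := by
  induction A generalizing y with
  | nil =>
    have : y = 1 := hy
    subst this
    simpa using hz
  | cons g A ih =>
    obtain ⟨c, w, hw, rfl⟩ := hy
    exact ⟨c, w * z, ih hw, by group⟩

theorem LProd_perm {A B : List G} (h : A.Perm B) : LProd A ⊆ LProd B := by
  induction h with
  | nil => exact subset_rfl
  | cons g _ ih =>
    rintro _ ⟨c, y, hy, rfl⟩
    exact ⟨c, y, ih hy, rfl⟩
  | swap g h L =>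
    rintro _ ⟨c, _, ⟨d, y, hy, rfl⟩, rfl⟩
    refine ⟨c * h * c⁻¹ * d, c * h * c⁻¹ * y, ⟨c, y, hy, rfl⟩, ?_⟩
    group
  | trans _ _ ih1 ih2 => exact ih1.trans ih2

theorem prod_mem_LProd {β : Type*} (L : List β) (lab val : β → G) :
    (L.map fun b => lab b * val b * (lab b)⁻¹).prod ∈ LProd (L.map val) := by
  induction L with
  | nil => exact rfl
  | cons b L ih =>
    simp only [List.map_cons, List.prod_cons]
    exact ⟨lab b, _, ih, rfl⟩

theorem exists_of_mem_LProd : ∀ (r : ℕ) (g : Fin r → G) {x : G}, x ∈ LProd (List.ofFn g) →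
    ∃ c : Fin r → G, (List.ofFn fun i => c i * g i * (c i)⁻¹).prod = x := by
  intro r
  induction r with
  | zero =>
    intro g x hx
    refine ⟨fun _ => 1, ?_⟩
    have : x = 1 := by simpa [LProd] using hx
    simp [this]
  | succ r ih =>
    intro g x hx
    rw [List.ofFn_succ] at hx
    obtain ⟨c, y, hy, rfl⟩ := hx
    obtain ⟨c', hc'⟩ := ih (fun i => g i.succ) hy
    refine ⟨Fin.cons c c', ?_⟩
    rw [List.ofFn_succ, List.prod_cons]
    simp only [Fin.cons_zero, Fin.cons_succ]
    rw [hc']

theorem oneDependent_iff {r : ℕ} (g : Fin r → G) : OneDependent g ↔ 1 ∈ LProd (List.ofFn g) := by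
  constructor
  · rintro ⟨c, hc⟩
    have h := prod_mem_LProd (List.ofFn fun i : Fin r => i) c g
    rw [List.map_ofFn, List.map_ofFn] at h
    have e : (List.ofFn ((fun b => c b * g b * (c b)⁻¹) ∘ fun i => i)).prod = 1 := hc
    rw [e] at h
    exact h
  · exact exists_of_mem_LProd r g

/-- Dependence can be checked on the parts of a partition. -/
theorem LProd_partition {β ι : Type*} [DecidableEq ι] (key : β → ι) (val : β → G) :
    ∀ (n : ℕ) (L : List β), L.length ≤ n →
      (∀ q, 1 ∈ LProd ((L.filter fun b => key b = q).map val)) → 1 ∈ LProd (L.map val) := by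
  intro n
  induction n with
  | zero =>
    intro L hL _
    have : L = [] := List.eq_nil_of_length_eq_zero (by omega)
    subst this
    exact rfl
  | succ n ih =>
    intro L hL h
    rcases L with _ | ⟨b, L⟩
    · exact rfl
    set q := key b with hq
    set A := (b :: L).filter fun c => key c = q with hA
    set B := (b :: L).filter fun c => ¬ (key c = q) with hB
    have hperm : (A ++ B).Perm (b :: L) := by
      have := List.filter_append_perm (fun c => decide (key c = q)) (b :: L)
      simpa [hA, hB] using this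
    have h1 : (1 : G) ∈ LProd (A.map val) := h q
    have hlen : B.length ≤ n := by
      have h2 : B = L.filter fun c => ¬ (key c = q) := by
        rw [hB, List.filter_cons_of_neg]
        simp [hq]
      rw [h2]
      have := List.length_filter_le (fun c => decide (¬ (key c = q))) L
      simp only [List.length_cons] at hL
      omega
    have h2 : (1 : G) ∈ LProd (B.map val) := by
      apply ih B hlen
      intro q'
      by_cases hqq : q' = q
      · have : (B.filter fun c => key c = q') = [] := by
          rw [List.filter_eq_nil_iff]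
          intro c hc
          rw [hB, List.mem_filter] at hc
          rw [hqq]
          simpa using hc.2
        rw [this]
        exact rfl
      · have : (B.filter fun c => key c = q') = (b :: L).filter fun c => key c = q' := by
          rw [hB, List.filter_filter]
          apply List.filter_congr
          intro c _
          by_cases hc : key c = q'
          · simp [hc, hqq]
          · simp [hc]
        rw [this]
        exact h q'
    have h3 := LProd_append _ _ h1 h2
    rw [mul_one, ← List.map_append] at h3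
    exact LProd_perm (hperm.map val) h3

end LProd

/-! ### The embedding at one point -/

section Single

variable {ι : Type*} {K : Type*} [Group K]

open Classical in
/-- `K` acting on the fibre over `i0`. -/
noncomputable def Mono.single (i0 : ι) : K →* Mono ι K where
  toFun g := ⟨⟨fun p => (p.1, if p.1 = i0 then g * p.2 else p.2),
      fun p => (p.1, if p.1 = i0 then g⁻¹ * p.2 else p.2), by
        rintro ⟨q, x⟩
        by_cases h : q = i0 <;> simp [h], by
        rintro ⟨q, x⟩
        by_cases h : q = i0 <;> simp [h]⟩, by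
      intro i x k
      by_cases h : i = i0 <;> simp [h, mul_assoc]⟩
  map_one' := by
    apply Subtype.ext
    apply Equiv.ext
    rintro ⟨q, x⟩
    simp
  map_mul' := by
    intro g h
    apply Subtype.ext
    apply Equiv.ext
    rintro ⟨q, x⟩
    by_cases hq : q = i0 <;> simp [hq, mul_assoc]

theorem Mono.single_same (i0 : ι) (g x : K) :
    ((Mono.single i0 g : Mono ι K) : Equiv.Perm (ι × K)) (i0, x) = (i0, g * x) := by
  simp [Mono.single]

theorem Mono.single_ne {i0 i : ι} (h : i ≠ i0) (g x : K) :
    ((Mono.single i0 g : Mono ι K) : Equiv.Perm (ι × K)) (i, x) = (i, x) := by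
  simp [Mono.single, h]

/-- The point to which `c` moves `i0`. -/
def Mono.key (i0 : ι) (c : Mono ι K) : ι := ((c : Equiv.Perm (ι × K)) (i0, 1)).1

/-- The label. -/
def Mono.lab (i0 : ι) (c : Mono ι K) : K := ((c : Equiv.Perm (ι × K)) (i0, 1)).2

theorem Mono.apply_base (i0 : ι) (c : Mono ι K) (x : K) :
    (c : Equiv.Perm (ι × K)) (i0, x) = (Mono.key i0 c, Mono.lab i0 c * x) := by
  have := c.2 i0 1 x
  rwa [one_mul] at this

theorem Mono.conj_single_same (i0 : ι) (c : Mono ι K) (g x : K) :
    ((c * Mono.single i0 g * c⁻¹ : Mono ι K) : Equiv.Perm (ι × K)) (Mono.key i0 c, x) =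
      (Mono.key i0 c, Mono.lab i0 c * g * (Mono.lab i0 c)⁻¹ * x) := by
  have h1 : ((c⁻¹ : Mono ι K) : Equiv.Perm (ι × K)) (Mono.key i0 c, x) =
      (i0, (Mono.lab i0 c)⁻¹ * x) := by
    rw [Subgroup.coe_inv, Equiv.Perm.inv_eq_iff_eq, Mono.apply_base]
    simp
  rw [Subgroup.coe_mul, Subgroup.coe_mul, Equiv.Perm.mul_apply, Equiv.Perm.mul_apply, h1,
    Mono.single_same, Mono.apply_base]
  simp [mul_assoc]

theorem Mono.conj_single_ne (i0 : ι) (c : Mono ι K) (g x : K) {q : ι}
    (hq : q ≠ Mono.key i0 c) :
    ((c * Mono.single i0 g * c⁻¹ : Mono ι K) : Equiv.Perm (ι × K)) (q, x) = (q, x) := by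
  rw [Subgroup.coe_mul, Subgroup.coe_mul, Equiv.Perm.mul_apply, Equiv.Perm.mul_apply]
  set y := ((c⁻¹ : Mono ι K) : Equiv.Perm (ι × K)) (q, x) with hy
  have hcy : (c : Equiv.Perm (ι × K)) y = (q, x) := by
    rw [hy, Subgroup.coe_inv]; simp
  have hy1 : y.1 ≠ i0 := by
    intro h
    have h2 : y = (i0, y.2) := by rw [← h]
    rw [h2, Mono.apply_base] at hcy
    exact hq (congrArg Prod.fst hcy).symm
  have h3 : ((Mono.single i0 g : Mono ι K) : Equiv.Perm (ι × K)) y = y := Mono.single_ne hy1 g y.2
  rw [h3, hcy]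

open Classical in
theorem Mono.prod_single (i0 : ι) (L : List (Mono ι K × K)) (q : ι) (x : K) :
    (((L.map fun p => p.1 * Mono.single i0 p.2 * p.1⁻¹).prod : Mono ι K) :
      Equiv.Perm (ι × K)) (q, x) =
      (q, ((L.filter fun p => Mono.key i0 p.1 = q).map fun p =>
        Mono.lab i0 p.1 * p.2 * (Mono.lab i0 p.1)⁻¹).prod * x) := by
  induction L generalizing x with
  | nil => simp
  | cons p L ih =>
    rw [List.map_cons, List.prod_cons, Subgroup.coe_mul, Equiv.Perm.mul_apply, ih]
    by_cases hq : Mono.key i0 p.1 = q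
    · subst hq
      rw [Mono.conj_single_same, List.filter_cons_of_pos (by simp)]
      simp [mul_assoc]
    · rw [Mono.conj_single_ne i0 _ _ _ (Ne.symm hq), List.filter_cons_of_neg (by simpa using hq)]

theorem Mono.reflects_single (i0 : ι) : Reflects (Mono.single i0 : K →* Mono ι K) := by
  classical
  rintro r g ⟨c, hc⟩
  rw [oneDependent_iff]
  set L : List (Mono ι K × K) := List.ofFn fun i => (c i, g i) with hL
  have h1 : List.ofFn g = L.map Prod.snd := by
    rw [hL, List.map_ofFn]
    rfl
  rw [h1]
  apply LProd_partition (fun p : Mono ι K × K => Mono.key i0 p.1) Prod.snd _ L le_rfl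
  intro q
  have h2 : (L.map fun p => p.1 * Mono.single i0 p.2 * p.1⁻¹).prod = 1 := by
    rw [hL, List.map_ofFn]
    exact hc
  have h3 := Mono.prod_single i0 L q 1
  rw [h2] at h3
  have h4 : ((L.filter fun p => Mono.key i0 p.1 = q).map fun p =>
        Mono.lab i0 p.1 * p.2 * (Mono.lab i0 p.1)⁻¹).prod = 1 := by
    have := congrArg Prod.snd h3
    simpa using this.symm
  have h5 := prod_mem_LProd (L.filter fun p => decide (Mono.key i0 p.1 = q))
    (fun p => Mono.lab i0 p.1) Prod.snd
  rw [h4] at h5
  exact h5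

end Single

/-! ### Pushouts -/

section Pushout

variable {F : Type u} {G : Type v} [Group F] [Group G]

/-- The pushout `G *_S F` of `θ : S → G` and the inclusion `S → F`. -/
abbrev Pushout (S : Subgroup F) (θ : S →* G) : Type (max u v) :=
  Coprod G F ⧸ Subgroup.normalClosure
    (Set.range fun s : S => (Coprod.inl (θ s) : Coprod G F) * (Coprod.inr (s : F))⁻¹)

/-- The canonical map `G → G *_S F`. -/
def toPushout (S : Subgroup F) (θ : S →* G) : G →* Pushout S θ :=
  (QuotientGroup.mk' _).comp Coprod.inl

/-- A normal complement of `S` in its normal closure `N` containing all conjugates of `S` by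
elements outside `N`. -/
structure GoodCompl (S : Subgroup F) (N K : Subgroup F) : Prop where
  SN : S ≤ N
  KN : K ≤ N
  norm : ∀ g ∈ N, ∀ k ∈ K, g * k * g⁻¹ ∈ K
  disj : ∀ s ∈ K, s ∈ S → s = 1
  fac : ∀ g ∈ N, ∃ k ∈ K, ∃ s ∈ S, g = k * s
  out : ∀ f ∉ N, ∀ s ∈ S, f * s * f⁻¹ ∈ K

variable {S N K : Subgroup F}

theorem GoodCompl.unique (h : GoodCompl S N K) {k k' s s' : F} (hk : k ∈ K) (hk' : k' ∈ K)
    (hs : s ∈ S) (hs' : s' ∈ S) (e : k * s = k' * s') : s = s' := by
  have h1 : k'⁻¹ * k = s' * s⁻¹ := by
    rw [inv_mul_eq_iff_eq_mul, ← mul_assoc, ← e]; simp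
  have h2 := h.disj (s' * s⁻¹) (h1 ▸ K.mul_mem (K.inv_mem hk') hk) (S.mul_mem hs' (S.inv_mem hs))
  exact (mul_inv_eq_one.mp h2).symm

/-- The `S`-part. -/
noncomputable def GoodCompl.part (h : GoodCompl S N K) (g : N) : S :=
  ⟨(h.fac g g.2).choose_spec.2.choose, (h.fac g g.2).choose_spec.2.choose_spec.1⟩

theorem GoodCompl.part_spec (h : GoodCompl S N K) (g : N) : ∃ k ∈ K, (g : F) = k * h.part g :=
  ⟨(h.fac g g.2).choose, (h.fac g g.2).choose_spec.1,
    (h.fac g g.2).choose_spec.2.choose_spec.2⟩

theorem GoodCompl.part_eq (h : GoodCompl S N K) (g : N) {k : F} (hk : k ∈ K) (s : S)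
    (e : (g : F) = k * s) : h.part g = s := by
  obtain ⟨k', hk', e'⟩ := h.part_spec g
  exact Subtype.ext (h.unique hk' hk (h.part g).2 s.2 (e'.symm.trans e))

/-- The retraction `N → S` with kernel `K`. -/
noncomputable def GoodCompl.retr (h : GoodCompl S N K) : N →* S where
  toFun := h.part
  map_one' := h.part_eq 1 K.one_mem 1 (by simp)
  map_mul' := by
    intro g g'
    obtain ⟨k, hk, e⟩ := h.part_spec g
    obtain ⟨k', hk', e'⟩ := h.part_spec g'
    have h1 := h.norm (h.part g : F) (h.SN (h.part g).2) k' hk'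
    apply h.part_eq (g * g') (K.mul_mem hk h1) (h.part g * h.part g')
    rw [Subgroup.coe_mul, Subgroup.coe_mul, e, e']
    group

end Pushout


section Induced

variable {F : Type u} {G : Type v} [Group F] [Group G]

open Classical in
/-- A section of `F → F ⧸ N` taking `1` to `1`. -/
noncomputable def tau (N : Subgroup F) [N.Normal] (q : F ⧸ N) : F :=
  if q = 1 then 1 else Quotient.out q

theorem tau_one (N : Subgroup F) [N.Normal] : tau N 1 = 1 := by simp [tau]

theorem mk_tau (N : Subgroup F) [N.Normal] (q : F ⧸ N) :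
    (QuotientGroup.mk (tau N q) : F ⧸ N) = q := by
  by_cases h : q = 1
  · subst h
    rw [tau_one]
    rfl
  · simp [tau, h]

/-- The cocycle. -/
noncomputable def kap (N : Subgroup F) [N.Normal] (f : F) (q : F ⧸ N) : N :=
  ⟨(tau N ((QuotientGroup.mk f : F ⧸ N) * q))⁻¹ * f * tau N q, by
    rw [← QuotientGroup.eq_one_iff]
    simp only [QuotientGroup.mk_mul, QuotientGroup.mk_inv, mk_tau]
    group⟩

theorem kap_mul (N : Subgroup F) [N.Normal] (f e : F) (q : F ⧸ N) :
    kap N (f * e) q = kap N f ((QuotientGroup.mk e : F ⧸ N) * q) * kap N e q := by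
  apply Subtype.ext
  simp only [kap, Subgroup.coe_mul, QuotientGroup.mk_mul, mul_assoc]
  simp

theorem kap_one (N : Subgroup F) [N.Normal] (q : F ⧸ N) : kap N 1 q = 1 := by
  apply Subtype.ext
  simp [kap]

/-- The monomial representation induced from `ρ : N → G`. -/
noncomputable def indN {N : Subgroup F} [N.Normal] (ρ : N →* G) : F →* Mono (F ⧸ N) G where
  toFun f := ⟨⟨fun p => ((QuotientGroup.mk f : F ⧸ N) * p.1, ρ (kap N f p.1) * p.2),
      fun p => ((QuotientGroup.mk f⁻¹ : F ⧸ N) * p.1, ρ (kap N f⁻¹ p.1) * p.2), by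
        intro p
        refine Prod.ext ?_ ?_
        · simp
        · simp only
          rw [← mul_assoc, ← map_mul, ← kap_mul, inv_mul_cancel, kap_one, map_one, one_mul], by
        intro p
        refine Prod.ext ?_ ?_
        · simp
        · simp only
          rw [← mul_assoc, ← map_mul, ← kap_mul, mul_inv_cancel, kap_one, map_one, one_mul]⟩, by
      intro i x k
      simp [mul_assoc]⟩
  map_one' := by
    apply Subtype.ext
    apply Equiv.ext
    rintro ⟨q, x⟩
    refine Prod.ext ?_ ?_
    · show (QuotientGroup.mk (1 : F) : F ⧸ N) * q = q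
      simp
    · show ρ (kap N 1 q) * x = x
      rw [kap_one, map_one, one_mul]
  map_mul' := by
    intro f e
    apply Subtype.ext
    apply Equiv.ext
    rintro ⟨q, x⟩
    refine Prod.ext ?_ ?_
    · show (QuotientGroup.mk (f * e) : F ⧸ N) * q =
        (QuotientGroup.mk f : F ⧸ N) * ((QuotientGroup.mk e : F ⧸ N) * q)
      rw [QuotientGroup.mk_mul, mul_assoc]
    · show ρ (kap N (f * e) q) * x =
        ρ (kap N f ((QuotientGroup.mk e : F ⧸ N) * q)) * (ρ (kap N e q) * x)
      rw [kap_mul, map_mul, mul_assoc]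

theorem indN_apply {N : Subgroup F} [N.Normal] (ρ : N →* G) (f : F) (q : F ⧸ N) (x : G) :
    ((indN ρ f : Mono (F ⧸ N) G) : Equiv.Perm ((F ⧸ N) × G)) (q, x) =
      ((QuotientGroup.mk f : F ⧸ N) * q, ρ (kap N f q) * x) := rfl

theorem GoodCompl.retr_mem {S N K : Subgroup F} (h : GoodCompl S N K) (s : S) (hs : (s : F) ∈ N) :
    h.retr ⟨s, hs⟩ = s :=
  h.part_eq _ K.one_mem s (by simp)

theorem GoodCompl.retr_K {S N K : Subgroup F} (h : GoodCompl S N K) (k : N) (hk : (k : F) ∈ K) :
    h.retr k = 1 :=
  h.part_eq _ hk 1 (by simp)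

/-- **The criterion.** -/
theorem GoodCompl.reflects {S N K : Subgroup F} [N.Normal] (h : GoodCompl S N K) (θ : S →* G) :
    Reflects (toPushout S θ) := by
  set ρ : N →* G := θ.comp h.retr with hρ
  let Ψ₀ : Coprod G F →* Mono (F ⧸ N) G := Coprod.lift (Mono.single 1) (indN ρ)
  have key : ∀ s : S, Mono.single (1 : F ⧸ N) (θ s) = indN ρ (s : F) := by
    intro s
    apply Subtype.ext
    apply Equiv.ext
    rintro ⟨q, x⟩
    have hsN : (s : F) ∈ N := h.SN s.2
    have hs1 : (QuotientGroup.mk (s : F) : F ⧸ N) = 1 := (QuotientGroup.eq_one_iff _).mpr hsN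
    rw [indN_apply, hs1, one_mul]
    by_cases hq : q = 1
    · subst hq
      rw [Mono.single_same]
      have e : kap N (s : F) 1 = ⟨s, hsN⟩ := by
        apply Subtype.ext
        simp only [kap, hs1, one_mul, tau_one]
        simp
      rw [e, hρ, MonoidHom.comp_apply, h.retr_mem]
    · rw [Mono.single_ne hq]
      have e : h.retr (kap N (s : F) q) = 1 := by
        apply h.retr_K
        simp only [kap, hs1, one_mul]
        have hτ : (tau N q)⁻¹ ∉ N := by
          intro hcon
          apply hq
          rw [← mk_tau N q]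
          exact (QuotientGroup.eq_one_iff _).mpr ((Subgroup.inv_mem_iff N).mp hcon)
        have := h.out _ hτ s s.2
        rwa [inv_inv] at this
      rw [hρ, MonoidHom.comp_apply, e, map_one, one_mul]
  have hle : Subgroup.normalClosure (Set.range fun s : S =>
      (Coprod.inl (θ s) : Coprod G F) * (Coprod.inr (s : F))⁻¹) ≤ Ψ₀.ker := by
    apply Subgroup.normalClosure_le_normal
    rintro _ ⟨s, rfl⟩
    show Ψ₀ _ = 1
    rw [map_mul, map_inv]
    show Coprod.lift _ _ _ * (Coprod.lift _ _ _)⁻¹ = (1 : Mono (F ⧸ N) G)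
    rw [Coprod.lift_apply_inl, Coprod.lift_apply_inr, key s]
    simp
  let Ψ : Pushout S θ →* Mono (F ⧸ N) G := QuotientGroup.lift _ Ψ₀ hle
  have hcomp : Ψ.comp (toPushout S θ) = Mono.single (1 : F ⧸ N) := by
    ext1 g
    show Ψ₀ (Coprod.inl g) = _
    exact Coprod.lift_apply_inl _ _ _
  apply Reflects.of_comp (ψ := Ψ)
  rw [hcomp]
  exact Mono.reflects_single _

end Induced

end Pool.Agent.H28
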