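import Mathlib
import Pool.Agent.H28.Assembly

set_option autoImplicit false

namespace Pool.Agent.H28

open MulAction

universe u

/-- `E` is closed in the pro-`p` topology of `G`: every element outside `E` is separated from `E`
by a homomorphism to a finite `p`-group. -/
def ProPClosed (p : ℕ) {G : Type u} [Group G] (E : Subgroup G) : Prop :=
  ∀ x : G, x ∉ E → ∃ (K : Type u) (_ : Group K) (_ : Finite K), IsPGroup p K ∧
    ∃ φ : G →* K, φ x ∉ E.map φ

/-- a proper subgroup of a finite `p`-group is killed by a nontrivial homomorphism to the group of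
order `p`. -/
theorem exists_hom_of_lt_top {p : ℕ} (hp : p.Prime) {K : Type*} [Group K] [Finite K]
    (hK : IsPGroup p K) (H : Subgroup K) (hH : H ≠ ⊤) :
    ∃ χ : K →* Multiplicative (ZMod p), χ ≠ 1 ∧ ∀ x ∈ H, χ x = 1 := by
  have : Fact p.Prime := ⟨hp⟩
  obtain h | ⟨M, hM, hHM⟩ := eq_top_or_exists_le_coatom H
  · exact absurd h hH
  have hnil : Group.IsNilpotent K := hK.isNilpotent
  have hn : M.Normal :=
    Subgroup.NormalizerCondition.normal_of_coatom M Group.normalizerCondition_of_isNilpotent hM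
  -- the quotient has order `p`
  have hQp : IsPGroup p (K ⧸ M) := hK.to_quotient M
  have hnt : Nontrivial (K ⧸ M) := by
    rw [QuotientGroup.nontrivial_iff]
    exact hM.1
  obtain ⟨k, hk⟩ := IsPGroup.iff_card.1 hQp
  have hk0 : k ≠ 0 := by
    rintro rfl
    rw [pow_zero] at hk
    exact (Finite.one_lt_card_iff_nontrivial.2 hnt).ne' hk
  have hdvd : p ∣ Nat.card (K ⧸ M) := by
    rw [hk]; exact dvd_pow_self p hk0
  obtain ⟨x, hx⟩ := exists_prime_orderOf_dvd_card' p hdvd
  have htop : Subgroup.zpowers x = ⊤ := by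
    by_contra hne
    have h1 : (Subgroup.zpowers x).comap (QuotientGroup.mk' M) ≠ ⊤ := by
      intro h
      apply hne
      rw [eq_top_iff]
      intro y _
      obtain ⟨z, rfl⟩ := QuotientGroup.mk'_surjective M y
      have : z ∈ (Subgroup.zpowers x).comap (QuotientGroup.mk' M) := by rw [h]; trivial
      exact this
    have h2 : M ≤ (Subgroup.zpowers x).comap (QuotientGroup.mk' M) := by
      intro z hz
      rw [Subgroup.mem_comap]
      have : (QuotientGroup.mk' M) z = 1 := by
        rw [QuotientGroup.mk'_apply, QuotientGroup.eq_one_iff]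
        exact hz
      rw [this]
      exact Subgroup.one_mem _
    have h3 : M = (Subgroup.zpowers x).comap (QuotientGroup.mk' M) := by
      rcases h2.eq_or_lt with h | h
      · exact h
      · exact absurd (hM.2 _ h) h1
    obtain ⟨z, hz⟩ := QuotientGroup.mk'_surjective M x
    have h4 : z ∈ (Subgroup.zpowers x).comap (QuotientGroup.mk' M) := by
      rw [Subgroup.mem_comap, hz]
      exact Subgroup.mem_zpowers x
    rw [← h3] at h4
    have h5 : x = 1 := by
      rw [← hz, QuotientGroup.mk'_apply, QuotientGroup.eq_one_iff]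
      exact h4
    rw [h5, orderOf_one] at hx
    exact hp.one_lt.ne hx
  have hcard : Nat.card (K ⧸ M) = p := by
    rw [← hx, ← Nat.card_zpowers, htop, Subgroup.card_top]
  have hcard' : Nat.card (Multiplicative (ZMod p)) = p := by
    rw [Nat.card_congr Multiplicative.toAdd, Nat.card_zmod]
  let θ : K ⧸ M ≃* Multiplicative (ZMod p) := mulEquivOfPrimeCardEq hcard hcard'
  refine ⟨θ.toMonoidHom.comp (QuotientGroup.mk' M), ?_, ?_⟩
  · intro h
    obtain ⟨y, hy⟩ := exists_ne (1 : K ⧸ M)
    obtain ⟨z, rfl⟩ := QuotientGroup.mk'_surjective M y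
    apply hy
    apply θ.injective
    rw [map_one]
    exact DFunLike.congr_fun h z
  · intro z hz
    have h1 : (QuotientGroup.mk' M) z = 1 := by
      rw [QuotientGroup.mk'_apply, QuotientGroup.eq_one_iff]
      exact hHM hz
    show θ ((QuotientGroup.mk' M) z) = 1
    rw [h1, map_one]

/-- `Inj` holds for all closed subgroups. -/
theorem inj_of_closed {G : Type u} {ι Ω : Type*} [Group G] [MulAction G Ω] {p : ℕ} (hp : p.Prime)
    (b : FreeGroupBasis ι G) (htop : Inj (ZMod p) b Ω (⊤ : Subgroup G)) (E : Subgroup G)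
    (hE : ProPClosed p E) : Inj (ZMod p) b Ω E := by
  obtain ⟨E₀, hle, hE₀, hmin⟩ := exists_minimal b E htop
  suffices h : E₀ = E by rw [← h]; exact hE₀
  apply le_antisymm _ hle
  intro x hx
  by_contra hxE
  obtain ⟨K, _, _, hK, φ, hφ⟩ := hE x hxE
  let φ₀ : E₀ →* (E₀.map φ) :=
    (φ.comp E₀.subtype).codRestrict (E₀.map φ) (fun y => ⟨y, y.2, rfl⟩)
  let H : Subgroup (E₀.map φ) := (E.map φ).subgroupOf (E₀.map φ)
  have hH : H ≠ ⊤ := by
    intro h
    apply hφ
    have h1 : (⟨φ x, ⟨x, hx, rfl⟩⟩ : E₀.map φ) ∈ H := by rw [h]; trivial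
    exact h1
  obtain ⟨χ, hχ1, hχ2⟩ := exists_hom_of_lt_top hp (hK.to_subgroup (E₀.map φ)) H hH
  have h1 : χ.comp φ₀ = 1 := by
    apply dense_of_minimal hp b E E₀ hle hE₀ hmin
    intro y hy
    apply hχ2
    show φ y ∈ E.map φ
    exact ⟨y, hy, rfl⟩
  apply hχ1
  ext y : 1
  obtain ⟨y, z, hz, rfl⟩ := y
  exact DFunLike.congr_fun h1 ⟨z, hz⟩

end Pool.Agent.H28
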