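import Mathlib
import Pool.Agent.H28.Reflect

set_option autoImplicit false

namespace Pool.Agent.H28

open Monoid

universe u

/-- `G * ⟨t_0, …, t_{n-1}⟩`. -/
abbrev FreeExt (G : Type u) [Group G] (n : ℕ) : Type u := Monoid.Coprod G (FreeGroup (Fin n))

/-- The unknown `t_j`. -/
def unknown (G : Type u) [Group G] {n : ℕ} (j : Fin n) : FreeExt G n :=
  Coprod.inr (FreeGroup.of j)

/-- The subgroup `⟨G, t_i : i < j⟩`. -/
def coeffs (G : Type u) [Group G] {n : ℕ} (j : Fin n) : Subgroup (FreeExt G n) :=
  Subgroup.closure (Set.range (Coprod.inl : G →* FreeExt G n) ∪ unknown G '' {i | i < j})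

/-- `w = a_0 t_j a_1 t_j … a_{m-1} t_j` with `m > 0` and all `a_k` in `⟨G, t_i : i < j⟩`. -/
def PositiveIn {G : Type u} [Group G] {n : ℕ} (j : Fin n) (w : FreeExt G n) : Prop :=
  ∃ (m : ℕ) (a : Fin m → FreeExt G n), 0 < m ∧ (∀ k, a k ∈ coeffs G j) ∧
    w = (List.ofFn fun k => a k * unknown G j).prod

/-- The inclusion `G * ⟨t_0, …, t_{n-1}⟩ → G * ⟨t_0, …, t_n⟩`. -/
def incl (G : Type u) [Group G] (n : ℕ) : FreeExt G n →* FreeExt G (n + 1) :=
  Coprod.lift Coprod.inl (FreeGroup.lift fun i => unknown G i.castSucc)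

@[simp] theorem incl_inl (G : Type u) [Group G] (n : ℕ) (g : G) :
    incl G n (Coprod.inl g) = Coprod.inl g := by simp [incl]

@[simp] theorem incl_unknown (G : Type u) [Group G] (n : ℕ) (i : Fin n) :
    incl G n (unknown G i) = unknown G i.castSucc := by simp [incl, unknown]

theorem coeffs_castSucc_le (G : Type u) [Group G] (n : ℕ) (j : Fin n) :
    coeffs G j.castSucc ≤ (coeffs G j).map (incl G n) := by
  rw [coeffs, Subgroup.closure_le]
  rintro x (⟨g, rfl⟩ | ⟨i, hi, rfl⟩)
  · exact ⟨Coprod.inl g, Subgroup.subset_closure (Or.inl ⟨g, rfl⟩), incl_inl G n g⟩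
  · have hin : i.val < n := lt_of_lt_of_le (Fin.lt_def.mp hi) (by simpa using j.isLt.le)
    refine ⟨unknown G ⟨i.val, hin⟩, Subgroup.subset_closure (Or.inr ⟨⟨i.val, hin⟩, ?_, rfl⟩), ?_⟩
    · exact Fin.lt_def.mpr (by simpa using Fin.lt_def.mp hi)
    · rw [incl_unknown]; rfl

theorem coeffs_last_le (G : Type u) [Group G] (n : ℕ) :
    coeffs G (Fin.last n) ≤ (incl G n).range := by
  rw [coeffs, Subgroup.closure_le]
  rintro x (⟨g, rfl⟩ | ⟨i, hi, rfl⟩)
  · exact ⟨Coprod.inl g, incl_inl G n g⟩
  · have hin : i.val < n := by simpa using Fin.lt_def.mp hi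
    refine ⟨unknown G ⟨i.val, hin⟩, ?_⟩
    rw [incl_unknown]; rfl

/-- Every triangular positive system over `G` has a solution in an overgroup `K` of `G` such that
`G → K` reflects dependence. -/
theorem exists_solution (G : Type u) [Group G] : ∀ (n : ℕ) (w : Fin n → FreeExt G n),
    (∀ j, PositiveIn j (w j)) →
    ∃ (K : Type u) (_ : Group K) (Φ : FreeExt G n →* K), (∀ j, Φ (w j) = 1) ∧
      Reflects (Φ.comp (Coprod.inl : G →* FreeExt G n)) := by
  intro n
  induction n with
  | zero =>
    intro w _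
    refine ⟨G, inferInstance, Coprod.lift (MonoidHom.id G) 1, fun j => j.elim0, ?_⟩
    have : ((Coprod.lift (MonoidHom.id G) (1 : FreeGroup (Fin 0) →* G)).comp
        (Coprod.inl : G →* FreeExt G 0)) = MonoidHom.id G := by
      ext g; simp
    rw [this]
    exact reflects_id G
  | succ n ih =>
    intro w hw
    -- the first `n` equations
    have h1 : ∀ j : Fin n, ∃ w' : FreeExt G n, PositiveIn j w' ∧
        incl G n w' = w j.castSucc := by
      intro j
      obtain ⟨m, a, hm, ha, hwj⟩ := hw j.castSucc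
      have h2 : ∀ k, ∃ b ∈ coeffs G j, incl G n b = a k := fun k =>
        coeffs_castSucc_le G n j (ha k)
      choose b hb hb' using h2
      refine ⟨(List.ofFn fun k => b k * unknown G j).prod, ⟨m, b, hm, hb, rfl⟩, ?_⟩
      rw [hwj, map_list_prod, List.map_ofFn]
      congr 2
      funext k
      simp [hb']
    choose w' hw' hincl using h1
    obtain ⟨K, _, Φ, hΦ, hrefl⟩ := ih w' hw'
    -- the last equation
    obtain ⟨m, a, hm, ha, hwl⟩ := hw (Fin.last n)
    have h3 : ∀ k, ∃ b, incl G n b = a k := fun k => coeffs_last_le G n (ha k)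
    choose b hb using h3
    haveI : NeZero m := ⟨hm.ne'⟩
    -- index the coefficients by `ZMod m`
    let c : ZMod m → K := fun z => Φ (b ⟨z.val, ZMod.val_lt z⟩)
    let Ψ : FreeExt G (n + 1) →* Mono (ZMod m) K :=
      Coprod.lift ((Mono.diag (ZMod m) K).comp (Φ.comp Coprod.inl))
        (FreeGroup.lift (Fin.lastCases (Mono.shift c)
          (fun i => Mono.diag (ZMod m) K (Φ (unknown G i)))))
    have hΨinl : ∀ g : G, Ψ (Coprod.inl g) = Mono.diag (ZMod m) K (Φ (Coprod.inl g)) := by
      intro g; simp [Ψ]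
    have hΨlast : Ψ (unknown G (Fin.last n)) = Mono.shift c := by
      simp [Ψ, unknown]
    have hΨcast : ∀ i : Fin n, Ψ (unknown G i.castSucc) =
        Mono.diag (ZMod m) K (Φ (unknown G i)) := by
      intro i; simp [Ψ, unknown]
    have hΨincl : Ψ.comp (incl G n) = (Mono.diag (ZMod m) K).comp Φ := by
      apply Coprod.hom_ext
      · ext1 g
        simp only [MonoidHom.comp_apply, incl_inl]
        exact hΨinl g
      · apply FreeGroup.ext_hom
        intro i
        show Ψ (incl G n (unknown G i)) = Mono.diag (ZMod m) K (Φ (unknown G i))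
        rw [incl_unknown]
        exact hΨcast i
    have hΨincl' : ∀ x, Ψ (incl G n x) = Mono.diag (ZMod m) K (Φ x) := fun x =>
      DFunLike.congr_fun hΨincl x
    refine ⟨Mono (ZMod m) K, inferInstance, Ψ, ?_, ?_⟩
    · intro j
      refine Fin.lastCases ?_ (fun i => ?_) j
      · rw [hwl, map_list_prod, List.map_ofFn]
        have hword := Mono.word_eq_one c
        rw [← hword]
        rw [List.ofFn_eq_map]
        rw [← List.map_coe_finRange_eq_range, List.map_map]
        congr 1
        apply List.map_congr_left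
        intro k _
        simp only [Function.comp_apply, map_mul, hΨlast]
        rw [← hb k, hΨincl']
        have hck : c (((k : ℕ) : ZMod m)) = Φ (b k) := by
          simp only [c]
          congr 2
          apply Fin.ext
          simp only
          exact ZMod.val_cast_of_lt k.isLt
        rw [hck]
      · rw [← hincl i, hΨincl', hΦ i, map_one]
    · have : Ψ.comp (Coprod.inl : G →* FreeExt G (n + 1)) =
          (Mono.diag (ZMod m) K).comp (Φ.comp Coprod.inl) := by
        ext1 g; exact hΨinl g
      rw [this]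
      exact (Mono.reflects_diag (ZMod m) K 0).comp hrefl

theorem positive_reflects (G : Type u) [Group G] (n : ℕ) (w : Fin n → FreeExt G n)
    (hw : ∀ j, PositiveIn j (w j)) :
    Reflects ((QuotientGroup.mk' (Subgroup.normalClosure (Set.range w))).comp
      (Coprod.inl : G →* FreeExt G n)) := by
  obtain ⟨K, _, Φ, hΦ, hrefl⟩ := exists_solution G n w hw
  have hker : Subgroup.normalClosure (Set.range w) ≤ Φ.ker := by
    apply Subgroup.normalClosure_le_normal
    rintro _ ⟨j, rfl⟩
    exact hΦ j
  have hfac : (QuotientGroup.lift (Subgroup.normalClosure (Set.range w)) Φ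
      (fun x hx => hker hx)).comp
      ((QuotientGroup.mk' (Subgroup.normalClosure (Set.range w))).comp
      (Coprod.inl : G →* FreeExt G n)) = Φ.comp Coprod.inl := by
    ext1 g; rfl
  apply Reflects.of_comp (ψ := QuotientGroup.lift (Subgroup.normalClosure (Set.range w)) Φ
      (fun x hx => hker hx))
  rw [hfac]
  exact hrefl

end Pool.Agent.H28
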