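import Mathlib
import Pool.Agent.H28.Positive

set_option autoImplicit false

namespace Pool.Agent.H28

open Monoid

universe u

/-! ### Induced monomial representation of a commutative overgroup -/

section Induced

variable {G A D : Type u} [Group G] [CommGroup A] [CommGroup D]

/-- The cocycle `κ(d, q) ∈ A` with `j κ(d,q) = s(dq)⁻¹ d s(q)`. -/
theorem exists_kappa (j : A →* D) (d : D) (q : D ⧸ j.range) :
    ∃ a : A, j a = (Quotient.out ((QuotientGroup.mk d : D ⧸ j.range) * q))⁻¹ * d *
      Quotient.out q := by
  have h : (Quotient.out ((QuotientGroup.mk d : D ⧸ j.range) * q))⁻¹ * d * Quotient.out q ∈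
      j.range := by
    rw [← QuotientGroup.eq_one_iff]
    simp only [QuotientGroup.mk_mul, QuotientGroup.mk_inv, QuotientGroup.out_eq']
    simp [mul_comm, mul_assoc, mul_left_comm]
  exact h

noncomputable def kappa (j : A →* D) (d : D) (q : D ⧸ j.range) : A :=
  Classical.choose (exists_kappa j d q)

theorem j_kappa (j : A →* D) (d : D) (q : D ⧸ j.range) :
    j (kappa j d q) = (Quotient.out ((QuotientGroup.mk d : D ⧸ j.range) * q))⁻¹ * d *
      Quotient.out q := Classical.choose_spec (exists_kappa j d q)

theorem kappa_mul (j : A →* D) (hj : Function.Injective j) (d e : D) (q : D ⧸ j.range) :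
    kappa j (d * e) q = kappa j d ((QuotientGroup.mk e : D ⧸ j.range) * q) * kappa j e q := by
  apply hj
  rw [map_mul, j_kappa, j_kappa, j_kappa, QuotientGroup.mk_mul, mul_assoc (QuotientGroup.mk d)]
  simp [mul_assoc]

theorem kappa_one (j : A →* D) (hj : Function.Injective j) (q : D ⧸ j.range) :
    kappa j 1 q = 1 := by
  apply hj
  rw [j_kappa, map_one, QuotientGroup.mk_one, one_mul]
  simp

theorem kappa_range (j : A →* D) (hj : Function.Injective j) (a : A) (q : D ⧸ j.range) :
    kappa j (j a) q = a := by
  apply hj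
  have h : (QuotientGroup.mk (j a) : D ⧸ j.range) = 1 :=
    (QuotientGroup.eq_one_iff _).mpr ⟨a, rfl⟩
  rw [j_kappa, h, one_mul, mul_comm _ (j a), mul_assoc, inv_mul_cancel, mul_one]

/-- The monomial representation of `D` over `G` induced from `A → G`. -/
noncomputable def indMono (j : A →* D) (hj : Function.Injective j) (f : A →* G) :
    D →* Mono (D ⧸ j.range) G where
  toFun d := ⟨⟨fun p => ((QuotientGroup.mk d : D ⧸ j.range) * p.1, f (kappa j d p.1) * p.2),
      fun p => ((QuotientGroup.mk d⁻¹ : D ⧸ j.range) * p.1, f (kappa j d⁻¹ p.1) * p.2), by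
        intro p
        refine Prod.ext ?_ ?_
        · simp
        · simp only
          rw [← mul_assoc, ← map_mul, ← kappa_mul j hj, inv_mul_cancel, kappa_one j hj, map_one,
            one_mul], by
        intro p
        refine Prod.ext ?_ ?_
        · simp
        · simp only
          rw [← mul_assoc, ← map_mul, ← kappa_mul j hj, mul_inv_cancel, kappa_one j hj, map_one,
            one_mul]⟩, by
      intro i x k
      simp [mul_assoc]⟩
  map_one' := by
    apply Subtype.ext
    apply Equiv.ext
    rintro ⟨q, x⟩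
    refine Prod.ext ?_ ?_
    · show (QuotientGroup.mk (1 : D) : D ⧸ j.range) * q = q
      simp
    · show f (kappa j 1 q) * x = x
      rw [kappa_one j hj, map_one, one_mul]
  map_mul' := by
    intro d e
    apply Subtype.ext
    apply Equiv.ext
    rintro ⟨q, x⟩
    refine Prod.ext ?_ ?_
    · show (QuotientGroup.mk (d * e) : D ⧸ j.range) * q = QuotientGroup.mk d *
        (QuotientGroup.mk e * q)
      rw [QuotientGroup.mk_mul, mul_assoc]
    · show f (kappa j (d * e) q) * x = f (kappa j d (QuotientGroup.mk e * q)) *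
        (f (kappa j e q) * x)
      rw [kappa_mul j hj, map_mul, mul_assoc]

theorem indMono_range (j : A →* D) (hj : Function.Injective j) (f : A →* G) (a : A) :
    indMono j hj f (j a) = Mono.diag (D ⧸ j.range) G (f a) := by
  apply Subtype.ext
  apply Equiv.ext
  rintro ⟨q, x⟩
  have h : (QuotientGroup.mk (j a) : D ⧸ j.range) = 1 :=
    (QuotientGroup.eq_one_iff _).mpr ⟨a, rfl⟩
  refine Prod.ext ?_ ?_
  · show (QuotientGroup.mk (j a) : D ⧸ j.range) * q = q
    rw [h, one_mul]
  · show f (kappa j (j a) q) * x = f a * x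
    rw [kappa_range j hj]

end Induced

/-! ### The commutative overgroup in which the system is solvable -/

/-- Exponent sum of `t_i`. -/
def expSum (G : Type u) [Group G] {n : ℕ} (i : Fin n) : FreeExt G n →* Multiplicative ℤ :=
  Coprod.lift 1 (FreeGroup.lift fun k => if k = i then Multiplicative.ofAdd 1 else 1)

section Solve

variable (A : Type u) [CommGroup A] {n : ℕ}

/-- The map `A * ⟨t⟩ → A × ℤ^n`. -/
def toAb : FreeExt A n →* A × (Fin n → Multiplicative ℤ) :=
  Coprod.lift (MonoidHom.inl A (Fin n → Multiplicative ℤ))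
    (FreeGroup.lift fun k => (1, Pi.mulSingle k (Multiplicative.ofAdd 1)))

theorem toAb_snd (w : FreeExt A n) (i : Fin n) : (toAb A w).2 i = expSum A i w := by
  have : ((Pi.evalMonoidHom (fun _ : Fin n => Multiplicative ℤ) i).comp
      ((MonoidHom.snd A (Fin n → Multiplicative ℤ)).comp (toAb A))) = expSum A i := by
    apply Coprod.hom_ext
    · ext a
      simp [toAb, expSum]
    · apply FreeGroup.ext_hom
      intro k
      simp only [MonoidHom.comp_apply, toAb, expSum, Coprod.lift_apply_inr, FreeGroup.lift_apply_of,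
        MonoidHom.coe_snd, Pi.evalMonoidHom_apply, Pi.mulSingle_apply]
      by_cases h : k = i
      · subst h; simp
      · rw [if_neg (Ne.symm h), if_neg h]
  exact DFunLike.congr_fun this w

theorem exists_comm_solution (w : Fin n → FreeExt A n)
    (hdet : (Matrix.of fun i j => (expSum A i (w j)).toAdd : Matrix (Fin n) (Fin n) ℤ).det ≠ 0) :
    ∃ (D : Type u) (_ : CommGroup D) (Φ : FreeExt A n →* D), (∀ j, Φ (w j) = 1) ∧
      Function.Injective (Φ.comp (Coprod.inl : A →* FreeExt A n)) := by
  let N : Subgroup (A × (Fin n → Multiplicative ℤ)) :=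
    Subgroup.closure (Set.range fun j => toAb A (w j))
  refine ⟨(A × (Fin n → Multiplicative ℤ)) ⧸ N, inferInstance, (QuotientGroup.mk' N).comp (toAb A),
    ?_, ?_⟩
  · intro j
    show (QuotientGroup.mk (toAb A (w j)) : _ ⧸ N) = 1
    exact (QuotientGroup.eq_one_iff _).mpr (Subgroup.subset_closure ⟨j, rfl⟩)
  · rw [injective_iff_map_eq_one]
    intro a ha
    have h1 : toAb A (Coprod.inl a) ∈ N := (QuotientGroup.eq_one_iff _).mp ha
    have h2 : toAb A (n := n) (Coprod.inl a) = (a, 1) := by simp [toAb]
    rw [h2] at h1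
    -- elements of `N` are integral combinations
    have h3 : ∀ x ∈ N, ∃ c : Fin n → ℤ, x = ∏ j, toAb A (w j) ^ c j := by
      intro x hx
      induction hx using Subgroup.closure_induction with
      | mem x hx =>
        obtain ⟨j, rfl⟩ := hx
        refine ⟨Pi.single j 1, ?_⟩
        rw [Finset.prod_eq_single j]
        · simp
        · intro k _ hk
          simp [hk]
        · simp
      | one => exact ⟨0, by simp⟩
      | mul x y _ _ hx hy =>
        obtain ⟨c, rfl⟩ := hx
        obtain ⟨d, rfl⟩ := hy
        refine ⟨c + d, ?_⟩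
        rw [← Finset.prod_mul_distrib]
        exact Finset.prod_congr rfl fun j _ => by rw [Pi.add_apply, zpow_add]
      | inv x _ hx =>
        obtain ⟨c, rfl⟩ := hx
        refine ⟨-c, ?_⟩
        rw [← Finset.prod_inv_distrib]
        exact Finset.prod_congr rfl fun j _ => by rw [Pi.neg_apply, zpow_neg]
    obtain ⟨c, hc⟩ := h3 _ h1
    have h4 : c = 0 := by
      have h5 : (Matrix.of fun i j => (expSum A i (w j)).toAdd :
          Matrix (Fin n) (Fin n) ℤ).mulVec c = 0 := by
        funext i
        have h6 := congrArg (fun x : A × (Fin n → Multiplicative ℤ) => (x.2 i).toAdd) hc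
        simp only [Pi.one_apply, toAdd_one] at h6
        rw [Prod.snd_prod, Finset.prod_apply, toAdd_prod] at h6
        rw [Matrix.mulVec, dotProduct, Pi.zero_apply]
        rw [h6]
        refine Finset.sum_congr rfl fun j _ => ?_
        rw [Prod.pow_snd, Pi.pow_apply, toAb_snd, toAdd_zpow, Matrix.of_apply, smul_eq_mul,
          mul_comm]
      exact Matrix.eq_zero_of_mulVec_eq_zero hdet h5
    rw [h4] at hc
    simp only [Pi.zero_apply, zpow_zero, Finset.prod_const_one] at hc
    exact congrArg Prod.fst hc

end Solve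

/-- The map `A * ⟨t⟩ → G * ⟨t⟩` for a subgroup `A` of `G`. -/
def mapExt {A G : Type u} [Group A] [Group G] (f : A →* G) (n : ℕ) : FreeExt A n →* FreeExt G n :=
  Coprod.lift (Coprod.inl.comp f) Coprod.inr

@[simp] theorem mapExt_inl {A G : Type u} [Group A] [Group G] (f : A →* G) (n : ℕ) (a : A) :
    mapExt f n (Coprod.inl a) = Coprod.inl (f a) := by simp [mapExt]

@[simp] theorem mapExt_inr {A G : Type u} [Group A] [Group G] (f : A →* G) (n : ℕ)
    (x : FreeGroup (Fin n)) : mapExt f n (Coprod.inr x) = Coprod.inr x := by simp [mapExt]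

theorem expSum_mapExt {A G : Type u} [Group A] [Group G] (f : A →* G) (n : ℕ) (i : Fin n)
    (w : FreeExt A n) : expSum G i (mapExt f n w) = expSum A i w := by
  have : (expSum G i).comp (mapExt f n) = expSum A i := by
    apply Coprod.hom_ext
    · ext a; simp [expSum]
    · apply FreeGroup.ext_hom
      intro k; simp [expSum]
  exact DFunLike.congr_fun this w

theorem commuting_reflects (G : Type u) [Group G] (A : Subgroup G)
    (hA : ∀ x ∈ A, ∀ y ∈ A, x * y = y * x) (n : ℕ) (w : Fin n → FreeExt G n)
    (hw : ∀ j, w j ∈ Subgroup.closure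
      ((Coprod.inl : G →* FreeExt G n) '' (A : Set G) ∪ Set.range (unknown G)))
    (hdet : (Matrix.of fun i j => (expSum G i (w j)).toAdd : Matrix (Fin n) (Fin n) ℤ).det ≠ 0) :
    Reflects ((QuotientGroup.mk' (Subgroup.normalClosure (Set.range w))).comp
      (Coprod.inl : G →* FreeExt G n)) := by
  letI : CommGroup A := { (inferInstance : Group A) with
    mul_comm := fun x y => Subtype.ext (hA x x.2 y y.2) }
  -- pull the system back to `A * ⟨t⟩`
  have h1 : ∀ j, ∃ v : FreeExt A n, mapExt A.subtype n v = w j := by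
    intro j
    have : Subgroup.closure ((Coprod.inl : G →* FreeExt G n) '' (A : Set G) ∪
        Set.range (unknown G)) ≤ (mapExt A.subtype n).range := by
      rw [Subgroup.closure_le]
      rintro x (⟨g, hg, rfl⟩ | ⟨i, rfl⟩)
      · exact ⟨Coprod.inl ⟨g, hg⟩, by simp⟩
      · exact ⟨Coprod.inr (FreeGroup.of i), by simp [unknown]⟩
    exact this (hw j)
  choose v hv using h1
  have hdet' : (Matrix.of fun i j => (expSum A i (v j)).toAdd :
      Matrix (Fin n) (Fin n) ℤ).det ≠ 0 := by
    have : (Matrix.of fun i j => (expSum A i (v j)).toAdd : Matrix (Fin n) (Fin n) ℤ) =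
        Matrix.of fun i j => (expSum G i (w j)).toAdd := by
      ext i j
      simp only [Matrix.of_apply]
      rw [← hv j, expSum_mapExt]
    rw [this]; exact hdet
  obtain ⟨D, _, Φ, hΦ, hinj⟩ := exists_comm_solution A v hdet'
  set j : A →* D := Φ.comp Coprod.inl with hj
  let ρ := indMono j hinj A.subtype
  let Ψ : FreeExt G n →* Mono (D ⧸ j.range) G :=
    Coprod.lift (Mono.diag _ G) (FreeGroup.lift fun k => ρ (Φ (Coprod.inr (FreeGroup.of k))))
  have hΨ : Ψ.comp (mapExt A.subtype n) = ρ.comp Φ := by
    apply Coprod.hom_ext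
    · ext1 a
      simp only [MonoidHom.comp_apply, mapExt_inl, Ψ, Coprod.lift_apply_inl]
      exact (indMono_range j hinj A.subtype a).symm
    · apply FreeGroup.ext_hom
      intro k
      simp only [MonoidHom.comp_apply, mapExt_inr, Ψ, Coprod.lift_apply_inr,
        FreeGroup.lift_apply_of]
  have hΨw : ∀ i, Ψ (w i) = 1 := by
    intro i
    rw [← hv i]
    have := DFunLike.congr_fun hΨ (v i)
    simp only [MonoidHom.comp_apply] at this
    rw [this, hΦ i, map_one]
  have hker : Subgroup.normalClosure (Set.range w) ≤ Ψ.ker := by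
    apply Subgroup.normalClosure_le_normal
    rintro _ ⟨i, rfl⟩
    exact hΨw i
  have hfac : (QuotientGroup.lift (Subgroup.normalClosure (Set.range w)) Ψ
      (fun x hx => hker hx)).comp
      ((QuotientGroup.mk' (Subgroup.normalClosure (Set.range w))).comp
      (Coprod.inl : G →* FreeExt G n)) = Mono.diag (D ⧸ j.range) G := by
    ext1 g
    show Ψ (Coprod.inl g) = _
    simp [Ψ]
  apply Reflects.of_comp (ψ := QuotientGroup.lift (Subgroup.normalClosure (Set.range w)) Ψ
      (fun x hx => hker hx))
  rw [hfac]
  exact Mono.reflects_diag _ _ 1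

end Pool.Agent.H28
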