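import Mathlib

set_option autoImplicit false

/-!
Discrete trees through their distance function (0-hyperbolic median metrics), convex subsets and
nearest point projections.
-/

namespace Pool.Agent.H28

/-- The distance function of the vertex set of a tree. -/
structure TreeDist (X : Type*) where
  d : X → X → ℕ
  self : ∀ x, d x x = 0
  eq_of : ∀ x y, d x y = 0 → x = y
  symm : ∀ x y, d x y = d y x
  four : ∀ x y z w, d x y + d z w ≤ max (d x z + d y w) (d x w + d y z)
  med : ∀ x y z, ∃ m, d x m + d m y = d x y ∧ d x m + d m z = d x z ∧ d y m + d m z = d y z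
  interp : ∀ x y k, k ≤ d x y → ∃ z, d x z = k ∧ d x z + d z y = d x y

namespace TreeDist

variable {X : Type*} (T : TreeDist X)

/-- `z` lies between `x` and `y`. -/
def B (x z y : X) : Prop := T.d x z + T.d z y = T.d x y

theorem tri (x y z : X) : T.d x z ≤ T.d x y + T.d y z := by
  have h := T.four x z y y
  have h1 := T.self y
  have h2 := T.symm z y
  omega

theorem B_symm {x z y : X} (h : T.B x z y) : T.B y z x := by
  unfold B at *
  have h1 := T.symm x z
  have h2 := T.symm z y
  have h3 := T.symm x y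
  omega

theorem B_left (x y : X) : T.B x x y := by
  unfold B
  have := T.self x
  omega

theorem B_right (x y : X) : T.B x y y := by
  unfold B
  have := T.self y
  omega

/-- A point of `[x, y]` lies on `[x, w]` or on `[w, y]`. -/
theorem B_or {x z y : X} (h : T.B x z y) (w : X) : T.B x z w ∨ T.B w z y := by
  unfold B at *
  have h1 := T.four x y z w
  have h2 := T.tri x z w
  have h3 := T.tri w z y
  have h4 := T.symm w z
  have h5 := T.symm y w
  have h6 := T.symm y z
  omega

/-- Convex sets of vertices. -/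
def Convex (C : Set X) : Prop := ∀ x ∈ C, ∀ y ∈ C, ∀ z, T.B x z y → z ∈ C

/-- `p` is the nearest point of `C` to `v`. -/
def IsGate (C : Set X) (v p : X) : Prop := p ∈ C ∧ ∀ c ∈ C, T.B v p c

theorem exists_gate {C : Set X} (hC : T.Convex C) (hne : C.Nonempty) (v : X) :
    ∃ p, T.IsGate C v p := by
  classical
  have hex : ∃ n, ∃ p ∈ C, T.d v p = n := by
    obtain ⟨c, hc⟩ := hne
    exact ⟨_, c, hc, rfl⟩
  obtain ⟨p, hp, hpn⟩ := Nat.find_spec hex
  refine ⟨p, hp, fun c hc => ?_⟩
  obtain ⟨m, h1, h2, h3⟩ := T.med v p c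
  have hm : m ∈ C := hC p hp c hc m h3
  have hmin : T.d v p ≤ T.d v m := by
    rw [hpn]
    exact Nat.find_min' hex ⟨m, hm, rfl⟩
  have h0 : T.d m p = 0 := by omega
  have := T.eq_of _ _ h0
  subst this
  exact h2

theorem IsGate.unique {C : Set X} {v p q : X} (hp : T.IsGate C v p) (hq : T.IsGate C v q) :
    p = q := by
  have h1 := hp.2 q hq.1
  have h2 := hq.2 p hp.1
  unfold B at *
  have h3 := T.symm p q
  exact T.eq_of _ _ (by omega)

/-- The nearest point projection. -/
noncomputable def gate (C : Set X) (hC : T.Convex C) (hne : C.Nonempty) (v : X) : X :=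
  Classical.choose (T.exists_gate hC hne v)

theorem gate_isGate (C : Set X) (hC : T.Convex C) (hne : C.Nonempty) (v : X) :
    T.IsGate C v (T.gate C hC hne v) :=
  Classical.choose_spec (T.exists_gate hC hne v)

/-- If `D` meets `C` and `v ∈ D`, then the projection of `v` to `C` lies in `D`. -/
theorem IsGate.mem_of_inter {C D : Set X} (hD : T.Convex D) {v p c : X} (hp : T.IsGate C v p)
    (hv : v ∈ D) (hc : c ∈ C) (hcD : c ∈ D) : p ∈ D :=
  hD v hv c hcD p (hp.2 c hc)

theorem IsGate.of_mem {C : Set X} {v p : X} (hp : T.IsGate C v p) (hv : v ∈ C) : p = v := by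
  have h := hp.2 v hv
  unfold B at h
  have h1 := T.self v
  exact (T.eq_of _ _ (by omega)).symm

/-- Distinct projections. -/
theorem IsGate.dist_eq {C : Set X} {x y p q : X} (hp : T.IsGate C x p) (hq : T.IsGate C y q)
    (hne : p ≠ q) : T.d x y = T.d x p + T.d p q + T.d q y := by
  have h1 := hp.2 q hq.1
  have h2 := hq.2 p hp.1
  have h3 : T.d p q ≠ 0 := fun h => hne (T.eq_of _ _ h)
  have h4 := T.four x q y p
  have h5 := T.tri x p q
  have h6 := T.tri x p y
  have h7 := T.tri p q y
  have h8 := T.symm y p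
  have h9 := T.symm y q
  have h10 := T.symm p q
  have h11 := T.symm x y
  unfold B at *
  omega

theorem IsGate.between {C : Set X} {x y p q : X} (hp : T.IsGate C x p) (hq : T.IsGate C y q)
    (hne : p ≠ q) : T.B x p y ∧ T.B x q y := by
  have h := hp.dist_eq T hq hne
  have h1 := T.tri p q y
  have h2 := T.tri x p q
  have h3 := T.tri x p y
  have h4 := T.tri x q y
  unfold B
  omega

/-- Three pairwise intersecting convex sets have a common point. -/
theorem helly {C D E : Set X} (hC : T.Convex C) (hD : T.Convex D) (hE : T.Convex E) {x y z : X}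
    (hx : x ∈ C ∧ x ∈ D) (hy : y ∈ D ∧ y ∈ E) (hz : z ∈ C ∧ z ∈ E) :
    ∃ m, m ∈ C ∧ m ∈ D ∧ m ∈ E := by
  obtain ⟨m, h1, h2, h3⟩ := T.med x y z
  exact ⟨m, hC x hx.1 z hz.1 m h2, hD x hx.2 y hy.1 m h1, hE y hy.2 z hz.2 m h3⟩

/-- The `n`-neighbourhood of `W`. -/
def nbhd (n : ℕ) (W : Set X) : Set X := {x | ∃ w ∈ W, T.d x w ≤ n}

theorem subset_nbhd (n : ℕ) (W : Set X) : W ⊆ T.nbhd n W := fun x hx => ⟨x, hx, by
  rw [T.self]; exact Nat.zero_le _⟩

theorem convex_nbhd {W : Set X} (hW : T.Convex W) (n : ℕ) : T.Convex (T.nbhd n W) := by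
  rintro x ⟨w, hw, hxw⟩ y ⟨w', hw', hyw'⟩ z hz
  rcases T.B_or hz w' with h | h
  · rcases T.B_or h w with h1 | h1
    · refine ⟨w, hw, ?_⟩
      unfold B at h1
      omega
    · exact T.subset_nbhd n W (hW w hw w' hw' z h1)
  · refine ⟨w', hw', ?_⟩
    have h2 := T.symm w' z
    have h3 := T.symm y w'
    unfold B at h
    omega

end TreeDist

end Pool.Agent.H28
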