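import Mathlib
import Pool.Agent.H28.TreeMetric

set_option autoImplicit false

/-!
The Cayley tree of a free group.
-/

namespace Pool.Agent.H28

section lcp

variable {β : Type*} [DecidableEq β]

/-- Length of the longest common prefix. -/
def lcp : List β → List β → ℕ
  | a :: l, b :: m => if a = b then lcp l m + 1 else 0
  | [], _ => 0
  | _ :: _, [] => 0

theorem lcp_nil_left (l : List β) : lcp [] l = 0 := by
  cases l <;> rfl

theorem lcp_nil_right (l : List β) : lcp l [] = 0 := by
  cases l <;> rfl

theorem lcp_symm : ∀ (l m : List β), lcp l m = lcp m l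
  | a :: l, b :: m => by
    simp only [lcp]
    by_cases h : a = b
    · subst h
      simp [lcp_symm l m]
    · rw [if_neg h, if_neg (Ne.symm h)]
  | [], m => by rw [lcp_nil_left, lcp_nil_right]
  | a :: l, [] => by rw [lcp_nil_left, lcp_nil_right]

theorem lcp_le_left : ∀ (l m : List β), lcp l m ≤ l.length
  | a :: l, b :: m => by
    simp only [lcp]
    have := lcp_le_left l m
    split_ifs
    · simp only [List.length_cons]; omega
    · exact Nat.zero_le _
  | [], m => by rw [lcp_nil_left]; exact Nat.zero_le _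
  | a :: l, [] => by rw [lcp_nil_right]; exact Nat.zero_le _

theorem lcp_le_right (l m : List β) : lcp l m ≤ m.length := by
  rw [lcp_symm]; exact lcp_le_left m l

theorem lcp_ultra : ∀ (l m k : List β), min (lcp l m) (lcp m k) ≤ lcp l k
  | a :: l, b :: m, c :: k => by
    simp only [lcp]
    have := lcp_ultra l m k
    by_cases h1 : a = b
    · subst h1
      by_cases h2 : a = c
      · subst h2
        simp only [if_true]
        omega
      · simp [h2]
    · simp [h1]
  | [], m, k => by rw [lcp_nil_left]; simp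
  | a :: l, [], k => by rw [lcp_nil_right]; simp
  | a :: l, b :: m, [] => by rw [lcp_nil_right (b :: m)]; simp

theorem take_lcp : ∀ (l m : List β), l.take (lcp l m) = m.take (lcp l m)
  | a :: l, b :: m => by
    simp only [lcp]
    by_cases h : a = b
    · subst h
      simp [take_lcp l m]
    · simp [h]
  | [], m => by rw [lcp_nil_left]; simp
  | a :: l, [] => by rw [lcp_nil_right]; simp

theorem lcp_self : ∀ l : List β, lcp l l = l.length
  | [] => rfl
  | a :: l => by simp [lcp, lcp_self l]

theorem lcp_take : ∀ (l : List β) (n : ℕ), lcp (l.take n) l = min n l.length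
  | [], n => by simp [lcp_nil_right]
  | a :: l, 0 => by simp [lcp_nil_left]
  | a :: l, n + 1 => by
    simp only [List.take_succ_cons, lcp, if_true, lcp_take l n, List.length_cons]
    omega

end lcp

section free

variable {α : Type*} [DecidableEq α]

open FreeGroup

theorem norm_mk_of_reduced {L : List (α × Bool)} (h : FreeGroup.IsReduced L) :
    (FreeGroup.mk L).norm = L.length := by
  rw [FreeGroup.norm, toWord_mk, h.reduce_eq]

theorem isReduced_invRev_append : ∀ (L M : List (α × Bool)), IsReduced L → IsReduced M →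
    (∀ a ∈ L.head?, ∀ b ∈ M.head?, a ≠ b) → IsReduced (invRev L ++ M) := by
  intro L M hL hM h
  unfold FreeGroup.IsReduced at *
  rw [List.isChain_append]
  refine ⟨?_, hM, ?_⟩
  · have h1 : IsReduced (FreeGroup.invRev L) := by
      have h2 : (FreeGroup.mk L).toWord = L := by rw [toWord_mk]; exact IsReduced.reduce_eq hL
      have h3 : ((FreeGroup.mk L)⁻¹).toWord = invRev L := by rw [toWord_inv, h2]
      rw [← h3]
      exact isReduced_toWord
    exact h1
  · intro a ha b hb hab
    rcases L with _ | ⟨c, L⟩
    · simp [invRev] at ha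
    · have ha' : a = (c.1, !c.2) := by
        simp [invRev] at ha
        exact ha.symm
      subst ha'
      have hne := h c (by simp) b hb
      simp only at hab ⊢
      by_contra hcon
      apply hne
      refine Prod.ext hab ?_
      revert hcon
      cases c.2 <;> cases b.2 <;> simp

theorem norm_inv_mul_mk : ∀ (L M : List (α × Bool)), IsReduced L → IsReduced M →
    ((FreeGroup.mk L)⁻¹ * FreeGroup.mk M).norm + 2 * lcp L M = L.length + M.length
  | a :: L, b :: M, hL, hM => by
    by_cases hab : a = b
    · subst hab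
      have hL' : IsReduced L := by
        unfold FreeGroup.IsReduced at *
        exact hL.tail
      have hM' : IsReduced M := by
        unfold FreeGroup.IsReduced at *
        exact hM.tail
      have ih := norm_inv_mul_mk L M hL' hM'
      have e : (FreeGroup.mk (a :: L))⁻¹ * FreeGroup.mk (a :: M) =
          (FreeGroup.mk L)⁻¹ * FreeGroup.mk M := by
        have h1 : FreeGroup.mk (a :: L) = FreeGroup.mk [a] * FreeGroup.mk L := by
          rw [mul_mk]; rfl
        have h2 : FreeGroup.mk (a :: M) = FreeGroup.mk [a] * FreeGroup.mk M := by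
          rw [mul_mk]; rfl
        rw [h1, h2]
        group
      rw [e]
      simp only [lcp, if_true, List.length_cons]
      omega
    · have h1 : IsReduced (invRev (a :: L) ++ (b :: M)) := by
        apply isReduced_invRev_append _ _ hL hM
        intro x hx y hy
        simp at hx hy
        subst hx; subst hy
        exact hab
      rw [inv_mk, mul_mk, norm_mk_of_reduced h1]
      simp only [lcp, if_neg hab, List.length_append, invRev_length]
      omega
  | [], M, hL, hM => by
    rw [lcp_nil_left, ← one_eq_mk, inv_one, one_mul, norm_mk_of_reduced hM]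
    simp
  | a :: L, [], hL, hM => by
    rw [lcp_nil_right, ← one_eq_mk, mul_one, norm_inv_eq, norm_mk_of_reduced hL]
    simp

theorem norm_inv_mul (x y : FreeGroup α) :
    (x⁻¹ * y).norm + 2 * lcp x.toWord y.toWord = x.norm + y.norm := by
  have h := norm_inv_mul_mk x.toWord y.toWord isReduced_toWord isReduced_toWord
  rw [mk_toWord, mk_toWord] at h
  exact h

theorem four_one (x y z : FreeGroup α) :
    (x⁻¹ * y).norm + z.norm ≤ max ((x⁻¹ * z).norm + y.norm) (x.norm + (y⁻¹ * z).norm) := by
  have h1 := norm_inv_mul x y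
  have h2 := norm_inv_mul x z
  have h3 := norm_inv_mul y z
  have h4 := lcp_ultra x.toWord z.toWord y.toWord
  rw [lcp_symm z.toWord] at h4
  omega

theorem isReduced_take {L : List (α × Bool)} (h : FreeGroup.IsReduced L) (n : ℕ) : IsReduced (L.take n) := by
  unfold FreeGroup.IsReduced at *
  exact h.take n

/-- The prefix of length `n`. -/
theorem exists_prefix (y : FreeGroup α) (n : ℕ) (hn : n ≤ y.norm) :
    ∃ z : FreeGroup α, z.toWord = y.toWord.take n ∧ z.norm = n ∧
      z.norm + (z⁻¹ * y).norm = y.norm := by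
  have hr : IsReduced (y.toWord.take n) := isReduced_take isReduced_toWord n
  have hw : (FreeGroup.mk (y.toWord.take n)).toWord = y.toWord.take n := by
    rw [toWord_mk, hr.reduce_eq]
  refine ⟨FreeGroup.mk (y.toWord.take n), hw, ?_, ?_⟩
  · rw [norm_mk_of_reduced hr, List.length_take]
    exact min_eq_left hn
  · have h1 := norm_inv_mul (FreeGroup.mk (y.toWord.take n)) y
    rw [hw, lcp_take] at h1
    have h2 : (FreeGroup.mk (y.toWord.take n)).norm = n := by
      rw [norm_mk_of_reduced hr, List.length_take]
      exact min_eq_left hn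
    have h3 : min n y.toWord.length = n := min_eq_left hn
    omega

theorem med_one (x y : FreeGroup α) : ∃ m : FreeGroup α,
    (x⁻¹ * m).norm + (m⁻¹ * y).norm = (x⁻¹ * y).norm ∧
    m.norm + (m⁻¹ * x).norm = x.norm ∧ m.norm + (m⁻¹ * y).norm = y.norm := by
  have hx : lcp x.toWord y.toWord ≤ x.norm := lcp_le_left _ _
  have hy : lcp x.toWord y.toWord ≤ y.norm := lcp_le_right _ _
  obtain ⟨m, hm1, hm2, hm3⟩ := exists_prefix x _ hx
  obtain ⟨m', hm1', hm2', hm3'⟩ := exists_prefix y _ hy
  have e : m = m' := by
    apply toWord_injective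
    rw [hm1, hm1', take_lcp]
  subst e
  refine ⟨m, ?_, hm3, hm3'⟩
  have h := norm_inv_mul x y
  have h1 : (x⁻¹ * m).norm = (m⁻¹ * x).norm := by
    rw [← norm_inv_eq (x := m⁻¹ * x)]
    simp
  omega

/-- The word metric of a free group. -/
def freeDist (α : Type*) [DecidableEq α] : TreeDist (FreeGroup α) where
  d x y := (x⁻¹ * y).norm
  self x := by simp
  eq_of x y h := by
    rw [FreeGroup.norm_eq_zero] at h
    exact (inv_mul_eq_one.mp h)
  symm x y := by
    rw [← norm_inv_eq (x := x⁻¹ * y)]
    simp
  four x y z w := by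
    have h := four_one (w⁻¹ * x) (w⁻¹ * y) (w⁻¹ * z)
    have e : ∀ a b : FreeGroup α, (w⁻¹ * a)⁻¹ * (w⁻¹ * b) = a⁻¹ * b := by
      intro a b; group
    rw [e, e, e] at h
    have h1 : (w⁻¹ * z).norm = (z⁻¹ * w).norm := by
      rw [← norm_inv_eq (x := z⁻¹ * w)]; simp
    have h2 : (w⁻¹ * y).norm = (y⁻¹ * w).norm := by
      rw [← norm_inv_eq (x := y⁻¹ * w)]; simp
    have h3 : (w⁻¹ * x).norm = (x⁻¹ * w).norm := by
      rw [← norm_inv_eq (x := x⁻¹ * w)]; simp
    rw [h1, h2, h3] at h
    exact h
  med x y z := by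
    obtain ⟨m, h1, h2, h3⟩ := med_one (z⁻¹ * x) (z⁻¹ * y)
    refine ⟨z * m, ?_, ?_, ?_⟩
    · have e1 : (z⁻¹ * x)⁻¹ * m = x⁻¹ * (z * m) := by group
      have e2 : m⁻¹ * (z⁻¹ * y) = (z * m)⁻¹ * y := by group
      have e3 : (z⁻¹ * x)⁻¹ * (z⁻¹ * y) = x⁻¹ * y := by group
      rw [e1, e2, e3] at h1
      exact h1
    · have e1 : (x⁻¹ * (z * m)).norm = (m⁻¹ * (z⁻¹ * x)).norm := by
        rw [← norm_inv_eq]; congr 1; group
      have e2 : ((z * m)⁻¹ * z).norm = m.norm := by
        rw [← norm_inv_eq]; congr 1; group
      have e3 : (x⁻¹ * z).norm = (z⁻¹ * x).norm := by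
        rw [← norm_inv_eq]; congr 1; group
      rw [e1, e2, e3]
      omega
    · have e1 : (y⁻¹ * (z * m)).norm = (m⁻¹ * (z⁻¹ * y)).norm := by
        rw [← norm_inv_eq]; congr 1; group
      have e2 : ((z * m)⁻¹ * z).norm = m.norm := by
        rw [← norm_inv_eq]; congr 1; group
      have e3 : (y⁻¹ * z).norm = (z⁻¹ * y).norm := by
        rw [← norm_inv_eq]; congr 1; group
      rw [e1, e2, e3]
      omega
  interp x y k hk := by
    obtain ⟨z, _, h1, h2⟩ := exists_prefix (x⁻¹ * y) k hk
    refine ⟨x * z, ?_, ?_⟩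
    · have e : x⁻¹ * (x * z) = z := by group
      rw [e, h1]
    · have e1 : x⁻¹ * (x * z) = z := by group
      have e2 : (x * z)⁻¹ * y = z⁻¹ * (x⁻¹ * y) := by group
      rw [e1, e2]
      exact h2

theorem freeDist_mul (f x y : FreeGroup α) :
    (freeDist α).d (f * x) (f * y) = (freeDist α).d x y := by
  show ((f * x)⁻¹ * (f * y)).norm = (x⁻¹ * y).norm
  congr 1
  group

end free

end Pool.Agent.H28
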