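import Mathlib
import Pool.Agent.H28.Dep

set_option autoImplicit false
open scoped TensorProduct

namespace Pool.Agent.H28

/-- the first homology of `G` with coefficients in `ZMod p`. -/
abbrev HP (p : ℕ) (G : Type*) [Group G] : Type _ := Additive (Abelianization G) ⊗[ℤ] ZMod p

/-- the map induced by the inclusion of a subgroup. -/
noncomputable abbrev hmap (p : ℕ) {G : Type*} [Group G] (S : Subgroup G) : HP p S →ₗ[ℤ] HP p G :=
  LinearMap.rTensor (ZMod p)
    (AddMonoidHom.toIntLinearMap (MonoidHom.toAdditive (Abelianization.map S.subtype)))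

section

variable {p : ℕ} {G : Type*} [Group G]

/-- the class of an element. -/
noncomputable def hcls (p : ℕ) {G : Type*} [Group G] (x : G) : HP p G :=
  (Additive.ofMul (Abelianization.of x)) ⊗ₜ[ℤ] (1 : ZMod p)

theorem hcls_mul (x y : G) : hcls p (x * y) = hcls p x + hcls p y := by
  unfold hcls
  rw [map_mul, ofMul_mul, TensorProduct.add_tmul]

theorem HP_smul (x : HP p G) : p • x = 0 := by
  induction x using TensorProduct.induction_on with
  | zero => simp
  | tmul a l =>
    rw [← TensorProduct.tmul_smul]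
    simp
  | add x y hx hy => rw [smul_add, hx, hy, add_zero]

theorem hmap_hcls (S : Subgroup G) (s : S) : hmap p S (hcls p s) = hcls p (s : G) := by
  exact LinearMap.rTensor_tmul _ _ _ _

/-- the classes span. -/
theorem HP_induction {P : HP p G → Prop} (hp : p ≠ 0) (h0 : P 0) (h1 : ∀ x : G, P (hcls p x))
    (hadd : ∀ x y, P x → P y → P (x + y)) (x : HP p G) : P x := by
  have : NeZero p := ⟨hp⟩
  have hnsmul : ∀ (k : ℕ) (x : HP p G), P x → P (k • x) := by
    intro k x hx
    induction k with
    | zero => simpa using h0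
    | succ k ih => rw [succ_nsmul]; exact hadd _ _ ih hx
  induction x using TensorProduct.induction_on with
  | zero => exact h0
  | tmul a l =>
    obtain ⟨y, hy⟩ : ∃ y : G, Additive.ofMul (Abelianization.of y) = a := by
      obtain ⟨y, hy⟩ := Quot.exists_rep (Additive.toMul a)
      refine ⟨y, ?_⟩
      rw [Abelianization.mk_eq_of] at hy
      rw [hy]
      rfl
    have h2 : a ⊗ₜ[ℤ] l = l.val • hcls p y := by
      unfold hcls
      rw [← TensorProduct.tmul_smul, hy]
      congr 1
      rw [nsmul_eq_mul, ZMod.natCast_zmod_val, mul_one]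
    rw [h2]
    exact hnsmul _ _ (h1 y)
  | add x y hx hy => exact hadd _ _ hx hy

/-- the functional of a homomorphism. -/
noncomputable def hfun (ψ : G →* Multiplicative (ZMod p)) : HP p G →+ ZMod p :=
  (TensorProduct.lift ((LinearMap.mul ℤ (ZMod p)).comp
    (AddMonoidHom.toIntLinearMap (MonoidHom.toAdditiveLeft (Abelianization.lift ψ))))).toAddMonoidHom

theorem hfun_hcls (ψ : G →* Multiplicative (ZMod p)) (x : G) :
    hfun ψ (hcls p x) = (ψ x).toAdd := by
  unfold hfun hcls
  simp

theorem hfun_comp (S : Subgroup G) (ψ : S →* Multiplicative (ZMod p))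
    (Ψ : G →* Multiplicative (ZMod p)) (h : ∀ s : S, Ψ s = ψ s) (hp : p ≠ 0) (x : HP p S) :
    hfun ψ x = hfun Ψ (hmap p S x) := by
  refine HP_induction (P := fun x => hfun ψ x = hfun Ψ (hmap p S x)) hp ?_ ?_ ?_ x
  · simp
  · intro s
    rw [hfun_hcls, hmap_hcls, hfun_hcls, h]
  · intro x y hx hy
    rw [map_add, map_add, map_add, hx, hy]

/-- the homomorphism of a functional. -/
noncomputable def homOf (φ : HP p G →+ ZMod p) : G →* Multiplicative (ZMod p) where
  toFun x := Multiplicative.ofAdd (φ (hcls p x))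
  map_one' := by
    have h1 := hcls_mul (p := p) (1 : G) 1
    rw [mul_one] at h1
    have h2 : hcls p (1 : G) = 0 := by
      have h3 : hcls p (1 : G) + 0 = hcls p (1 : G) + hcls p (1 : G) := by rw [add_zero]; exact h1
      exact (add_left_cancel h3).symm
    rw [h2, map_zero]
    rfl
  map_mul' x y := by
    rw [hcls_mul, map_add]
    rfl

theorem hfun_homOf (φ : HP p G →+ ZMod p) (hp : p ≠ 0) (x : HP p G) :
    hfun (homOf φ) x = φ x := by
  refine HP_induction (P := fun x => hfun (homOf φ) x = φ x) hp ?_ ?_ ?_ x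
  · simp
  · intro s
    rw [hfun_hcls]
    rfl
  · intro x y hx hy
    rw [map_add, map_add, hx, hy]

end

section Elem

variable {p : ℕ} {V V' : Type*} [AddCommGroup V] [AddCommGroup V']

theorem elem_leftInv' [Fact p.Prime] [Module (ZMod p) V] [Module (ZMod p) V']
    (f : V →+ V') (hf : Function.Injective f) : ∃ g : V' →+ V, ∀ x, g (f x) = x := by
  obtain ⟨g, hg⟩ := LinearMap.exists_leftInverse_of_injective (f.toZModLinearMap p)
    (LinearMap.ker_eq_bot.2 hf)
  exact ⟨g.toAddMonoidHom, fun x => LinearMap.congr_fun hg x⟩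

theorem elem_sep' [Fact p.Prime] [Module (ZMod p) V] (x : V)
    (h : ∀ φ : V →+ ZMod p, φ x = 0) : x = 0 := by
  refine (Module.forall_dual_apply_eq_zero_iff (ZMod p) x).1 ?_
  intro φ
  exact h φ.toAddMonoidHom

theorem elem_surj' [Fact p.Prime] [Module (ZMod p) V] [Module (ZMod p) V']
    (f : V →+ V') (h : ∀ φ : V' →+ ZMod p, (∀ x, φ (f x) = 0) → φ = 0) :
    Function.Surjective f := by
  have hs : LinearMap.range (f.toZModLinearMap p) = ⊤ := by
    by_contra hne
    obtain ⟨φ, hφ0, hφ⟩ := Submodule.exists_le_ker_of_lt_top _ (lt_top_iff_ne_top.2 hne)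
    apply hφ0
    have h1 := h φ.toAddMonoidHom (fun x => hφ ⟨x, rfl⟩)
    ext x
    exact DFunLike.congr_fun h1 x
  exact LinearMap.range_eq_top.1 hs

theorem elem_leftInv (hp : p.Prime) (hV : ∀ x : V, p • x = 0) (hV' : ∀ x : V', p • x = 0)
    (f : V →+ V') (hf : Function.Injective f) : ∃ g : V' →+ V, ∀ x, g (f x) = x :=
  have : Fact p.Prime := ⟨hp⟩
  let _ : Module (ZMod p) V := AddCommGroup.zmodModule hV
  let _ : Module (ZMod p) V' := AddCommGroup.zmodModule hV'
  elem_leftInv' (p := p) f hf

theorem elem_sep (hp : p.Prime) (hV : ∀ x : V, p • x = 0) (x : V)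
    (h : ∀ φ : V →+ ZMod p, φ x = 0) : x = 0 :=
  have : Fact p.Prime := ⟨hp⟩
  let _ : Module (ZMod p) V := AddCommGroup.zmodModule hV
  elem_sep' (p := p) x h

theorem elem_surj (hp : p.Prime) (hV : ∀ x : V, p • x = 0) (hV' : ∀ x : V', p • x = 0)
    (f : V →+ V') (h : ∀ φ : V' →+ ZMod p, (∀ x, φ (f x) = 0) → φ = 0) :
    Function.Surjective f :=
  have : Fact p.Prime := ⟨hp⟩
  let _ : Module (ZMod p) V := AddCommGroup.zmodModule hV
  let _ : Module (ZMod p) V' := AddCommGroup.zmodModule hV'
  elem_surj' (p := p) f h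

end Elem

section

variable {p : ℕ} {G : Type*} [Group G]

theorem extP_of_injective (hp : p.Prime) (S : Subgroup G)
    (h : Function.Injective (hmap p S)) : ExtP p S := by
  obtain ⟨g, hg⟩ := elem_leftInv hp (HP_smul (p := p) (G := S)) (HP_smul (p := p) (G := G))
    (hmap p S).toAddMonoidHom h
  intro ψ
  refine ⟨homOf ((hfun ψ).comp g), fun s => ?_⟩
  show Multiplicative.ofAdd (hfun ψ (g (hcls p (s : G)))) = ψ s
  rw [← hmap_hcls]
  have h2 : g (hmap p S (hcls p s)) = hcls p s := hg (hcls p s)
  rw [h2, hfun_hcls]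
  rfl

theorem injective_of_extP (hp : p.Prime) (S : Subgroup G) (h : ExtP p S) :
    Function.Injective (hmap p S) := by
  rw [injective_iff_map_eq_zero]
  intro x hx
  apply elem_sep hp (HP_smul (p := p) (G := S))
  intro φ
  obtain ⟨Ψ, hΨ⟩ := h (homOf φ)
  have h1 := hfun_comp S (homOf φ) Ψ hΨ hp.ne_zero x
  rw [hx, map_zero, hfun_homOf _ hp.ne_zero] at h1
  exact h1

theorem surjective_of_uniqP (hp : p.Prime) (S : Subgroup G) (h : UniqP p S) :
    Function.Surjective (hmap p S) := by
  refine elem_surj hp (HP_smul (p := p) (G := S)) (HP_smul (p := p) (G := G))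
    (hmap p S).toAddMonoidHom ?_
  intro φ hφ
  have h1 : homOf φ = 1 := by
    apply h
    intro s
    show Multiplicative.ofAdd (φ (hcls p (s : G))) = 1
    have h3 := hφ (hcls p s)
    have h4 : (hmap p S).toAddMonoidHom (hcls p s) = hcls p (s : G) := hmap_hcls S s
    rw [h4] at h3
    rw [h3]
    rfl
  ext x
  have h2 := hfun_homOf φ hp.ne_zero x
  have h3 : hfun (1 : G →* Multiplicative (ZMod p)) x = 0 := by
    refine HP_induction (P := fun x => hfun (1 : G →* Multiplicative (ZMod p)) x = 0)
      hp.ne_zero ?_ ?_ ?_ x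
    · simp
    · intro s
      rw [hfun_hcls]
      rfl
    · intro x y hx hy
      rw [map_add, hx, hy, add_zero]
  rw [h1, h3] at h2
  exact h2.symm

end

end Pool.Agent.H28
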