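import Mathlib
import Pool.Agent.H28.Closed

set_option autoImplicit false

namespace Pool.Agent.H28

open MulAction

universe u

theorem dependent_of_comm {G : Type*} [Group G] (hcomm : ∀ x y : G, x * y = y * x)
    (S : Subgroup G) {n : ℕ} (a : S) (g : Fin n → S)
    (h : Dependent (a : G) (fun i => (g i : G))) : Dependent a g := by
  obtain ⟨c, hc⟩ := h
  refine ⟨fun _ => 1, ?_⟩
  apply Subtype.ext
  have h1 : (((List.ofFn (fun i => (1 : S) * g i * (1 : S)⁻¹)).prod : S) : G) =
      (List.ofFn (fun i => (g i : G))).prod := by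
    show S.subtype _ = _
    rw [map_list_prod, List.map_ofFn]
    congr 2
    funext i
    simp
  rw [h1, hc]
  congr 2
  funext i
  rw [hcomm (c i), mul_inv_cancel_right]

theorem freeGroup_comm {k : ℕ} (hk : k ≤ 1) (x y : FreeGroup (Fin k)) : x * y = y * x := by
  have hsub : Subsingleton (Fin k) := by
    rw [Fin.subsingleton_iff_le_one]
    exact hk
  rcases isEmpty_or_nonempty (Fin k) with h0 | h0
  · exact Subsingleton.elim _ _
  · obtain ⟨i⟩ := h0
    have : Unique (Fin k) := ⟨⟨i⟩, fun j => Subsingleton.elim _ _⟩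
    have h3 : FreeGroup (Fin k) ≃* Multiplicative ℤ := by
      exact FreeGroup.mulEquivIntOfUnique
    apply h3.injective
    rw [map_mul, map_mul, mul_comm]

/-- the case of one conjugate. -/
theorem conj_case {G : Type u} [Group G] [IsFreeGroup G] {p : ℕ} (hp : p.Prime)
    (S : Subgroup G) (hS : ExtP p S) (a g : S) (c : G) (h : (a : G) = c * g * c⁻¹) :
    ∃ s : S, a = s * g * s⁻¹ := by
  have h1 : Dependent (a : G) (fun _ : Fin 1 => (g : G)) := ⟨fun _ => c, by simpa using h⟩
  obtain ⟨s, hs⟩ := core hp (fun k hk => by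
    intro S' _ _ a' g' _ hdep
    exact dependent_of_comm (freeGroup_comm hk) S' a' g' hdep) S hS a (fun _ => g) h1
  exact ⟨s 0, by simpa using hs⟩

section Induced

variable {G ι Ω A : Type*} [Group G] [MulAction G Ω] [AddCommGroup A]

/-- a cocycle of a subgroup `E` on `Ω` induces a cocycle of `G` on `Ω × G ⧸ E`. -/
theorem exists_coc_induced (E : Subgroup G) (d : Ω → E → A) (hd : IsCoc d) :
    ∃ δ : Ω × (G ⧸ E) → G → A, IsCoc δ ∧
      ∀ w (x : E), δ (w, ((1 : G) : G ⧸ E)) (x : G) = d w x := by
  classical
  let τ : G ⧸ E → G := fun u => if u = ((1 : G) : G ⧸ E) then 1 else Quotient.out u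
  have hτ : ∀ u, ((τ u : G) : G ⧸ E) = u := by
    intro u
    by_cases h : u = ((1 : G) : G ⧸ E)
    · simp only [τ, if_pos h]
      exact h.symm
    · simp only [τ, if_neg h]
      exact QuotientGroup.out_eq' u
  have hτ1 : τ ((1 : G) : G ⧸ E) = 1 := by simp only [τ, if_pos rfl]
  have hmem : ∀ (g : G) (u : G ⧸ E), (τ (g • u))⁻¹ * g * τ u ∈ E := by
    intro g u
    have h1 : ((τ (g • u) : G) : G ⧸ E) = ((g * τ u : G) : G ⧸ E) := by
      rw [hτ]
      show g • u = g • ((τ u : G) : G ⧸ E)
      rw [hτ]
    rw [QuotientGroup.eq] at h1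
    rw [mul_assoc]
    exact h1
  refine ⟨fun x g => d ((τ x.2)⁻¹ • x.1) ⟨(τ (g • x.2))⁻¹ * g * τ x.2, hmem g x.2⟩, ?_, ?_⟩
  · rintro ⟨w, u⟩ s t
    simp only [Prod.smul_mk]
    have h1 : (⟨(τ ((s * t) • u))⁻¹ * (s * t) * τ u, hmem (s * t) u⟩ : E) =
        ⟨(τ (s • t • u))⁻¹ * s * τ (t • u), hmem s (t • u)⟩ *
          ⟨(τ (t • u))⁻¹ * t * τ u, hmem t u⟩ := by
      apply Subtype.ext
      show (τ ((s * t) • u))⁻¹ * (s * t) * τ u =
        ((τ (s • t • u))⁻¹ * s * τ (t • u)) * ((τ (t • u))⁻¹ * t * τ u)
      rw [mul_smul]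
      group
    rw [h1, hd]
    congr 2
    show ((τ (t • u))⁻¹ * t * τ u) • (τ u)⁻¹ • w = _
    rw [mul_smul, mul_smul, smul_inv_smul]
  · intro w x
    have hx : (x : G) • ((1 : G) : G ⧸ E) = ((1 : G) : G ⧸ E) := by
      show ((x * 1 : G) : G ⧸ E) = ((1 : G) : G ⧸ E)
      rw [QuotientGroup.eq, mul_one, mul_one]
      exact E.inv_mem x.2
    simp only [hx, hτ1, inv_one, one_smul, one_mul, mul_one]

end Induced

section Split

variable {G : Type u} [Group G] {ι β Ω : Type*} [MulAction G Ω] {p : ℕ}

/-- the core of the free product case: `X i` lies in the `i`-th free factor of `E`, `X i` fixes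
`ω i`, and `∏ X i` fixes `o`; then all `X i` fix `o`. -/
theorem split_fix (hp : p.Prime) (b : FreeGroupBasis ι G) (E : Subgroup G)
    (hE : Inj (ZMod p) b Ω E) (bE : FreeGroupBasis β E) {n : ℕ} (lam : β → Fin n)
    (X : Fin n → E) (hX : ∀ i, X i ∈ Subgroup.closure (bE '' {k | lam k = i}))
    (ω : Fin n → Ω) (hω : ∀ i, (X i : G) • ω i = ω i) (o : Ω)
    (ho : (((List.ofFn X).prod : E) : G) • o = o) : ∀ i, (X i : G) • o = o := by
  classical
  have : Fact p.Prime := ⟨hp⟩
  have hnt : (1 : ZMod p) ≠ 0 := one_ne_zero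
  let e0 : G ⧸ E := ((1 : G) : G ⧸ E)
  have hfix : ∀ e ∈ E, e • e0 = e0 := by
    intro e he
    show ((e * 1 : G) : G ⧸ E) = ((1 : G) : G ⧸ E)
    rw [QuotientGroup.eq, mul_one, mul_one]
    exact E.inv_mem he
  -- the chain identity
  let φE : E →* Multiplicative (((G ⧸ E) × ι) →₀ ZMod p) :=
    { toFun := fun e => Multiplicative.ofAdd (pth (ZMod p) b e0 (e : G))
      map_one' := by simp [(isCoc_pth b).one]
      map_mul' := by
        intro s t
        rw [Subgroup.coe_mul, isCoc_pth b, hfix _ t.2, add_comm]
        rfl }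
  let c : ((Ω × G ⧸ E) × ι) →₀ ZMod p :=
    (∑ i, pth (ZMod p) b (ω i, e0) (X i : G)) -
      pth (ZMod p) b (o, e0) (((List.ofFn X).prod : E) : G)
  have hc1 : bd (ZMod p) b c = 0 := by
    simp only [c, map_sub, map_sum, bd_pth, Prod.smul_mk, hω, ho, hfix _ (X _).2,
      hfix _ ((List.ofFn X).prod).2, sub_self, Finset.sum_const_zero]
  have hc2 : c.mapDomain (Prod.map Prod.snd id) = 0 := by
    have h1 : c.mapDomain (Prod.map Prod.snd id) =
        (∑ i, pth (ZMod p) b e0 (X i : G)) -
          pth (ZMod p) b e0 (((List.ofFn X).prod : E) : G) := by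
      show Finsupp.lmapDomain (ZMod p) (ZMod p) (Prod.map Prod.snd id) c = _
      simp only [c, map_sub, map_sum, Finsupp.lmapDomain_apply]
      rw [pth_map b Prod.snd (fun g w => rfl)]
      congr 1
      apply Finset.sum_congr rfl
      intro i _
      rw [pth_map b Prod.snd (fun g w => rfl)]
    rw [h1]
    have h2 : φE (List.ofFn X).prod = (List.ofFn (fun i => φE (X i))).prod := by
      rw [map_list_prod, List.map_ofFn]
      rfl
    rw [List.prod_ofFn] at h2
    have h3 := congrArg Multiplicative.toAdd h2
    rw [toAdd_prod] at h3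
    have h4 : pth (ZMod p) b e0 (((List.ofFn X).prod : E) : G) =
        ∑ i, pth (ZMod p) b e0 (X i : G) := h3
    rw [h4, sub_self]
  have hc : c = 0 := hE c hc1 hc2
  -- the cocycles recording the labels of one block
  let d : Fin n → Ω → E → (Ω →₀ ZMod p) := fun i =>
    coc bE (fun w k => if lam k = i then Finsupp.single ((bE k : G) • w) 1 - Finsupp.single w 1
      else 0)
  have hd : ∀ i, IsCoc (d i) := fun i => isCoc_coc bE _
  have hd1 : ∀ i (x : E), x ∈ Subgroup.closure (bE '' {k | lam k = i}) → ∀ w : Ω,
      d i w x = Finsupp.single ((x : G) • w) 1 - Finsupp.single w 1 := by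
    intro i x hx
    induction hx using Subgroup.closure_induction with
    | mem x hx =>
      obtain ⟨k, hk, rfl⟩ := hx
      intro w
      have hk' : lam k = i := hk
      simp only [d, coc_basis, if_pos hk']
    | one =>
      intro w
      rw [(hd i).one]
      simp
    | mul x y _ _ hx hy =>
      intro w
      rw [hd i w x y, hy, hx]
      have h1 : (y • w : Ω) = (y : G) • w := rfl
      rw [h1, Subgroup.coe_mul, mul_smul]
      abel
    | inv x _ hx =>
      intro w
      rw [(hd i).inv, hx]
      have h1 : (x⁻¹ • w : Ω) = (x : G)⁻¹ • w := rfl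
      rw [h1, smul_inv_smul, Subgroup.coe_inv]
      abel
  have hd2 : ∀ i j (x : E), i ≠ j → x ∈ Subgroup.closure (bE '' {k | lam k = j}) → ∀ w : Ω,
      d i w x = 0 := by
    intro i j x hij hx
    induction hx using Subgroup.closure_induction with
    | mem x hx =>
      obtain ⟨k, hk, rfl⟩ := hx
      intro w
      have hk' : lam k ≠ i := by
        intro h
        apply hij
        rw [← h]
        exact hk
      simp only [d, coc_basis, if_neg hk']
    | one =>
      intro w
      rw [(hd i).one]
    | mul x y _ _ hx hy =>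
      intro w
      rw [hd i w x y, hy, hx, add_zero]
    | inv x _ hx =>
      intro w
      rw [(hd i).inv, hx, neg_zero]
  have hd0 : ∀ i, d i o (List.ofFn X).prod = 0 := by
    intro i
    obtain ⟨δ, hδ, hδ1⟩ := exists_coc_induced E (d i) (hd i)
    let φ := Finsupp.linearCombination (ZMod p) (fun x : (Ω × G ⧸ E) × ι => δ x.1 (b x.2))
    have hφ : ∀ v g, φ (pth (ZMod p) b v g) = δ v g := by
      intro v g
      have h1 := lc_pth (R := ZMod p) b (fun v i => δ v (b i)) v g
      have h2 := coc_ext b (isCoc_coc b (fun v i => δ v (b i))) hδ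
        (fun v i => coc_basis b _ v i) v g
      rw [h2] at h1
      exact h1
    have h1 : φ c = 0 := by rw [hc, map_zero]
    simp only [c, map_sub, map_sum, hφ] at h1
    rw [hδ1 o] at h1
    have h2 : ∑ j, δ (ω j, e0) (X j : G) = 0 := by
      apply Finset.sum_eq_zero
      intro j _
      rw [hδ1 (ω j)]
      by_cases hij : i = j
      · subst hij
        rw [hd1 i _ (hX i), hω, sub_self]
      · exact hd2 i j _ hij (hX j) _
    rw [h2, zero_sub, neg_eq_zero] at h1
    exact h1
  -- induction along the product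
  have key : ∀ l : List (Fin n), l.Nodup → (∀ i ∈ l, d i o (l.map X).prod = 0) →
      ∀ i ∈ l, (X i : G) • o = o := by
    intro l
    induction l with
    | nil => intro _ _ i hi; simp at hi
    | cons j l ih =>
      intro hnd hz
      rw [List.nodup_cons] at hnd
      have hzero : ∀ i, i ∉ l → ∀ w : Ω, d i w (l.map X).prod = 0 := by
        intro i
        have : ∀ m : List (Fin n), i ∉ m → ∀ w : Ω, d i w (m.map X).prod = 0 := by
          intro m
          induction m with
          | nil => intro _ w; simp [(hd i).one]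
          | cons k m ihm =>
            intro hm w
            rw [List.mem_cons, not_or] at hm
            rw [List.map_cons, List.prod_cons, hd i w, ihm hm.2, hd2 i k _ hm.1 (hX k),
              add_zero]
        exact this l
      have h1 : ∀ i ∈ l, (X i : G) • o = o := by
        apply ih hnd.2
        intro i hi
        have h2 := hz i (List.mem_cons_of_mem _ hi)
        have hij : i ≠ j := fun h => hnd.1 (h ▸ hi)
        rw [List.map_cons, List.prod_cons, hd i o, hd2 i j _ hij (hX j), add_zero] at h2
        exact h2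
      have h3 : (((l.map X).prod : E) : G) • o = o := by
        have : ∀ m : List (Fin n), (∀ i ∈ m, (X i : G) • o = o) →
            (((m.map X).prod : E) : G) • o = o := by
          intro m
          induction m with
          | nil => intro _; simp
          | cons k m ihm =>
            intro hm
            rw [List.map_cons, List.prod_cons, Subgroup.coe_mul, mul_smul,
              ihm (fun i hi => hm i (List.mem_cons_of_mem _ hi)), hm k List.mem_cons_self]
        exact this l h1
      intro i hi
      rcases List.mem_cons.1 hi with rfl | hi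
      · have h4 := hz i List.mem_cons_self
        rw [List.map_cons, List.prod_cons, hd i o, hzero i hnd.1 o, zero_add,
          hd1 i _ (hX i)] at h4
        have h5 : ((l.map X).prod • o : Ω) = o := h3
        rw [h5, sub_eq_zero] at h4
        exact Finsupp.single_left_injective hnt h4
      · exact h1 i hi
  intro i
  have hofFn : List.ofFn X = (List.finRange n).map X := List.ofFn_eq_map
  exact key (List.finRange n) (List.nodup_finRange n) (fun i _ => by
    rw [← hofFn]; exact hd0 i) i (List.mem_finRange i)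

end Split

end Pool.Agent.H28
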