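import Mathlib
import Pool.Agent.H28.TreeMetric

set_option autoImplicit false

/-!
Windmills in trees: a small cancellation family of convex subsets.
-/

namespace Pool.Agent.H28

variable {F X ι : Type*} [Group F] [MulAction F X] [MulAction F ι]

/-- A small cancellation family of convex subtrees of a tree on which `F` acts. -/
structure Fam (F : Type*) {X : Type*} (ι : Type*) [Group F] [MulAction F X] [MulAction F ι]
    (T : TreeDist X) where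
  iso : ∀ (f : F) (x y : X), T.d (f • x) (f • y) = T.d x y
  Y : ι → Set X
  conv : ∀ i, T.Convex (Y i)
  ne : ∀ i, (Y i).Nonempty
  equiv : ∀ (f : F) (i : ι) (x : X), x ∈ Y i → f • x ∈ Y (f • i)
  lam : ℕ
  lam_pos : 1 ≤ lam
  small : ∀ i j, i ≠ j → ∀ x ∈ Y i, x ∈ Y j → ∀ y ∈ Y i, y ∈ Y j → T.d x y ≤ lam
  disp : ∀ (i : ι) (s : F), s • i = i → s ≠ 1 → ∀ x ∈ Y i, 6 * lam + 1 ≤ T.d x (s • x)

namespace Fam

variable {T : TreeDist X} (Φ : Fam F ι T)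

include Φ in
theorem B_smul (f : F) {x z y : X} (h : T.B x z y) : T.B (f • x) (f • z) (f • y) := by
  unfold TreeDist.B at *
  rw [Φ.iso, Φ.iso, Φ.iso]
  exact h

include Φ in
theorem B_smul_inv (f : F) {x z y : X} (h : T.B x z (f • y)) : T.B (f⁻¹ • x) (f⁻¹ • z) y := by
  have := Φ.B_smul f⁻¹ h
  rwa [inv_smul_smul] at this

theorem mem_smul_iff (f : F) (i : ι) (x : X) : f • x ∈ Φ.Y (f • i) ↔ x ∈ Φ.Y i := by
  constructor
  · intro h
    have := Φ.equiv f⁻¹ _ _ h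
    rwa [inv_smul_smul, inv_smul_smul] at this
  · exact Φ.equiv f i x

theorem smul_stab {i : ι} {s : F} (hs : s • i = i) {x : X} (hx : x ∈ Φ.Y i) : s • x ∈ Φ.Y i := by
  have := Φ.equiv s i x hx
  rwa [hs] at this

theorem stab_inv {i : ι} {s : F} (hs : s • i = i) : s⁻¹ • i = i := by
  rw [inv_smul_eq_iff]; exact hs.symm

/-- The projection to `Y i`. -/
noncomputable def pr (i : ι) (v : X) : X := T.gate (Φ.Y i) (Φ.conv i) (Φ.ne i) v

theorem pr_gate (i : ι) (v : X) : T.IsGate (Φ.Y i) v (Φ.pr i v) :=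
  T.gate_isGate _ _ _ _

theorem pr_mem (i : ι) (v : X) : Φ.pr i v ∈ Φ.Y i := (Φ.pr_gate i v).1

theorem pr_smul (f : F) (i : ι) (v : X) : Φ.pr (f • i) (f • v) = f • Φ.pr i v := by
  apply (Φ.pr_gate (f • i) (f • v)).unique T
  refine ⟨Φ.equiv f i _ (Φ.pr_mem i v), fun c hc => ?_⟩
  have hc' : f⁻¹ • c ∈ Φ.Y i := by
    have := Φ.equiv f⁻¹ _ _ hc
    rwa [inv_smul_smul] at this
  have := Φ.B_smul f ((Φ.pr_gate i v).2 _ hc')
  rwa [smul_inv_smul] at this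

theorem pr_stab {i : ι} {s : F} (hs : s • i = i) (v : X) : Φ.pr i (s • v) = s • Φ.pr i v := by
  have := Φ.pr_smul s i v
  rwa [hs] at this

theorem pr_mem_of {i : ι} {D : Set X} (hD : T.Convex D) {v c : X} (hv : v ∈ D) (hc : c ∈ Φ.Y i)
    (hcD : c ∈ D) : Φ.pr i v ∈ D :=
  (Φ.pr_gate i v).mem_of_inter T hD hv hc hcD

/-- The subgroup generated by all stabilizers. -/
def N0 (F ι : Type*) [Group F] [MulAction F ι] : Subgroup F :=
  Subgroup.closure {s | ∃ i : ι, s • i = i}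

/-- A windmill, together with a normal complement `K` of the stabilizer of `i0`. -/
structure Mill (i0 : ι) where
  W : Set X
  G : Subgroup F
  J : Set ι
  K : Subgroup F
  convW : T.Convex W
  neW : W.Nonempty
  GW : ∀ g ∈ G, ∀ x ∈ W, g • x ∈ W
  GJ : ∀ g ∈ G, ∀ i ∈ J, g • i ∈ J
  stab : ∀ i ∈ J, ∀ s : F, s • i = i → s ∈ G
  i0J : i0 ∈ J
  smallW : ∀ i ∉ J, ∀ x ∈ Φ.Y i, x ∈ W → ∀ y ∈ Φ.Y i, y ∈ W → T.d x y ≤ 3 * Φ.lam
  Gle : G ≤ N0 F ι
  KG : K ≤ G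
  Knorm : ∀ g ∈ G, ∀ k ∈ K, g * k * g⁻¹ ∈ K
  Kdisj : ∀ s ∈ K, s • i0 = i0 → s = 1
  Kfac : ∀ g ∈ G, ∃ k ∈ K, ∃ s : F, s • i0 = i0 ∧ g = k * s
  Kstab : ∀ j ∈ J, (∀ g ∈ G, j ≠ g • i0) → ∀ s : F, s • j = j → s ∈ K

/-- The first windmill. -/
def Mill.init (i0 : ι) : Φ.Mill i0 where
  W := Φ.Y i0
  G := MulAction.stabilizer F i0
  J := {i0}
  K := ⊥
  convW := Φ.conv i0
  neW := Φ.ne i0
  GW := fun g hg x hx => Φ.smul_stab hg hx
  GJ := by
    rintro g hg i rfl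
    exact hg
  stab := by
    rintro i rfl s hs
    exact hs
  i0J := rfl
  smallW := fun i hi x hx hxW y hy hyW => by
    have := Φ.small i i0 hi x hx hxW y hy hyW
    omega
  Gle := fun s hs => Subgroup.subset_closure ⟨i0, hs⟩
  KG := bot_le
  Knorm := by
    intro g _ k hk
    rw [Subgroup.mem_bot] at hk
    subst hk
    simp
  Kdisj := fun s hs _ => Subgroup.mem_bot.mp hs
  Kfac := fun g hg => ⟨1, Subgroup.one_mem _, g, hg, by simp⟩
  Kstab := by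
    rintro j rfl h
    exact absurd (one_smul F j).symm (h 1 (Subgroup.one_mem _))

namespace Mill

variable {Φ} {i0 : ι} (M : Φ.Mill i0)

/-- The translates meeting `W` that have not been used. -/
def Z : Set ι := {i | i ∉ M.J ∧ ∃ x ∈ Φ.Y i, x ∈ M.W}

/-- The neighbourhood of `W`. -/
def What : Set X := T.nbhd Φ.lam M.W

theorem sub_What : M.W ⊆ M.What := T.subset_nbhd _ _

theorem convWhat : T.Convex M.What := T.convex_nbhd M.convW _

theorem GJ_iff {g : F} (hg : g ∈ M.G) (i : ι) : g • i ∈ M.J ↔ i ∈ M.J := by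
  constructor
  · intro h
    have := M.GJ g⁻¹ (M.G.inv_mem hg) _ h
    rwa [inv_smul_smul] at this
  · exact M.GJ g hg i

theorem GZ {g : F} (hg : g ∈ M.G) {i : ι} (hi : i ∈ M.Z) : g • i ∈ M.Z := by
  obtain ⟨h1, x, hx, hxW⟩ := hi
  exact ⟨fun h => h1 ((M.GJ_iff hg i).mp h), g • x, Φ.equiv g i x hx, M.GW g hg x hxW⟩

theorem GWhat {g : F} (hg : g ∈ M.G) {x : X} (hx : x ∈ M.What) : g • x ∈ M.What := by
  obtain ⟨w, hw, hd⟩ := hx
  exact ⟨g • w, M.GW g hg w hw, by rw [Φ.iso]; exact hd⟩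

/-- Points of `Y i` near `W` when `Y i` misses `W`. -/
theorem dist_of_disj {i : ι} (hi : ∀ x ∈ Φ.Y i, x ∉ M.W) {x y : X} (hx : x ∈ Φ.Y i)
    (hy : y ∈ Φ.Y i) (hxW : x ∈ M.What) (hyW : y ∈ M.What) : T.d x y ≤ 2 * Φ.lam := by
  obtain ⟨w, hw, hxw⟩ := hxW
  obtain ⟨w', hw', hyw⟩ := hyW
  obtain ⟨p, hp⟩ := T.exists_gate M.convW M.neW x
  obtain ⟨q, hq⟩ := T.exists_gate M.convW M.neW y
  by_cases hpq : p = q
  · subst hpq
    have h1 := hp.2 w hw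
    have h2 := hq.2 w' hw'
    have h3 := T.tri x p y
    have h4 := T.symm y p
    unfold TreeDist.B at *
    omega
  · exact absurd hp.1 (hi p (Φ.conv i x hx y hy p (hp.between T hq hpq).1))

theorem dist_What {i : ι} (hi : i ∉ M.J) {x y : X} (hx : x ∈ Φ.Y i)
    (hy : y ∈ Φ.Y i) (hxW : x ∈ M.What) (hyW : y ∈ M.What) : T.d x y ≤ 5 * Φ.lam := by
  by_cases h : ∀ x ∈ Φ.Y i, x ∉ M.W
  · have := M.dist_of_disj h hx hy hxW hyW
    omega
  · push Not at h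
    obtain ⟨u, hu, huW⟩ := h
    obtain ⟨w, hw, hxw⟩ := hxW
    obtain ⟨w', hw', hyw⟩ := hyW
    obtain ⟨p, hp⟩ := T.exists_gate M.convW M.neW x
    obtain ⟨q, hq⟩ := T.exists_gate M.convW M.neW y
    have hpY := hp.mem_of_inter T (Φ.conv i) hx huW hu
    have hqY := hq.mem_of_inter T (Φ.conv i) hy huW hu
    have h0 := M.smallW i hi p hpY hp.1 q hqY hq.1
    have h1 := hp.2 w hw
    have h2 := hq.2 w' hw'
    have h3 := T.tri x p y
    have h4 := T.tri p q y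
    have h5 := T.symm y q
    unfold TreeDist.B at *
    omega

theorem inter_sub {i j : ι} (hi : i ∈ M.Z) (hj : j ∈ M.Z) (hij : i ≠ j) {v : X}
    (hvi : v ∈ Φ.Y i) (hvj : v ∈ Φ.Y j) : v ∈ M.What := by
  obtain ⟨_, x, hx, hxW⟩ := hi
  obtain ⟨_, y, hy, hyW⟩ := hj
  obtain ⟨m, hmi, hmj, hmW⟩ := T.helly (Φ.conv i) (Φ.conv j) M.convW ⟨hvi, hvj⟩ ⟨hy, hyW⟩
    ⟨hx, hxW⟩
  exact ⟨m, hmW, Φ.small i j hij v hvi hvj m hmi hmj⟩

/-- The side of `What`. -/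
def C (i : ι) : Set X := {v | Φ.pr i v ∈ M.What}

theorem What_sub_C {i : ι} (hi : i ∈ M.Z) {v : X} (hv : v ∈ M.What) : v ∈ M.C i := by
  obtain ⟨_, x, hx, hxW⟩ := hi
  exact Φ.pr_mem_of M.convWhat hv hx (M.sub_What hxW)

theorem between_of_notMem {i : ι} (hi : i ∈ M.Z) {v w : X} (hv : v ∉ M.C i)
    (hw : w ∈ M.What) : T.B v (Φ.pr i v) w := by
  have hq : Φ.pr i w ∈ M.What := M.What_sub_C hi hw
  have hne : Φ.pr i v ≠ Φ.pr i w := fun h => hv (by show Φ.pr i v ∈ M.What; rw [h]; exact hq)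
  exact ((Φ.pr_gate i v).between T (Φ.pr_gate i w) hne).1

theorem Y_sub_C {i j : ι} (hi : i ∈ M.Z) (hj : j ∈ M.Z) (hij : i ≠ j) {v : X}
    (hv : v ∈ Φ.Y j) : v ∈ M.C i := by
  by_contra h
  obtain ⟨_, y, hy, hyW⟩ := hj
  have h1 := M.between_of_notMem hi h (M.sub_What hyW)
  have h2 : Φ.pr i v ∈ Φ.Y j := Φ.conv j v hv y hy _ h1
  exact h (M.inter_sub hi ⟨‹_›, y, hy, hyW⟩ hij (Φ.pr_mem i v) h2)

theorem compl_sub_C {i j : ι} (hi : i ∈ M.Z) (hj : j ∈ M.Z) (hij : i ≠ j) {v : X}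
    (hv : v ∉ M.C j) : v ∈ M.C i := by
  by_contra h
  have key : ∀ i j : ι, i ∈ M.Z → j ∈ M.Z → i ≠ j → v ∉ M.C i → v ∉ M.C j →
      T.d v (Φ.pr i v) < T.d v (Φ.pr j v) := by
    intro i j hi hj hij hvi hvj
    have h1 : Φ.pr j v ∈ M.C i := M.Y_sub_C hi hj hij (Φ.pr_mem j v)
    have hne : Φ.pr i v ≠ Φ.pr i (Φ.pr j v) := by
      intro h2
      apply hvi
      show Φ.pr i v ∈ M.What
      rw [h2]
      exact h1
    have h3 := (Φ.pr_gate i v).dist_eq T (Φ.pr_gate i (Φ.pr j v)) hne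
    have h4 : T.d (Φ.pr i v) (Φ.pr i (Φ.pr j v)) ≠ 0 := fun h => hne (T.eq_of _ _ h)
    omega
  have h1 := key i j hi hj hij h hv
  have h2 := key j i hj hi (Ne.symm hij) hv h
  omega

/-- Ping. -/
theorem smul_notMem_C {i : ι} (hi : i ∈ M.Z) {s : F} (hs : s • i = i) (hs1 : s ≠ 1) {v : X}
    (hv : v ∈ M.C i) : s • v ∉ M.C i := by
  intro h
  have h1 : Φ.pr i (s • v) ∈ M.What := h
  rw [Φ.pr_stab hs] at h1
  have h2 : Φ.pr i v ∈ M.What := hv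
  have h3 := M.dist_What hi.1 (Φ.pr_mem i v) (Φ.smul_stab hs (Φ.pr_mem i v)) h2 h1
  have h4 := Φ.disp i s hs hs1 _ (Φ.pr_mem i v)
  omega

/-- Reduced products `s_1 ⋯ s_k` with `s_j` in the stabilizer of `c_j ∈ Z`, `c_j ≠ c_{j+1}`;
the parameters record `c_1`, `c_k`, the product and `k`. -/
inductive Red : ι → ι → F → ℕ → Prop
  | one (c : ι) (s : F) (hc : c ∈ M.Z) (hs : s • c = c) (h1 : s ≠ 1) : Red c c s 1
  | cons (c c' e : ι) (s g : F) (k : ℕ) (hc : c ∈ M.Z) (hs : s • c = c) (h1 : s ≠ 1)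
      (hne : c ≠ c') (h : Red c' e g k) : Red c e (s * g) (k + 1)

theorem Red.mem_left {c e : ι} {g : F} {k : ℕ} (h : M.Red c e g k) : c ∈ M.Z := by
  cases h with
  | one _ _ hc _ _ => exact hc
  | cons _ _ _ _ _ _ hc _ _ _ _ => exact hc

theorem Red.snoc {c e : ι} {g : F} {k : ℕ} (h : M.Red c e g k) {e' : ι} (he' : e' ∈ M.Z)
    (hne : e ≠ e') {s : F} (hs : s • e' = e') (hs1 : s ≠ 1) : M.Red c e' (g * s) (k + 1) := by
  induction h with
  | one c t hc ht h1 =>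
    exact Red.cons c e' e' t s 1 hc ht h1 hne (Red.one e' s he' hs hs1)
  | cons c c' e t g k hc ht h1 hcc' _ ih =>
    rw [mul_assoc]
    exact Red.cons c c' e' t (g * s) (k + 1) hc ht h1 hcc' (ih hne)

theorem Red.inv {c e : ι} {g : F} {k : ℕ} (h : M.Red c e g k) : M.Red e c g⁻¹ k := by
  induction h with
  | one c t hc ht h1 => exact Red.one c t⁻¹ hc (stab_inv ht) (inv_ne_one.mpr h1)
  | cons c c' e t g k hc ht h1 hcc' _ ih =>
    rw [mul_inv_rev]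
    exact ih.snoc M hc (Ne.symm hcc') (stab_inv ht) (inv_ne_one.mpr h1)

theorem Red.mem_right {c e : ι} {g : F} {k : ℕ} (h : M.Red c e g k) : e ∈ M.Z :=
  (h.inv M).mem_left

theorem Red.conj {c e : ι} {g : F} {k : ℕ} (h : M.Red c e g k) {γ : F} (hγ : γ ∈ M.G) :
    M.Red (γ • c) (γ • e) (γ * g * γ⁻¹) k := by
  have hst : ∀ {c : ι} {t : F}, t • c = c → (γ * t * γ⁻¹) • γ • c = γ • c := by
    intro c t ht
    rw [smul_smul, inv_mul_cancel_right, mul_smul, ht]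
  have hne : ∀ {t : F}, t ≠ 1 → γ * t * γ⁻¹ ≠ 1 := by
    intro t ht h
    apply ht
    have := congrArg (fun x => γ⁻¹ * x * γ) h
    simpa [mul_assoc] using this
  induction h with
  | one c t hc ht h1 => exact Red.one _ _ (M.GZ hγ hc) (hst ht) (hne h1)
  | cons c c' e t g k hc ht h1 hcc' _ ih =>
    have e1 : γ * (t * g) * γ⁻¹ = (γ * t * γ⁻¹) * (γ * g * γ⁻¹) := by group
    rw [e1]
    exact Red.cons _ (γ • c') _ _ _ _ (M.GZ hγ hc) (hst ht) (hne h1)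
      (fun h => hcc' (smul_left_cancel γ h)) ih

/-- Ping-pong. -/
theorem Red.pong {c e : ι} {g : F} {k : ℕ} (h : M.Red c e g k) : ∀ {v : X}, v ∈ M.C e →
    g • v ∉ M.C c := by
  induction h with
  | one c t hc ht h1 => intro v hv; exact M.smul_notMem_C hc ht h1 hv
  | cons c c' e t g k hc ht h1 hcc' h ih =>
    intro v hv
    rw [mul_smul]
    exact M.smul_notMem_C hc ht h1 (M.compl_sub_C hc (h.mem_left) hcc' (ih hv))

/-- Reduced products, including the empty one. -/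
def Len (g : F) (k : ℕ) : Prop := (k = 0 ∧ g = 1) ∨ ∃ c e, M.Red c e g k

theorem Len.mul_left {g : F} {k : ℕ} (h : M.Len g k) {c : ι} (hc : c ∈ M.Z) {s : F}
    (hs : s • c = c) : ∃ k', M.Len (s * g) k' := by
  by_cases hs1 : s = 1
  · subst hs1
    rw [one_mul]
    exact ⟨k, h⟩
  rcases h with ⟨rfl, rfl⟩ | ⟨c', e, h⟩
  · rw [mul_one]
    exact ⟨1, Or.inr ⟨c, c, Red.one c s hc hs hs1⟩⟩
  · by_cases hcc' : c = c'
    · subst hcc'
      cases h with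
      | one _ _ _ ht h1 =>
        by_cases hst : s * g = 1
        · exact ⟨0, Or.inl ⟨rfl, hst⟩⟩
        · exact ⟨1, Or.inr ⟨c, c, Red.one c _ hc (by rw [mul_smul, ht, hs]) hst⟩⟩
      | cons _ c'' _ t g' k' _ ht h1 hne h =>
        rw [← mul_assoc]
        by_cases hst : s * t = 1
        · rw [hst, one_mul]
          exact ⟨k', Or.inr ⟨c'', e, h⟩⟩
        · exact ⟨k' + 1, Or.inr ⟨c, e, Red.cons c c'' e _ _ _ hc (by rw [mul_smul, ht, hs]) hst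
            hne h⟩⟩
    · exact ⟨k + 1, Or.inr ⟨c, e, Red.cons c c' e _ _ _ hc hs hs1 hcc' h⟩⟩

/-- The subgroup generated by the stabilizers of the elements of `Z`. -/
def K0 : Subgroup F := Subgroup.closure {s | ∃ i ∈ M.Z, s • i = i}

theorem mem_K0 {i : ι} (hi : i ∈ M.Z) {s : F} (hs : s • i = i) : s ∈ M.K0 :=
  Subgroup.subset_closure ⟨i, hi, hs⟩

theorem K0_len {g : F} (hg : g ∈ M.K0) : ∃ k, M.Len g k := by
  unfold K0 at hg
  induction hg using Subgroup.closure_induction_left with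
  | one => exact ⟨0, Or.inl ⟨rfl, rfl⟩⟩
  | mul_left x hx y hy ih =>
    obtain ⟨i, hi, hs⟩ := hx
    obtain ⟨k, hk⟩ := ih
    exact hk.mul_left M hi hs
  | inv_mul_cancel x hx y hy ih =>
    obtain ⟨i, hi, hs⟩ := hx
    obtain ⟨k, hk⟩ := ih
    exact hk.mul_left M hi (stab_inv hs)

theorem K0_conj {g : F} (hg : g ∈ M.G) {x : F} (hx : x ∈ M.K0) : g * x * g⁻¹ ∈ M.K0 := by
  unfold K0 at hx
  induction hx using Subgroup.closure_induction with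
  | mem x hx =>
    obtain ⟨i, hi, hs⟩ := hx
    exact M.mem_K0 (M.GZ hg hi) (by rw [smul_smul, inv_mul_cancel_right, mul_smul, hs])
  | one => simp
  | mul x y _ _ hx hy =>
    have e : g * (x * y) * g⁻¹ = (g * x * g⁻¹) * (g * y * g⁻¹) := by group
    rw [e]
    exact M.K0.mul_mem hx hy
  | inv x _ hx =>
    have e : g * x⁻¹ * g⁻¹ = (g * x * g⁻¹)⁻¹ := by group
    rw [e]
    exact M.K0.inv_mem hx

theorem K0_inter {g : F} (hg : g ∈ M.K0) (hgG : g ∈ M.G) : g = 1 := by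
  obtain ⟨k, hk⟩ := M.K0_len hg
  rcases hk with ⟨_, rfl⟩ | ⟨c, e, h⟩
  · rfl
  · exfalso
    obtain ⟨w, hw⟩ := M.neW
    exact h.pong M (M.What_sub_C h.mem_right (M.sub_What hw))
      (M.What_sub_C h.mem_left (M.sub_What (M.GW g hgG w hw)))

/-- The next group. -/
def G' : Subgroup F where
  carrier := {x | ∃ a ∈ M.K0, ∃ γ ∈ M.G, x = a * γ}
  mul_mem' := by
    rintro _ _ ⟨a, ha, γ, hγ, rfl⟩ ⟨b, hb, δ, hδ, rfl⟩
    refine ⟨a * (γ * b * γ⁻¹), M.K0.mul_mem ha (M.K0_conj hγ hb), γ * δ, M.G.mul_mem hγ hδ, ?_⟩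
    group
  one_mem' := ⟨1, M.K0.one_mem, 1, M.G.one_mem, by simp⟩
  inv_mem' := by
    rintro _ ⟨a, ha, γ, hγ, rfl⟩
    refine ⟨γ⁻¹ * a⁻¹ * γ⁻¹⁻¹, M.K0_conj (M.G.inv_mem hγ) (M.K0.inv_mem ha), γ⁻¹,
      M.G.inv_mem hγ, ?_⟩
    group

theorem G_le : M.G ≤ M.G' := fun g hg => ⟨1, M.K0.one_mem, g, hg, by simp⟩

theorem K0_le : M.K0 ≤ M.G' := fun a ha => ⟨a, ha, 1, M.G.one_mem, by simp⟩

/-- The next normal complement. -/
def K' : Subgroup F where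
  carrier := {x | ∃ a ∈ M.K0, ∃ b ∈ M.K, x = a * b}
  mul_mem' := by
    rintro _ _ ⟨a, ha, γ, hγ, rfl⟩ ⟨b, hb, δ, hδ, rfl⟩
    refine ⟨a * (γ * b * γ⁻¹), M.K0.mul_mem ha (M.K0_conj (M.KG hγ) hb), γ * δ,
      M.K.mul_mem hγ hδ, ?_⟩
    group
  one_mem' := ⟨1, M.K0.one_mem, 1, M.K.one_mem, by simp⟩
  inv_mem' := by
    rintro _ ⟨a, ha, γ, hγ, rfl⟩
    refine ⟨γ⁻¹ * a⁻¹ * γ⁻¹⁻¹, M.K0_conj (M.G.inv_mem (M.KG hγ)) (M.K0.inv_mem ha), γ⁻¹,
      M.K.inv_mem hγ, ?_⟩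
    group

theorem K'_norm {g : F} (hg : g ∈ M.G') {x : F} (hx : x ∈ M.K') : g * x * g⁻¹ ∈ M.K' := by
  obtain ⟨a', ha', γ, hγ, rfl⟩ := hg
  obtain ⟨a, ha, b, hb, rfl⟩ := hx
  have hb' := M.Knorm γ hγ b hb
  have ha'' := M.K0_conj hγ ha
  have h1 : (γ * b * γ⁻¹) * a'⁻¹ * (γ * b * γ⁻¹)⁻¹ ∈ M.K0 :=
    M.K0_conj (M.KG hb') (M.K0.inv_mem ha')
  refine ⟨a' * (γ * a * γ⁻¹) * ((γ * b * γ⁻¹) * a'⁻¹ * (γ * b * γ⁻¹)⁻¹),
    M.K0.mul_mem (M.K0.mul_mem ha' ha'') h1, γ * b * γ⁻¹, hb', ?_⟩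
  group

/-- The core of the next windmill. -/
def V0 : Set X := {v | v ∈ M.What ∨ ∃ i ∈ M.Z, v ∈ Φ.Y i}

theorem GV0 {g : F} (hg : g ∈ M.G) {v : X} (hv : v ∈ M.V0) : g • v ∈ M.V0 := by
  rcases hv with h | ⟨i, hi, h⟩
  · exact Or.inl (M.GWhat hg h)
  · exact Or.inr ⟨g • i, M.GZ hg hi, Φ.equiv g i v h⟩

theorem Y_sub_V0 {i : ι} (hi : i ∈ M.Z) {v : X} (hv : v ∈ Φ.Y i) : v ∈ M.V0 :=
  Or.inr ⟨i, hi, hv⟩

theorem V0_sub_C {i : ι} (hi : i ∈ M.Z) {v : X} (hv : v ∈ M.V0) (hvi : v ∉ Φ.Y i) :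
    v ∈ M.C i := by
  rcases hv with h | ⟨j, hj, h⟩
  · exact M.What_sub_C hi h
  · refine M.Y_sub_C hi hj ?_ h
    rintro rfl
    exact hvi h

theorem convV0 : T.Convex M.V0 := by
  have key : ∀ x ∈ M.V0, ∀ w ∈ M.What, ∀ z, T.B x z w → z ∈ M.V0 := by
    rintro x (hx | ⟨i, hi, hx⟩) w hw z hz
    · exact Or.inl (M.convWhat x hx w hw z hz)
    · obtain ⟨_, u, hu, huW⟩ := id hi
      rcases T.B_or hz u with h | h
      · exact Or.inr ⟨i, hi, Φ.conv i x hx u hu z h⟩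
      · exact Or.inl (M.convWhat u (M.sub_What huW) w hw z h)
  rintro x hx y hy z hz
  obtain ⟨w, hw⟩ := M.neW
  rcases T.B_or hz w with h | h
  · exact key x hx w (M.sub_What hw) z h
  · exact key y hy w (M.sub_What hw) z (T.B_symm h)

/-- The next set. -/
def W' : Set X := {x | ∃ g ∈ M.G', ∃ v ∈ M.V0, x = g • v}

theorem V0_sub_W' {v : X} (hv : v ∈ M.V0) : v ∈ M.W' := ⟨1, M.G'.one_mem, v, hv, by simp⟩

theorem G'W' {g : F} (hg : g ∈ M.G') {x : X} (hx : x ∈ M.W') : g • x ∈ M.W' := by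
  obtain ⟨h, hh, v, hv, rfl⟩ := hx
  exact ⟨g * h, M.G'.mul_mem hg hh, v, hv, by rw [mul_smul]⟩

theorem Red.stab_mem {c e : ι} {g : F} {k : ℕ} (h : M.Red c e g k) : g ∈ M.K0 := by
  induction h with
  | one c t hc ht h1 => exact M.mem_K0 hc ht
  | cons c c' e t g k hc ht h1 hcc' _ ih => exact M.K0.mul_mem (M.mem_K0 hc ht) ih

theorem conv_aux {c e : ι} {g : F} {k : ℕ} (h : M.Red c e g k) : ∀ {x y z : X}, x ∈ M.V0 →
    y ∈ M.V0 → T.B x z (g • y) → z ∈ M.W' := by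
  induction h with
  | one c t hc ht h1 =>
    intro x y z hx hy hz
    obtain ⟨u, hu⟩ := Φ.ne c
    rcases T.B_or hz u with h | h
    · exact M.V0_sub_W' (M.convV0 x hx u (M.Y_sub_V0 hc hu) z h)
    · have h2 := Φ.B_smul_inv t h
      have h3 : t⁻¹ • u ∈ M.V0 := M.Y_sub_V0 hc (Φ.smul_stab (stab_inv ht) hu)
      have h4 := M.G'W' (M.K0_le (M.mem_K0 hc ht)) (M.V0_sub_W' (M.convV0 _ h3 y hy _ h2))
      rwa [smul_inv_smul] at h4
  | cons c c' e t g k hc ht h1 hcc' _ ih =>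
    intro x y z hx hy hz
    obtain ⟨u, hu⟩ := Φ.ne c
    rcases T.B_or hz u with h | h
    · exact M.V0_sub_W' (M.convV0 x hx u (M.Y_sub_V0 hc hu) z h)
    · rw [mul_smul] at h
      have h2 := Φ.B_smul_inv t h
      have h3 : t⁻¹ • u ∈ M.V0 := M.Y_sub_V0 hc (Φ.smul_stab (stab_inv ht) hu)
      have h4 := M.G'W' (M.K0_le (M.mem_K0 hc ht)) (ih h3 hy h2)
      rwa [smul_inv_smul] at h4

theorem convW' : T.Convex M.W' := by
  rintro _ ⟨g, hg, x, hx, rfl⟩ _ ⟨g', hg', y, hy, rfl⟩ z hz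
  have h1 : T.B x (g⁻¹ • z) (g⁻¹ • g' • y) := by
    have := Φ.B_smul g⁻¹ hz
    rwa [inv_smul_smul] at this
  obtain ⟨a, ha, γ, hγ, haγ⟩ := M.G'.mul_mem (M.G'.inv_mem hg) hg'
  have h2 : g⁻¹ • g' • y = a • (γ • y) := by
    rw [smul_smul, haγ, mul_smul]
  rw [h2] at h1
  have h3 : g⁻¹ • z ∈ M.W' := by
    obtain ⟨k, hk⟩ := M.K0_len ha
    rcases hk with ⟨_, rfl⟩ | ⟨c, e, h⟩
    · rw [one_smul] at h1
      exact M.V0_sub_W' (M.convV0 x hx _ (M.GV0 hγ hy) _ h1)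
    · exact M.conv_aux h hx (M.GV0 hγ hy) h1
  have h4 := M.G'W' hg h3
  rwa [smul_inv_smul] at h4

/-- The next index set. -/
def J' : Set ι := {i | ∃ g ∈ M.G', ∃ j, (j ∈ M.J ∨ j ∈ M.Z) ∧ i = g • j}

theorem Z_sub_J' {i : ι} (hi : i ∈ M.Z) : i ∈ M.J' :=
  ⟨1, M.G'.one_mem, i, Or.inr hi, by simp⟩

theorem J_sub_J' {i : ι} (hi : i ∈ M.J) : i ∈ M.J' :=
  ⟨1, M.G'.one_mem, i, Or.inl hi, by simp⟩

theorem G'J' {g : F} (hg : g ∈ M.G') {i : ι} (hi : i ∈ M.J') : g • i ∈ M.J' := by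
  obtain ⟨h, hh, j, hj, rfl⟩ := hi
  exact ⟨g * h, M.G'.mul_mem hg hh, j, hj, by rw [mul_smul]⟩

theorem G'J'_not {g : F} (hg : g ∈ M.G') {i : ι} (hi : i ∉ M.J') : g • i ∉ M.J' := by
  intro h
  apply hi
  have := M.G'J' (M.G'.inv_mem hg) h
  rwa [inv_smul_smul] at this

theorem disj_W {i : ι} (hi : i ∉ M.J') : ∀ x ∈ Φ.Y i, x ∉ M.W := fun x hx hxW =>
  hi (M.Z_sub_J' ⟨fun h => hi (M.J_sub_J' h), x, hx, hxW⟩)

/-- Case `k = 0`. -/
theorem small_zero {i : ι} (hi : i ∉ M.J') {x y : X} (hx : x ∈ M.V0) (hy : y ∈ M.V0)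
    (hxi : x ∈ Φ.Y i) (hyi : y ∈ Φ.Y i) : T.d x y ≤ 3 * Φ.lam := by
  have key : ∀ x ∈ M.What, x ∈ Φ.Y i → ∀ c ∈ M.Z, ∀ y ∈ Φ.Y c, y ∈ Φ.Y i →
      T.d x y ≤ 3 * Φ.lam := by
    intro x hx hxi c hc y hyc hyi
    have hci : c ≠ i := by
      rintro rfl
      exact hi (M.Z_sub_J' hc)
    have h1 : Φ.pr c x ∈ Φ.Y i := Φ.pr_mem_of (Φ.conv i) hxi hyc hyi
    have h2 : Φ.pr c x ∈ M.What := M.What_sub_C hc hx
    have h3 := M.dist_of_disj (M.disj_W hi) hxi h1 hx h2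
    have h4 := Φ.small c i hci _ (Φ.pr_mem c x) h1 y hyc hyi
    have h5 := T.tri x (Φ.pr c x) y
    omega
  rcases hx with hx | ⟨c, hc, hxc⟩
  · rcases hy with hy | ⟨c', hc', hyc'⟩
    · have := M.dist_of_disj (M.disj_W hi) hxi hyi hx hy
      omega
    · exact key x hx hxi c' hc' y hyc' hyi
  · rcases hy with hy | ⟨c', hc', hyc'⟩
    · rw [T.symm]
      exact key y hy hyi c hc x hxc hxi
    · have hci : c ≠ i := by
        rintro rfl
        exact hi (M.Z_sub_J' hc)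
      have hci' : c' ≠ i := by
        rintro rfl
        exact hi (M.Z_sub_J' hc')
      -- either `Y c` and `Y c'` meet, or `Y i` meets `W`
      by_cases hmeet : ∃ u ∈ Φ.Y c, u ∈ Φ.Y c'
      · obtain ⟨u, huc, huc'⟩ := hmeet
        obtain ⟨m, hmc, hmc', hmi⟩ := T.helly (Φ.conv c) (Φ.conv c') (Φ.conv i) ⟨huc, huc'⟩
          ⟨hyc', hyi⟩ ⟨hxc, hxi⟩
        have h1 := Φ.small c i hci x hxc hxi m hmc hmi
        have h2 := Φ.small c' i hci' m hmc' hmi y hyc' hyi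
        have h3 := T.tri x m y
        omega
      · exfalso
        obtain ⟨_, w, hwc, hwW⟩ := id hc
        obtain ⟨_, w', hwc', hwW'⟩ := id hc'
        have h1 : Φ.pr c y ∈ Φ.Y i := Φ.pr_mem_of (Φ.conv i) hyi hxc hxi
        have h2 : Φ.pr c w' ∈ M.W := Φ.pr_mem_of M.convW hwW' hwc hwW
        by_cases hpq : Φ.pr c y = Φ.pr c w'
        · rw [← hpq] at h2
          exact M.disj_W hi _ h1 h2
        · have h3 := ((Φ.pr_gate c y).between T (Φ.pr_gate c w') hpq).1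
          exact hmeet ⟨_, Φ.pr_mem c y, Φ.conv c' y hyc' w' hwc' _ h3⟩

/-- The case of a reduced product. -/
theorem small_red : ∀ (k : ℕ) {i : ι} {g : F} {x y : X}, i ∉ M.J' → M.Len g k →
    x ∈ M.V0 → y ∈ M.V0 → x ∈ Φ.Y i → g • y ∈ Φ.Y i → T.d x (g • y) ≤ 3 * Φ.lam := by
  -- removing the first letter
  have left : ∀ (k : ℕ), (∀ {i : ι} {g : F} {x y : X}, i ∉ M.J' → M.Len g k →
      x ∈ M.V0 → y ∈ M.V0 → x ∈ Φ.Y i → g • y ∈ Φ.Y i → T.d x (g • y) ≤ 3 * Φ.lam) →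
      ∀ {i c e : ι} {g : F} {x y : X}, i ∉ M.J' → M.Red c e g (k + 1) →
      x ∈ M.V0 → y ∈ M.V0 → x ∈ Φ.Y i → g • y ∈ Φ.Y i → x ∈ Φ.Y c →
      T.d x (g • y) ≤ 3 * Φ.lam := by
    intro k ih i c e g x y hi h hx hy hxi hyi hxc
    have main : ∀ (s g' : F), s • c = c → c ∈ M.Z → M.Len g' k → g = s * g' →
        T.d x (g • y) ≤ 3 * Φ.lam := by
      intro s g' hs hc hg' hgg
      subst hgg
      have h1 : s⁻¹ • i ∉ M.J' := M.G'J'_not (M.G'.inv_mem (M.K0_le (M.mem_K0 hc hs))) hi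
      have h2 : s⁻¹ • x ∈ M.V0 := M.Y_sub_V0 hc (Φ.smul_stab (stab_inv hs) hxc)
      have h3 : s⁻¹ • x ∈ Φ.Y (s⁻¹ • i) := Φ.equiv _ _ _ hxi
      have h4 : g' • y ∈ Φ.Y (s⁻¹ • i) := by
        have := Φ.equiv s⁻¹ _ _ hyi
        rwa [mul_smul, inv_smul_smul] at this
      have h5 := ih h1 hg' h2 hy h3 h4
      rw [← Φ.iso s, smul_inv_smul, smul_smul] at h5
      exact h5
    cases h with
    | one _ _ hc hs h1 => exact main g 1 hs hc (Or.inl ⟨rfl, rfl⟩) (by simp)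
    | cons _ c' _ s g' _ hc hs h1 hne h => exact main s g' hs hc (Or.inr ⟨c', e, h⟩) rfl
  intro k
  induction k with
  | zero =>
    intro i g x y hi hg hx hy hxi hyi
    rcases hg with ⟨_, rfl⟩ | ⟨c, e, h⟩
    · rw [one_smul] at hyi ⊢
      exact M.small_zero hi hx hy hxi hyi
    · cases h
  | succ k ih =>
    intro i g x y hi hg hx hy hxi hyi
    rcases hg with ⟨h, _⟩ | ⟨c, e, h⟩
    · omega
    by_cases hxc : x ∈ Φ.Y c
    · exact left k ih hi h hx hy hxi hyi hxc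
    by_cases hye : y ∈ Φ.Y e
    · -- remove the last letter: apply `left` to the inverse
      have hgG : g ∈ M.G' := M.K0_le (h.stab_mem M)
      have h1 : g⁻¹ • i ∉ M.J' := M.G'J'_not (M.G'.inv_mem hgG) hi
      have h2 : y ∈ Φ.Y (g⁻¹ • i) := by
        have := Φ.equiv g⁻¹ _ _ hyi
        rwa [inv_smul_smul] at this
      have h3 : g⁻¹ • x ∈ Φ.Y (g⁻¹ • i) := Φ.equiv _ _ _ hxi
      have h4 := left k ih h1 (h.inv M) hy hx h2 h3 hye
      rw [← Φ.iso g, smul_inv_smul, T.symm] at h4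
      exact h4
    · exfalso
      have hcZ := h.mem_left
      have heZ := h.mem_right
      have hxC : x ∈ M.C c := M.V0_sub_C hcZ hx hxc
      have hyC : y ∈ M.C e := M.V0_sub_C heZ hy hye
      -- the first letter
      have main : ∀ (s g' : F), s • c = c → s ≠ 1 → g = s * g' → g' • y ∈ M.C c → False := by
        intro s g' hs hs1 hgg hgy
        subst hgg
        have hp : Φ.pr c x ∈ M.What := hxC
        have hq : Φ.pr c (g' • y) ∈ M.What := hgy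
        have h1 : Φ.pr c ((s * g') • y) = s • Φ.pr c (g' • y) := by
          rw [mul_smul, Φ.pr_stab hs]
        have h2 := M.dist_What hcZ.1 (Φ.pr_mem c x) (Φ.pr_mem c (g' • y)) hp hq
        have h3 := Φ.disp c s hs hs1 _ (Φ.pr_mem c (g' • y))
        have h4 := T.tri (Φ.pr c (g' • y)) (Φ.pr c x) (s • Φ.pr c (g' • y))
        have h5 := T.symm (Φ.pr c (g' • y)) (Φ.pr c x)
        have h6 : Φ.lam < T.d (Φ.pr c x) (s • Φ.pr c (g' • y)) := by omega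
        have hne : Φ.pr c x ≠ Φ.pr c ((s * g') • y) := by
          rw [h1]
          intro h
          rw [← h, T.self] at h6
          omega
        have h7 := (Φ.pr_gate c x).between T (Φ.pr_gate c ((s * g') • y)) hne
        have h8 := Φ.conv i x hxi _ hyi _ h7.1
        have h9 := Φ.conv i x hxi _ hyi _ h7.2
        have hci : c ≠ i := by
          rintro rfl
          exact hi (M.Z_sub_J' hcZ)
        have h10 := Φ.small c i hci _ (Φ.pr_mem c x) h8 _ (Φ.pr_mem c _) h9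
        rw [h1] at h10
        omega
      cases h with
      | one _ _ hc hs h1 => exact main g 1 hs h1 (by simp) (by rw [one_smul]; exact hyC)
      | cons _ c' _ s g' _ hc hs h1 hne h =>
        exact main s g' hs h1 rfl (M.compl_sub_C hc h.mem_left hne (h.pong M hyC))

theorem smallW' {i : ι} (hi : i ∉ M.J') {x y : X} (hxi : x ∈ Φ.Y i) (hx : x ∈ M.W')
    (hyi : y ∈ Φ.Y i) (hy : y ∈ M.W') : T.d x y ≤ 3 * Φ.lam := by
  obtain ⟨g, hg, x, hx, rfl⟩ := hx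
  obtain ⟨g', hg', y, hy, rfl⟩ := hy
  obtain ⟨a, ha, γ, hγ, haγ⟩ := M.G'.mul_mem (M.G'.inv_mem hg) hg'
  have h2 : g⁻¹ • g' • y = a • (γ • y) := by
    rw [smul_smul, haγ, mul_smul]
  obtain ⟨k, hk⟩ := M.K0_len ha
  have h3 : x ∈ Φ.Y (g⁻¹ • i) := by
    have := Φ.equiv g⁻¹ _ _ hxi
    rwa [inv_smul_smul] at this
  have h4 : a • (γ • y) ∈ Φ.Y (g⁻¹ • i) := by
    rw [← h2]
    exact Φ.equiv _ _ _ hyi
  have h5 := M.small_red k (M.G'J'_not (M.G'.inv_mem hg) hi) hk hx (M.GV0 hγ hy) h3 h4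
  rw [← h2, ← Φ.iso g, smul_inv_smul] at h5
  exact h5

theorem stab_conj {g : F} {j : ι} {s : F} (hs : s • g • j = g • j) :
    (g⁻¹ * s * g) • j = j := by
  rw [mul_smul, mul_smul, hs, inv_smul_smul]

/-- The next windmill. -/
def next : Φ.Mill i0 where
  W := M.W'
  G := M.G'
  J := M.J'
  K := M.K'
  convW := M.convW'
  neW := by
    obtain ⟨w, hw⟩ := M.neW
    exact ⟨w, M.V0_sub_W' (Or.inl (M.sub_What hw))⟩
  GW := fun g hg x hx => M.G'W' hg hx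
  GJ := fun g hg i hi => M.G'J' hg hi
  stab := by
    rintro _ ⟨g, hg, j, hj, rfl⟩ s hs
    have h1 := stab_conj hs
    have h2 : g⁻¹ * s * g ∈ M.G' := by
      rcases hj with hj | hj
      · exact M.G_le (M.stab j hj _ h1)
      · exact M.K0_le (M.mem_K0 hj h1)
    have h3 := M.G'.mul_mem (M.G'.mul_mem hg h2) (M.G'.inv_mem hg)
    have e : g * (g⁻¹ * s * g) * g⁻¹ = s := by group
    rwa [e] at h3
  i0J := M.J_sub_J' M.i0J
  smallW := fun i hi x hx hxW y hy hyW => M.smallW' hi hx hxW hy hyW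
  Gle := by
    rintro _ ⟨a, ha, γ, hγ, rfl⟩
    refine Subgroup.mul_mem _ ?_ (M.Gle hγ)
    have : M.K0 ≤ N0 F ι := by
      refine (Subgroup.closure_le _).mpr ?_
      rintro s ⟨i, _, hs⟩
      exact Subgroup.subset_closure ⟨i, hs⟩
    exact this ha
  KG := by
    rintro _ ⟨a, ha, b, hb, rfl⟩
    exact ⟨a, ha, b, M.KG hb, rfl⟩
  Knorm := fun g hg k hk => M.K'_norm hg hk
  Kdisj := by
    rintro _ ⟨a, ha, b, hb, rfl⟩ hs
    have h1 : a * b ∈ M.G := M.stab i0 M.i0J _ hs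
    have h2 : a ∈ M.G := by
      have := M.G.mul_mem h1 (M.G.inv_mem (M.KG hb))
      rwa [mul_inv_cancel_right] at this
    have h3 := M.K0_inter ha h2
    subst h3
    rw [one_mul] at hs ⊢
    exact M.Kdisj b hb hs
  Kfac := by
    rintro _ ⟨a, ha, γ, hγ, rfl⟩
    obtain ⟨k, hk, s, hs, rfl⟩ := M.Kfac γ hγ
    exact ⟨a * k, ⟨a, ha, k, hk, rfl⟩, s, hs, by rw [mul_assoc]⟩
  Kstab := by
    rintro _ ⟨g, hg, j, hj, rfl⟩ hne s hs
    have h1 := stab_conj hs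
    have hne' : ∀ h ∈ M.G', j ≠ h • i0 := by
      rintro h hh rfl
      exact hne (g * h) (M.G'.mul_mem hg hh) (by rw [mul_smul])
    have h2 : g⁻¹ * s * g ∈ M.K' := by
      rcases hj with hj | hj
      · exact ⟨1, M.K0.one_mem, _, M.Kstab j hj (fun h hh => hne' h (M.G_le hh)) _ h1, by simp⟩
      · exact ⟨_, M.mem_K0 hj h1, 1, M.K.one_mem, by simp⟩
    have h3 := M.K'_norm hg h2
    have e : g * (g⁻¹ * s * g) * g⁻¹ = s := by group
    rwa [e] at h3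

end Mill

/-- The sequence of windmills. -/
noncomputable def mill (i0 : ι) (n : ℕ) : Φ.Mill i0 :=
  Nat.rec (Mill.init Φ i0) (fun _ M => M.next) n

theorem mill_G_mono (i0 : ι) : Monotone fun n => (Φ.mill i0 n).G :=
  monotone_nat_of_le_succ fun n => (Φ.mill i0 n).G_le

theorem mill_K_mono (i0 : ι) : Monotone fun n => (Φ.mill i0 n).K :=
  monotone_nat_of_le_succ fun n => fun b hb => ⟨1, (Φ.mill i0 n).K0.one_mem, b, hb, by simp⟩

theorem mill_W (i0 : ι) {w : X} (hw : w ∈ Φ.Y i0) (n : ℕ) : ∀ {x : X}, T.d w x ≤ n →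
    x ∈ (Φ.mill i0 n).W := by
  induction n with
  | zero =>
    intro x hx
    have := T.eq_of w x (by omega)
    subst this
    exact hw
  | succ n ih =>
    intro x hx
    obtain ⟨z, hz1, hz2⟩ := T.interp w x (min n (T.d w x)) (by omega)
    have h1 : z ∈ (Φ.mill i0 n).W := ih (by omega)
    refine (Φ.mill i0 n).V0_sub_W' (Or.inl ⟨z, h1, ?_⟩)
    have h2 := T.symm x z
    have h3 := Φ.lam_pos
    omega

theorem mill_J (i0 i : ι) : ∃ n, i ∈ (Φ.mill i0 n).J := by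
  obtain ⟨w, hw⟩ := Φ.ne i0
  obtain ⟨x, hx⟩ := Φ.ne i
  by_cases h : i ∈ (Φ.mill i0 (T.d w x)).J
  · exact ⟨_, h⟩
  · exact ⟨T.d w x + 1, (Φ.mill i0 (T.d w x)).Z_sub_J' ⟨h, x, hx, Φ.mill_W i0 hw _ le_rfl⟩⟩

include Φ in
/-- **The Cohen-Lyndon property of a small cancellation family**: the stabilizer of `i0` has a
normal complement in `N0` containing the stabilizers of all `j` outside the orbit `N0 i0`. -/
theorem exists_complement (i0 : ι) : ∃ K : Subgroup F, K ≤ N0 F ι ∧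
    (∀ g ∈ N0 F ι, ∀ k ∈ K, g * k * g⁻¹ ∈ K) ∧ (∀ s ∈ K, s • i0 = i0 → s = 1) ∧
    (∀ g ∈ N0 F ι, ∃ k ∈ K, ∃ s : F, s • i0 = i0 ∧ g = k * s) ∧
    (∀ j : ι, (∀ g ∈ N0 F ι, j ≠ g • i0) → ∀ s : F, s • j = j → s ∈ K) := by
  have hdG : Directed (· ≤ ·) fun n => (Φ.mill i0 n).G := (Φ.mill_G_mono i0).directed_le
  have hdK : Directed (· ≤ ·) fun n => (Φ.mill i0 n).K := (Φ.mill_K_mono i0).directed_le
  have hN : ∀ g : F, g ∈ N0 F ι ↔ ∃ n, g ∈ (Φ.mill i0 n).G := by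
    intro g
    rw [← Subgroup.mem_iSup_of_directed hdG]
    constructor
    · intro hg
      refine (?_ : N0 F ι ≤ ⨆ n, (Φ.mill i0 n).G) hg
      refine (Subgroup.closure_le _).mpr ?_
      rintro s ⟨i, hs⟩
      obtain ⟨n, hn⟩ := Φ.mill_J i0 i
      exact Subgroup.mem_iSup_of_mem n ((Φ.mill i0 n).stab i hn s hs)
    · intro hg
      refine (?_ : (⨆ n, (Φ.mill i0 n).G) ≤ N0 F ι) hg
      exact iSup_le fun n => (Φ.mill i0 n).Gle
  refine ⟨⨆ n, (Φ.mill i0 n).K, ?_, ?_, ?_, ?_, ?_⟩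
  · exact iSup_le fun n => (Φ.mill i0 n).KG.trans (Φ.mill i0 n).Gle
  · intro g hg k hk
    obtain ⟨n, hn⟩ := (hN g).mp hg
    rw [Subgroup.mem_iSup_of_directed hdK] at hk
    obtain ⟨m, hm⟩ := hk
    have h1 := Φ.mill_G_mono i0 (le_max_left n m) hn
    have h2 := Φ.mill_K_mono i0 (le_max_right n m) hm
    exact Subgroup.mem_iSup_of_mem (max n m) ((Φ.mill i0 (max n m)).Knorm g h1 k h2)
  · intro s hs hs0
    rw [Subgroup.mem_iSup_of_directed hdK] at hs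
    obtain ⟨m, hm⟩ := hs
    exact (Φ.mill i0 m).Kdisj s hm hs0
  · intro g hg
    obtain ⟨n, hn⟩ := (hN g).mp hg
    obtain ⟨k, hk, s, hs, e⟩ := (Φ.mill i0 n).Kfac g hn
    exact ⟨k, Subgroup.mem_iSup_of_mem n hk, s, hs, e⟩
  · intro j hj s hs
    obtain ⟨n, hn⟩ := Φ.mill_J i0 j
    exact Subgroup.mem_iSup_of_mem n ((Φ.mill i0 n).Kstab j hn
      (fun g hg => hj g ((hN g).mpr ⟨n, hg⟩)) s hs)

end Fam

end Pool.Agent.H28
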