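import Mathlib
import Pool.Agent.H28.FreeTree
import Pool.Agent.H28.Windmill
import Pool.Agent.H28.CLReflect
import Pool.Agent.H28.Dep

set_option autoImplicit false

/-!
Subgroups of free groups whose Stallings graph satisfies a metric small cancellation condition.
-/

namespace Pool.Agent.H28

open FreeGroup Monoid

universe u v

section

variable {α : Type u} [DecidableEq α]

/-- The prefixes of the elements of `S`. -/
def Pre (S : Subgroup (FreeGroup α)) : Set (FreeGroup α) :=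
  {x | ∃ s ∈ S, x.norm + (x⁻¹ * s).norm = s.norm}

/-- Words labelling paths of the Stallings graph starting at two different vertices. -/
def IsPiece (S : Subgroup (FreeGroup α)) (w : FreeGroup α) : Prop :=
  ∃ x y : FreeGroup α, x ∈ Pre S ∧ x * w ∈ Pre S ∧ y ∈ Pre S ∧ y * w ∈ Pre S ∧ y * x⁻¹ ∉ S

theorem mem_pre_iff {S : Subgroup (FreeGroup α)} {x : FreeGroup α} :
    x ∈ Pre S ↔ ∃ s ∈ S, (freeDist α).B 1 x s := by
  have e : ∀ s : FreeGroup α, (freeDist α).B 1 x s ↔ x.norm + (x⁻¹ * s).norm = s.norm := by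
    intro s
    show (1⁻¹ * x).norm + (x⁻¹ * s).norm = (1⁻¹ * s).norm ↔ _
    rw [inv_one, one_mul, one_mul]
  simp only [e]
  rfl

theorem B_mul (f : FreeGroup α) {x z y : FreeGroup α} (h : (freeDist α).B x z y) :
    (freeDist α).B (f * x) (f * z) (f * y) := by
  unfold TreeDist.B at *
  rw [freeDist_mul, freeDist_mul, freeDist_mul]
  exact h

theorem pre_smul {S : Subgroup (FreeGroup α)} {s x : FreeGroup α} (hs : s ∈ S) (hx : x ∈ Pre S) :
    s * x ∈ Pre S := by
  rw [mem_pre_iff] at *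
  obtain ⟨t, ht, h⟩ := hx
  have h1 := B_mul s h
  rw [mul_one] at h1
  rcases (freeDist α).B_or h1 1 with h2 | h2
  · exact ⟨s, hs, (freeDist α).B_symm h2⟩
  · exact ⟨s * t, S.mul_mem hs ht, h2⟩

theorem pre_smul_iff {S : Subgroup (FreeGroup α)} {s x : FreeGroup α} (hs : s ∈ S) :
    s * x ∈ Pre S ↔ x ∈ Pre S := by
  constructor
  · intro h
    have := pre_smul (S.inv_mem hs) h
    rwa [inv_mul_cancel_left] at this
  · exact pre_smul hs

theorem one_mem_pre (S : Subgroup (FreeGroup α)) : 1 ∈ Pre S := ⟨1, S.one_mem, by simp⟩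

theorem convex_pre (S : Subgroup (FreeGroup α)) : (freeDist α).Convex (Pre S) := by
  intro x hx y hy z hz
  rw [mem_pre_iff] at *
  obtain ⟨s, hs, h⟩ := hx
  obtain ⟨t, ht, h'⟩ := hy
  rcases (freeDist α).B_or hz 1 with h1 | h1
  · -- `z ∈ [x, 1]`, `x ∈ [1, s]`
    refine ⟨s, hs, ?_⟩
    have h2 := (freeDist α).B_symm h1
    unfold TreeDist.B at *
    have h3 := (freeDist α).tri z x s
    have h4 := (freeDist α).tri 1 z s
    omega
  · refine ⟨t, ht, ?_⟩
    unfold TreeDist.B at *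
    have h3 := (freeDist α).tri z y t
    have h4 := (freeDist α).tri 1 z t
    omega

/-- The translate of `Pre S`. -/
def YY (S : Subgroup (FreeGroup α)) (q : FreeGroup α ⧸ S) : Set (FreeGroup α) :=
  {x | ∃ f : FreeGroup α, (QuotientGroup.mk f : FreeGroup α ⧸ S) = q ∧ f⁻¹ * x ∈ Pre S}

theorem mem_YY {S : Subgroup (FreeGroup α)} {f x : FreeGroup α} :
    x ∈ YY S (QuotientGroup.mk f : FreeGroup α ⧸ S) ↔ f⁻¹ * x ∈ Pre S := by
  constructor
  · rintro ⟨g, hg, h⟩
    have h1 : f⁻¹ * g ∈ S := QuotientGroup.eq.mp hg.symm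
    have h2 := pre_smul h1 h
    have e : f⁻¹ * g * (g⁻¹ * x) = f⁻¹ * x := by group
    rwa [e] at h2
  · intro h
    exact ⟨f, rfl, h⟩

/-- The small cancellation family of a subgroup. -/
def fam (S : Subgroup (FreeGroup α)) (L : ℕ) (hL : 1 ≤ L)
    (hpiece : ∀ w, IsPiece S w → w.norm ≤ L)
    (hlong : ∀ s ∈ S, s ≠ 1 → ∀ f : FreeGroup α, 6 * L < (f * s * f⁻¹).norm) :
    Fam (FreeGroup α) (FreeGroup α ⧸ S) (freeDist α) where
  iso f x y := freeDist_mul f x y
  Y := YY S
  conv := by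
    intro q
    obtain ⟨f, rfl⟩ := QuotientGroup.mk_surjective q
    intro x hx y hy z hz
    rw [mem_YY] at *
    exact convex_pre S _ hx _ hy _ (B_mul f⁻¹ hz)
  ne := by
    intro q
    obtain ⟨f, rfl⟩ := QuotientGroup.mk_surjective q
    refine ⟨f, ?_⟩
    rw [mem_YY, inv_mul_cancel]
    exact one_mem_pre S
  equiv := by
    intro g q x hx
    obtain ⟨f, rfl⟩ := QuotientGroup.mk_surjective q
    rw [mem_YY] at hx
    show g * x ∈ YY S (QuotientGroup.mk (g * f))
    rw [mem_YY]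
    have e : (g * f)⁻¹ * (g * x) = f⁻¹ * x := by group
    rwa [e]
  lam := L
  lam_pos := hL
  small := by
    intro q q' hne x hx hx' y hy hy'
    obtain ⟨f, rfl⟩ := QuotientGroup.mk_surjective q
    obtain ⟨f', rfl⟩ := QuotientGroup.mk_surjective q'
    rw [mem_YY] at hx hx' hy hy'
    apply hpiece (x⁻¹ * y)
    refine ⟨f⁻¹ * x, f'⁻¹ * x, hx, ?_, hx', ?_, ?_⟩
    · have e : f⁻¹ * x * (x⁻¹ * y) = f⁻¹ * y := by group
      rwa [e]
    · have e : f'⁻¹ * x * (x⁻¹ * y) = f'⁻¹ * y := by group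
      rwa [e]
    · intro h
      have e : f'⁻¹ * x * (f⁻¹ * x)⁻¹ = f'⁻¹ * f := by group
      rw [e] at h
      exact hne (QuotientGroup.eq.mpr h).symm
  disp := by
    intro q t ht ht1 x hx
    obtain ⟨f, rfl⟩ := QuotientGroup.mk_surjective q
    have h1 : f⁻¹ * t * f ∈ S := by
      have h2 : (QuotientGroup.mk (t * f) : FreeGroup α ⧸ S) = QuotientGroup.mk f := ht
      have h3 := QuotientGroup.eq.mp h2.symm
      rwa [← mul_assoc] at h3
    have h2 : f⁻¹ * t * f ≠ 1 := by
      intro h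
      apply ht1
      have := congrArg (fun z => f * z * f⁻¹) h
      simpa [mul_assoc] using this
    have h3 := hlong _ h1 h2 (x⁻¹ * f)
    have e : x⁻¹ * f * (f⁻¹ * t * f) * (x⁻¹ * f)⁻¹ = x⁻¹ * (t * x) := by group
    rw [e] at h3
    exact h3

theorem smul_mk_one_iff {F : Type*} [Group F] {S : Subgroup F} {s : F} :
    s • (QuotientGroup.mk 1 : F ⧸ S) = QuotientGroup.mk 1 ↔ s ∈ S := by
  have h : (s • (QuotientGroup.mk 1 : F ⧸ S)) = QuotientGroup.mk (s * 1) := rfl
  rw [h, mul_one, QuotientGroup.eq, mul_one, Subgroup.inv_mem_iff]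

theorem smul_mk_iff {F : Type*} [Group F] {S : Subgroup F} {t f : F} :
    t • (QuotientGroup.mk f : F ⧸ S) = QuotientGroup.mk f ↔ f⁻¹ * t * f ∈ S := by
  have h : (t • (QuotientGroup.mk f : F ⧸ S)) = QuotientGroup.mk (t * f) := rfl
  rw [h, eq_comm, QuotientGroup.eq, mul_assoc]

theorem N0_eq {F : Type*} [Group F] (S : Subgroup F) :
    Fam.N0 F (F ⧸ S) = Subgroup.normalClosure (S : Set F) := by
  apply le_antisymm
  · refine (Subgroup.closure_le _).mpr ?_
    rintro t ⟨q, ht⟩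
    obtain ⟨f, rfl⟩ := QuotientGroup.mk_surjective q
    rw [smul_mk_iff] at ht
    have h1 := Subgroup.subset_normalClosure (s := (S : Set F)) ht
    have h2 := (Subgroup.normalClosure_normal (s := (S : Set F))).conj_mem _ h1 f
    have e : f * (f⁻¹ * t * f) * f⁻¹ = t := by group
    rwa [e] at h2
  · refine (Subgroup.closure_le _).mpr ?_
    intro x hx
    obtain ⟨s, hs, hcj⟩ := Group.mem_conjugatesOfSet_iff.mp hx
    obtain ⟨c, rfl⟩ := isConj_iff.mp hcj
    refine Subgroup.subset_closure ⟨QuotientGroup.mk c, ?_⟩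
    rw [smul_mk_iff]
    have e : c⁻¹ * (c * s * c⁻¹) * c = s := by group
    rw [e]
    exact hs

theorem goodCompl_of_small (S : Subgroup (FreeGroup α)) (L : ℕ) (hL : 1 ≤ L)
    (hpiece : ∀ w, IsPiece S w → w.norm ≤ L)
    (hlong : ∀ s ∈ S, s ≠ 1 → ∀ f : FreeGroup α, 6 * L < (f * s * f⁻¹).norm) :
    ∃ K : Subgroup (FreeGroup α), GoodCompl S (Subgroup.normalClosure (S : Set (FreeGroup α))) K := by
  obtain ⟨K, h1, h2, h3, h4, h5⟩ := (fam S L hL hpiece hlong).exists_complement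
    (QuotientGroup.mk 1)
  rw [N0_eq] at h1 h2 h4 h5
  refine ⟨K, ⟨Subgroup.subset_normalClosure, h1, h2, ?_, ?_, ?_⟩⟩
  · intro s hs hsS
    exact h3 s hs (smul_mk_one_iff.mpr hsS)
  · intro g hg
    obtain ⟨k, hk, s, hs, e⟩ := h4 g hg
    exact ⟨k, hk, s, smul_mk_one_iff.mp hs, e⟩
  · intro f hf s hs
    apply h5 (QuotientGroup.mk f)
    · intro g hg h
      have h6 : (QuotientGroup.mk f : FreeGroup α ⧸ S) = QuotientGroup.mk (g * 1) := h
      rw [mul_one] at h6
      have h7 := QuotientGroup.eq.mp h6.symm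
      apply hf
      have h8 := Subgroup.mul_mem _ hg (Subgroup.subset_normalClosure (s := (S : Set (FreeGroup α))) h7)
      rwa [mul_inv_cancel_left] at h8
    · rw [smul_mk_iff]
      have e : f⁻¹ * (f * s * f⁻¹) * f = s := by group
      rwa [e]

/-- **Small cancellation subgroups reflect dependence in every pushout.** -/
theorem small_reflects (S : Subgroup (FreeGroup α)) (L : ℕ) (hL : 1 ≤ L)
    (hpiece : ∀ w, IsPiece S w → w.norm ≤ L)
    (hlong : ∀ s ∈ S, s ≠ 1 → ∀ f : FreeGroup α, 6 * L < (f * s * f⁻¹).norm)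
    {G : Type v} [Group G] (θ : S →* G) : Reflects (toPushout S θ) := by
  obtain ⟨K, h⟩ := goodCompl_of_small S L hL hpiece hlong
  exact h.reflects θ

end

/-! ### From the pushout to `B_n` -/

theorem dependent_of_reflects {F : Type u} [Group F] {S : Subgroup F}
    (h : Reflects (toPushout S (MonoidHom.id S))) {n : ℕ} (a : S) (g : Fin n → S)
    (hd : Dependent (a : F) (fun i => (g i : F))) : Dependent a g := by
  obtain ⟨c, hc⟩ := hd
  -- the tuple `(a⁻¹, g_1, …, g_n)`
  have hin : ∀ s : S, toPushout S (MonoidHom.id S) s =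
      (QuotientGroup.mk (Coprod.inr (s : F)) : Pushout S (MonoidHom.id S)) := by
    intro s
    show (QuotientGroup.mk (Coprod.inl s) : Pushout S (MonoidHom.id S)) = _
    rw [← mul_inv_eq_one, ← QuotientGroup.mk_inv, ← QuotientGroup.mk_mul,
      QuotientGroup.eq_one_iff]
    exact Subgroup.subset_normalClosure ⟨s, rfl⟩
  have h1 : OneDependent (fun i => toPushout S (MonoidHom.id S)
      ((Fin.cons a⁻¹ g : Fin (n + 1) → S) i)) := by
    let j : F →* Pushout S (MonoidHom.id S) := (QuotientGroup.mk' _).comp Coprod.inr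
    refine ⟨fun i => j ((Fin.cons 1 c : Fin (n + 1) → F) i), ?_⟩
    have h2 : (List.ofFn fun i => (Fin.cons 1 c : Fin (n + 1) → F) i *
        ((Fin.cons a⁻¹ g : Fin (n + 1) → S) i : F) *
        ((Fin.cons 1 c : Fin (n + 1) → F) i)⁻¹).prod = 1 := by
      rw [List.ofFn_succ, List.prod_cons]
      simp only [Fin.cons_zero, Fin.cons_succ]
      rw [← hc]
      simp
    have h3 := congrArg j h2
    rw [map_list_prod, _root_.map_one, List.map_ofFn] at h3
    rw [← h3]
    congr 2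
    funext i
    simp only [Function.comp_apply, _root_.map_mul, _root_.map_inv]
    rw [hin]
    rfl
  obtain ⟨d, hd⟩ := h _ _ h1
  rw [List.ofFn_succ, List.prod_cons] at hd
  simp only [Fin.cons_zero, Fin.cons_succ] at hd
  refine ⟨fun i => (d 0)⁻¹ * d i.succ, ?_⟩
  have h5 : (List.ofFn fun i : Fin n => d i.succ * g i * (d i.succ)⁻¹).prod =
      d 0 * a * (d 0)⁻¹ := by
    have := eq_inv_of_mul_eq_one_right hd
    rw [this]
    group
  have h4 := conj_prod (d 0)⁻¹ (fun i : Fin n => d i.succ * g i * (d i.succ)⁻¹)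
  rw [h5] at h4
  have e : (d 0)⁻¹ * (d 0 * a * (d 0)⁻¹) * (d 0)⁻¹⁻¹ = a := by group
  rw [e] at h4
  rw [h4]
  congr 2
  funext i
  group

end Pool.Agent.H28
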